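import Pool.Agent.Exo5.Defs
import Pool.Agent.TateTwo.Exterior

/-!
# Generation of the classes in exterior powers

PACKAGE Exo5-Ext (statement frozen). Proof: as `Pool.Agent.TateTwo.generated`
(Pool/Agent/TateTwo/Exterior.lean; use its `mono`, `mono_perm`, `map_mono`, `span_mono`,
`mem_span_eigen`): `x` is a combination of the `mono L`, `L` a list of `2 * i` pairs
`(eigenvalue, eigenvector)` with `(product of the eigenvalues) ^ m = q ^ (i * m)`. If
`mono L ≠ 0`, then the vectors of `L` are linearly independent
(`AlternatingMap.map_linearDependent` for `ExteriorAlgebra.ιMulti`), so the number of the pairs of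
`L` with the eigenvalue `μ` is at most the dimension of the eigenspace, which is at most the
multiplicity of `μ` in the characteristic polynomial (e.g.
`LinearMap.finrank_maxGenEigenspace_eq`, `Module.End.eigenspace ≤ maxGenEigenspace`): the multiset
of the eigenvalues is `≤ F.charpoly.roots`. Induction on `i`, with `hkey`: either `L = []`, or two
members of `L` have eigenvalues with product `q`: move them to the front (`mono_perm`), their
product is in the first set (`map_mono`), and the rest is a shorter list with the same properties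
(sub-multiset; `(product) ^ m = q ^ ((i - 1) * m)` as `q ≠ 0`); or `T` holds for the multiset of
the eigenvalues, and `mono L` is in the second set.
-/

set_option autoImplicit false

namespace Pool.Agent.Exo5

open Polynomial Module Pool.Agent.TateTwo

private theorem mono_append {K W : Type} [Field K] [AddCommGroup W] [Module K W]
    (L L' : List (K × W)) : mono (L ++ L') = mono L * mono L' := by
  simp [mono]

private theorem linInd_of_mono {K W : Type} [Field K] [AddCommGroup W] [Module K W]
    (L : List (K × W)) (h : mono L ≠ 0) :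
    LinearIndependent K (fun i : Fin L.length => (L.get i).2) := by
  by_contra hne
  apply h
  have h1 := AlternatingMap.map_linearDependent
    (ExteriorAlgebra.ιMulti K (M := W) L.length) _ hne
  rw [ExteriorAlgebra.ιMulti_apply] at h1
  rw [mono, ← h1]
  congr 1
  apply List.ext_get
  · simp
  · intro n h2 h3
    simp

open Classical in
private theorem count_le {K W : Type} [Field K] [AddCommGroup W] [Module K W]
    [FiniteDimensional K W] (F : Module.End K W) (L : List (K × W))
    (hL : ∀ b ∈ L, F b.2 = b.1 • b.2) (h : mono L ≠ 0) (μ : K) :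
    ((L.map Prod.fst : List K) : Multiset K).count μ ≤ F.charpoly.rootMultiplicity μ := by
  set L₁ := L.filter (fun b => decide (b.1 = μ)) with hL₁
  set L₂ := L.filter (fun b => !decide (b.1 = μ)) with hL₂
  have hperm : (L₁ ++ L₂).Perm L := List.filter_append_perm _ L
  have h1 : mono L₁ ≠ 0 := by
    intro h0
    apply h
    rcases mono_perm hperm with h2 | h2
    · rw [← h2, mono_append, h0, zero_mul]
    · rw [mono_append, h0, zero_mul] at h2
      exact neg_eq_zero.1 h2.symm
  have h2 := linInd_of_mono L₁ h1
  have hmem : ∀ i : Fin L₁.length, (L₁.get i).2 ∈ F.eigenspace μ := by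
    intro i
    have h3 : L₁.get i ∈ L₁ := List.get_mem _ _
    obtain ⟨h4, h5⟩ := List.mem_filter.1 h3
    rw [Module.End.mem_eigenspace_iff, hL _ h4, of_decide_eq_true h5]
  have h3 : LinearIndependent K (fun i : Fin L₁.length =>
      (⟨(L₁.get i).2, hmem i⟩ : F.eigenspace μ)) :=
    LinearIndependent.of_comp (F.eigenspace μ).subtype h2
  have h4 := h3.fintype_card_le_finrank
  rw [Fintype.card_fin] at h4
  have h5 : ((L.map Prod.fst : List K) : Multiset K).count μ = L₁.length := by
    rw [Multiset.coe_count, hL₁, List.count, List.countP_map, List.countP_eq_length_filter]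
    congr 1
  rw [h5]
  exact h4.trans (LinearMap.finrank_eigenspace_le F μ)

open Classical in
private theorem mono_mem_adjoin {K W : Type} [Field K] [IsAlgClosed K] [CharZero K]
    [AddCommGroup W] [Module K W] [FiniteDimensional K W] (F : Module.End K W) {q : K}
    (hq : q ≠ 0) (m : ℕ) (T : Multiset K → Prop)
    (hkey : ∀ (i : ℕ) (M : Multiset K), M ≤ F.charpoly.roots → M.card = 2 * i →
      M.prod ^ m = q ^ (i * m) → M = 0 ∨ (∃ μ ∈ M, ∃ ν ∈ M.erase μ, μ * ν = q) ∨ T M)
    (i : ℕ) : ∀ L : List (K × W), L.length = 2 * i → (∀ b ∈ L, F b.2 = b.1 • b.2) →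
      (L.map Prod.fst).prod ^ m = q ^ (i * m) →
      mono L ∈ Algebra.adjoin K ({y | y ∈ ⋀[K]^2 W ∧ ExteriorAlgebra.map F y = q • y} ∪
        {y | IsClassOf F T y}) := by
  induction i with
  | zero =>
    intro L hL _ _
    have h1 : L = [] := List.length_eq_zero_iff.mp (by omega)
    rw [h1, mono_nil]
    exact one_mem _
  | succ i ih =>
    intro L hL hF hprod
    by_cases h0 : mono L = 0
    · rw [h0]
      exact zero_mem _
    have hle : ((L.map Prod.fst : List K) : Multiset K) ≤ F.charpoly.roots := by
      rw [Multiset.le_iff_count]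
      intro μ
      rw [count_roots]
      exact count_le F L hF h0 μ
    rcases hkey (i + 1) _ hle (by rw [Multiset.coe_card, List.length_map, hL])
      (by rw [Multiset.prod_coe, hprod]) with h1 | ⟨μ, hμ, ν, hν, hμν⟩ | h1
    · rw [Multiset.coe_eq_zero, List.map_eq_nil_iff] at h1
      rw [h1] at hL
      simp at hL
    · rw [Multiset.mem_coe, List.mem_map] at hμ
      obtain ⟨a, ha, rfl⟩ := hμ
      have hperm := List.perm_cons_erase ha
      set L' := L.erase a with hL'
      have h2 : ((L.map Prod.fst : List K) : Multiset K).erase a.1 =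
          ((L'.map Prod.fst : List K) : Multiset K) := by
        have h3 : ((L.map Prod.fst : List K) : Multiset K) =
            a.1 ::ₘ ((L'.map Prod.fst : List K) : Multiset K) := by
          rw [Multiset.cons_coe]
          exact Multiset.coe_eq_coe.2 (hperm.map Prod.fst)
        rw [h3, Multiset.erase_cons_head]
      rw [h2, Multiset.mem_coe, List.mem_map] at hν
      obtain ⟨b, hb, rfl⟩ := hν
      have hperm' := List.perm_cons_erase hb
      set L'' := L'.erase b with hL''
      have hperm2 : L.Perm (a :: b :: L'') := hperm.trans (hperm'.cons a)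
      have hlen : L''.length = 2 * i := by
        have h3 := hperm2.length_eq
        rw [List.length_cons, List.length_cons, hL] at h3
        omega
      have hsub : ∀ x ∈ L'', x ∈ L := fun x hx =>
        hperm2.mem_iff.mpr (List.mem_cons_of_mem _ (List.mem_cons_of_mem _ hx))
      have hb' : b ∈ L := hperm2.mem_iff.mpr (List.mem_cons_of_mem _ List.mem_cons_self)
      have hrest := ih L'' hlen (fun x hx => hF x (hsub x hx)) (by
        have h3 : (L.map Prod.fst).prod = a.1 * b.1 * (L''.map Prod.fst).prod := by
          rw [(hperm2.map Prod.fst).prod_eq, List.map_cons, List.map_cons, List.prod_cons,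
            List.prod_cons, mul_assoc]
        rw [h3, hμν, mul_pow] at hprod
        have h4 : q ^ ((i + 1) * m) = q ^ m * q ^ (i * m) := by
          rw [← pow_add]
          congr 1
          ring
        rw [h4] at hprod
        exact mul_left_cancel₀ (pow_ne_zero m hq) hprod)
      have hab : ExteriorAlgebra.ι K a.2 * ExteriorAlgebra.ι K b.2 ∈
          ({y | y ∈ ⋀[K]^2 W ∧ ExteriorAlgebra.map F y = q • y} ∪ {y | IsClassOf F T y} :
            Set (ExteriorAlgebra K W)) := by
        left
        constructor
        · have h3 : ExteriorAlgebra.ι K a.2 * ExteriorAlgebra.ι K b.2 ∈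
              (LinearMap.range (ExteriorAlgebra.ι K : W →ₗ[K] ExteriorAlgebra K W)) ^ 2 := by
            rw [pow_two]
            exact Submodule.mul_mem_mul ⟨_, rfl⟩ ⟨_, rfl⟩
          exact h3
        · have h3 := map_mono (F := F) (L := [a, b]) (by
            intro x hx
            rcases List.mem_cons.mp hx with h | h
            · rw [h]
              exact hF a ha
            · rw [List.mem_singleton.mp h]
              exact hF b hb')
          simp only [mono_cons, mono_nil, mul_one, List.map_cons, List.map_nil, List.prod_cons,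
            List.prod_nil, hμν] at h3
          exact h3
      have h3 := mul_mem (Algebra.subset_adjoin hab) hrest
      rcases mono_perm hperm2 with h4 | h4
      · rw [h4, mono_cons, mono_cons, ← mul_assoc]
        exact h3
      · rw [h4, mono_cons, mono_cons, ← mul_assoc]
        exact neg_mem h3
    · apply Algebra.subset_adjoin
      right
      exact ⟨L, hF, h1, rfl⟩

open Classical in
theorem generated_of_key {K W : Type} [Field K] [IsAlgClosed K] [CharZero K] [AddCommGroup W]
    [Module K W] [FiniteDimensional K W] (F : Module.End K W)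
    (hF : ⨆ μ : K, F.eigenspace μ = ⊤) {q : K} (hq : q ≠ 0) (m : ℕ) (T : Multiset K → Prop)
    (hkey : ∀ (i : ℕ) (M : Multiset K), M ≤ F.charpoly.roots → M.card = 2 * i →
      M.prod ^ m = q ^ (i * m) → M = 0 ∨ (∃ μ ∈ M, ∃ ν ∈ M.erase μ, μ * ν = q) ∨ T M)
    (i : ℕ) {x : ExteriorAlgebra K W} (hx : x ∈ ⋀[K]^(2 * i) W)
    (hxF : ExteriorAlgebra.map (F ^ m) x = q ^ (i * m) • x) :
    x ∈ Algebra.adjoin K ({y | y ∈ ⋀[K]^2 W ∧ ExteriorAlgebra.map F y = q • y} ∪
      {y | IsClassOf F T y}) := by
  set S : Set (ExteriorAlgebra K W) := {x | ∃ L : List (K × W), L.length = 2 * i ∧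
    (∀ a ∈ L, F a.2 = a.1 • a.2) ∧ x = mono L} with hSdef
  have hS : ∀ x ∈ S, ∃ c : K, ∃ L : List (K × W), L.length = 2 * i ∧
      (∀ a ∈ L, F a.2 = a.1 • a.2) ∧ x = mono L ∧ c = (L.map Prod.fst).prod ^ m := by
    rintro x ⟨L, h1, h2, h3⟩
    exact ⟨_, L, h1, h2, h3, rfl⟩
  choose! ev Lf hev using hS
  have hpow : ∀ L : List (K × W), (∀ a ∈ L, F a.2 = a.1 • a.2) →
      ExteriorAlgebra.map (F ^ m) (mono L) = (L.map Prod.fst).prod ^ m • mono L := by
    intro L hL
    have h1 : ∀ n : ℕ, ExteriorAlgebra.map (F ^ n) (mono L) =
        (L.map Prod.fst).prod ^ n • mono L := by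
      intro n
      induction n with
      | zero =>
        rw [pow_zero, pow_zero, one_smul]
        have h2 : ExteriorAlgebra.map (1 : Module.End K W) = AlgHom.id K _ :=
          ExteriorAlgebra.map_id
        rw [h2]
        rfl
      | succ n ih =>
        have h2 : ExteriorAlgebra.map (F ^ (n + 1)) =
            (ExteriorAlgebra.map F).comp (ExteriorAlgebra.map (F ^ n)) := by
          rw [ExteriorAlgebra.map_comp_map, pow_succ']
          rfl
        rw [h2, AlgHom.comp_apply, ih, map_smul, map_mono hL, smul_smul, pow_succ]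
    exact h1 m
  have h1 := mem_span_eigen (ExteriorAlgebra.map (F ^ m)).toLinearMap S ev (by
    intro y hy
    obtain ⟨h2, h3, h4, h5⟩ := hev y hy
    have h6 := hpow (Lf y) h3
    rw [← h4, ← h5] at h6
    exact h6) (span_mono hF _ hx) hxF
  have h2 : Submodule.span K {y | y ∈ S ∧ ev y = q ^ (i * m)} ≤
      Subalgebra.toSubmodule (Algebra.adjoin K
        ({y | y ∈ ⋀[K]^2 W ∧ ExteriorAlgebra.map F y = q • y} ∪ {y | IsClassOf F T y})) := by
    refine Submodule.span_le.mpr ?_
    rintro y ⟨hy, hyc⟩
    obtain ⟨h2, h3, h4, h5⟩ := hev y hy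
    rw [hyc] at h5
    rw [SetLike.mem_coe, h4]
    exact mono_mem_adjoin F hq m T hkey i (Lf y) h2 h3 h5.symm
  exact h2 h1

end Pool.Agent.Exo5
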