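import Pool.Agent.Exo5.SDefs

/-!
# Slope data: basic facts
-/

set_option autoImplicit false

namespace Pool.Agent.Exo5

section

variable {G : Type} [Fintype G]

theorem ip_comm (u v : G → ℝ) : SlopeData.ip u v = SlopeData.ip v u :=
  Finset.sum_congr rfl fun _ _ => mul_comm _ _

theorem ip_add_left (u v w : G → ℝ) :
    SlopeData.ip (u + v) w = SlopeData.ip u w + SlopeData.ip v w := by
  simp [SlopeData.ip, add_mul, Finset.sum_add_distrib]

theorem ip_add_right (u v w : G → ℝ) :
    SlopeData.ip u (v + w) = SlopeData.ip u v + SlopeData.ip u w := by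
  simp [SlopeData.ip, mul_add, Finset.sum_add_distrib]

theorem ip_neg_left (u v : G → ℝ) : SlopeData.ip (-u) v = -SlopeData.ip u v := by
  simp [SlopeData.ip]

theorem ip_neg_right (u v : G → ℝ) : SlopeData.ip u (-v) = -SlopeData.ip u v := by
  simp [SlopeData.ip]

theorem ip_sub_left (u v w : G → ℝ) :
    SlopeData.ip (u - v) w = SlopeData.ip u w - SlopeData.ip v w := by
  simp [SlopeData.ip, sub_mul, Finset.sum_sub_distrib]

theorem ip_sub_right (u v w : G → ℝ) :
    SlopeData.ip u (v - w) = SlopeData.ip u v - SlopeData.ip u w := by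
  simp [SlopeData.ip, mul_sub, Finset.sum_sub_distrib]

theorem ip_smul_left (t : ℝ) (u v : G → ℝ) :
    SlopeData.ip (t • u) v = t * SlopeData.ip u v := by
  simp [SlopeData.ip, Finset.mul_sum, mul_assoc]

theorem ip_smul_right (t : ℝ) (u v : G → ℝ) :
    SlopeData.ip u (t • v) = t * SlopeData.ip u v := by
  rw [ip_comm, ip_smul_left, ip_comm]

theorem ip_self_nonneg (u : G → ℝ) : 0 ≤ SlopeData.ip u u :=
  Finset.sum_nonneg fun _ _ => mul_self_nonneg _

theorem eq_zero_of_ip_self {u : G → ℝ} (h : SlopeData.ip u u = 0) : u = 0 := by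
  funext g
  have := (Finset.sum_eq_zero_iff_of_nonneg (fun _ _ => mul_self_nonneg _)).1 h g
    (Finset.mem_univ g)
  simpa using this

/-- strict convexity: vectors `u`, `v`, `w` of the same length with `2 w = u + v` are equal -/
theorem eq_of_two_smul {u v w : G → ℝ} (h : (2 : ℝ) • w = u + v)
    (h1 : SlopeData.ip u u = SlopeData.ip w w) (h2 : SlopeData.ip v v = SlopeData.ip w w) :
    u = v := by
  have e1 : SlopeData.ip ((2 : ℝ) • w) ((2 : ℝ) • w) = SlopeData.ip (u + v) (u + v) := by rw [h]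
  rw [ip_smul_left, ip_smul_right, ip_add_left, ip_add_right, ip_add_right, ip_comm v u] at e1
  have e2 : SlopeData.ip (u - v) (u - v) = 0 := by
    rw [ip_sub_left, ip_sub_right, ip_sub_right, ip_comm v u]
    linarith
  exact sub_eq_zero.1 (eq_zero_of_ip_self e2)

end

namespace SlopeData

variable {G Z : Type} [Group G] [Fintype G] [Fintype Z] [DecidableEq Z] [MulAction G Z]

variable (S : SlopeData G Z)

theorem inv_inj {z w : Z} (h : S.inv z = S.inv w) : z = w := by
  rw [← S.inv_inv z, h, S.inv_inv]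

theorem vec_inv (z : Z) : S.vec (S.inv z) = -S.vec z := by
  funext g
  simp only [vec, Pi.neg_apply, S.smul_inv, S.sl_inv]

theorem eq_of_vec {z w : Z} (h : S.vec z = S.vec w) : z = w := S.ext z w fun g => congrFun h g

theorem eq_inv_of_vec {z w : Z} (h : S.vec z = -S.vec w) : z = S.inv w :=
  S.eq_of_vec (by rw [h, vec_inv])

theorem real_of_vec {z : Z} (h : S.vec z = 0) : S.inv z = z :=
  S.eq_of_vec (by rw [vec_inv, h, neg_zero])

theorem vec_real {z : Z} (h : S.inv z = z) : S.vec z = 0 := by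
  have h1 := S.vec_inv z
  rw [h] at h1
  exact self_eq_neg.1 h1

theorem vec_ne_zero {z : Z} (h : S.inv z ≠ z) : S.vec z ≠ 0 := fun h1 => h (S.real_of_vec h1)

theorem real_unique {z w : Z} (hz : S.inv z = z) (hw : S.inv w = w) : z = w :=
  S.eq_of_vec (by rw [S.vec_real hz, S.vec_real hw])

theorem inv_smul_real {z : Z} (g : G) (h : S.inv z = z) : S.inv (g • z) = g • z := by
  rw [← S.smul_inv, h]

theorem smul_real {z : Z} (g : G) (h : S.inv z = z) : g • z = z :=
  S.real_unique (S.inv_smul_real g h) h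

theorem nonreal_smul {z : Z} (g : G) (h : S.inv z ≠ z) : S.inv (g • z) ≠ g • z := by
  rw [← S.smul_inv]
  exact fun h1 => h (MulAction.injective g h1)

theorem nonreal_inv {z : Z} (h : S.inv z ≠ z) : S.inv (S.inv z) ≠ S.inv z := fun h1 =>
  h (S.inv_inj h1)

theorem vec_smul (g h : G) (z : Z) : S.vec (g • z) h = S.vec z (h * g) := by
  simp only [vec, smul_smul]

theorem ip_smul (g : G) (z w : Z) : ip (S.vec (g • z)) (S.vec (g • w)) = ip (S.vec z) (S.vec w) := by
  simp only [ip, vec_smul]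
  exact Fintype.sum_equiv (Equiv.mulRight g) _ _ fun x => rfl

/-- the length -/
theorem ip_smul_self (g : G) (z : Z) :
    ip (S.vec (g • z)) (S.vec (g • z)) = ip (S.vec z) (S.vec z) := S.ip_smul g z z

theorem ip_inv_self (z : Z) :
    ip (S.vec (S.inv z)) (S.vec (S.inv z)) = ip (S.vec z) (S.vec z) := by
  rw [vec_inv, ip_neg_left, ip_neg_right, neg_neg]

variable {S} in
theorem Ap.symm {z w : Z} (h : S.Ap z w) : S.Ap w z :=
  ⟨fun e => h.1 e.symm, fun e => h.2 (by rw [e, S.inv_inv])⟩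

variable {S} in
theorem Ap.smul {z w : Z} (h : S.Ap z w) (g : G) : S.Ap (g • z) (g • w) :=
  ⟨fun e => h.1 (MulAction.injective g e),
    fun e => h.2 (MulAction.injective g (e.trans (S.smul_inv g w).symm))⟩

variable {S} in
theorem Ap.inv_left {z w : Z} (h : S.Ap z w) : S.Ap (S.inv z) w :=
  ⟨fun e => h.2 (by rw [← e, S.inv_inv]), fun e => h.1 (S.inv_inj e)⟩

variable {S} in
theorem Ap.inv_right {z w : Z} (h : S.Ap z w) : S.Ap z (S.inv w) := h.symm.inv_left.symm

variable {S} in
theorem Ap.vec_ne {z w : Z} (h : S.Ap z w) : S.vec z ≠ S.vec w := fun e => h.1 (S.eq_of_vec e)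

variable {S} in
theorem Ap.vec_ne_neg {z w : Z} (h : S.Ap z w) : S.vec z ≠ -S.vec w := fun e =>
  h.2 (S.eq_inv_of_vec e)

theorem mult_inv (z : Z) : S.mult (S.inv z) = S.mult z := by
  rw [← S.c_smul, S.mult_smul]

theorem sl_real {z : Z} (h : S.inv z = z) : S.sl z = 0 := by
  have h1 := S.sl_inv z
  rw [h] at h1
  linarith

theorem orbit_D_of_fixed {z : Z} (h : ∀ d ∈ S.D, d • z = z) :
    (MulAction.orbit S.D z).ncard = 1 := by
  rw [Set.ncard_eq_one]
  refine ⟨z, Set.eq_singleton_iff_unique_mem.2 ⟨MulAction.mem_orbit_self z, ?_⟩⟩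
  rintro _ ⟨d, rfl⟩
  exact h d.1 d.2

/-- the integrality at a fixed point of the decomposition group -/
theorem fixed_int {z : Z} (h : ∀ d ∈ S.D, d • z = z) :
    ∃ k : ℤ, (S.mult z : ℝ) * (S.sl z + 1 / 2) = k := by
  obtain ⟨k, hk⟩ := S.int z
  rw [S.orbit_D_of_fixed h] at hk
  exact ⟨k, by rw [← hk]; push_cast; ring⟩

/-- a point of multiplicity one which is fixed by the decomposition group has slope `0` or `1` -/
theorem fixed_one {z : Z} (h : ∀ d ∈ S.D, d • z = z) (hm : S.mult z = 1) :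
    S.sl z = 1 / 2 ∨ S.sl z = -(1 / 2) := by
  obtain ⟨k, hk⟩ := S.fixed_int h
  rw [hm] at hk
  have h1 := abs_le.1 (S.sl_le z)
  have h2 : (0 : ℝ) ≤ k := by rw [← hk]; push_cast; linarith [h1.1]
  have h3 : (k : ℝ) ≤ 1 := by rw [← hk]; push_cast; linarith [h1.2]
  have h4 : (0 : ℤ) ≤ k := by exact_mod_cast h2
  have h5 : k ≤ 1 := by exact_mod_cast h3
  obtain rfl | rfl : k = 0 ∨ k = 1 := by omega
  · right; push_cast at hk; linarith
  · left; push_cast at hk; linarith

/-- a point of multiplicity two which is fixed by the decomposition group has slope `0`, `1/2`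
or `1` -/
theorem fixed_two {z : Z} (h : ∀ d ∈ S.D, d • z = z) (hm : S.mult z = 2) :
    S.sl z = 1 / 2 ∨ S.sl z = 0 ∨ S.sl z = -(1 / 2) := by
  obtain ⟨k, hk⟩ := S.fixed_int h
  rw [hm] at hk
  have h1 := abs_le.1 (S.sl_le z)
  have h2 : (0 : ℝ) ≤ k := by rw [← hk]; push_cast; linarith [h1.1]
  have h3 : (k : ℝ) ≤ 2 := by rw [← hk]; push_cast; linarith [h1.2]
  have h4 : (0 : ℤ) ≤ k := by exact_mod_cast h2
  have h5 : k ≤ 2 := by exact_mod_cast h3
  obtain rfl | rfl | rfl : k = 0 ∨ k = 1 ∨ k = 2 := by omega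
  · right; right; push_cast at hk; linarith
  · right; left; push_cast at hk; linarith
  · left; push_cast at hk; linarith

theorem even_real {z : Z} (h : S.inv z = z) : Even (S.mult z) := by
  obtain ⟨k, hk⟩ := S.fixed_int (z := z) fun d _ => S.smul_real d h
  rw [S.sl_real h] at hk
  have h1 : ((S.mult z : ℤ) : ℝ) = ((2 * k : ℤ) : ℝ) := by push_cast; linarith
  have h2 : (S.mult z : ℤ) = 2 * k := by exact_mod_cast h1
  exact (Int.even_coe_nat _).1 ⟨k, by omega⟩

theorem two_le_real {z : Z} (h : S.inv z = z) : 2 ≤ S.mult z := by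
  obtain ⟨k, hk⟩ := S.even_real h
  have := S.mult_pos z
  omega

/-- the sum of the multiplicities -/
theorem total_pairs (T : Finset Z) (hr : ∀ z ∈ T, S.inv z ≠ z)
    (ha : ∀ z ∈ T, ∀ w ∈ T, z ≠ w → S.Ap z w) : ∑ z ∈ T, S.mult z ≤ 5 := by
  have hd : Disjoint T (T.image S.inv) := by
    rw [Finset.disjoint_left]
    intro z hz hz'
    obtain ⟨w, hw, rfl⟩ := Finset.mem_image.1 hz'
    by_cases e : S.inv w = w
    · exact hr w hw e
    · exact (ha _ hz _ hw e).2 rfl
  have h1 : ∑ z ∈ T ∪ T.image S.inv, S.mult z ≤ ∑ z, S.mult z :=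
    Finset.sum_le_sum_of_subset (Finset.subset_univ _)
  rw [Finset.sum_union hd, Finset.sum_image fun z _ w _ h => S.inv_inj h] at h1
  simp only [mult_inv] at h1
  have := S.total
  omega

/-- the sum of the multiplicities, if there is a real point -/
theorem total_pairs_real {z₀ : Z} (h₀ : S.inv z₀ = z₀) (T : Finset Z)
    (hr : ∀ z ∈ T, S.inv z ≠ z) (ha : ∀ z ∈ T, ∀ w ∈ T, z ≠ w → S.Ap z w) :
    2 * ∑ z ∈ T, S.mult z + S.mult z₀ ≤ 10 := by
  have hd : Disjoint T (T.image S.inv) := by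
    rw [Finset.disjoint_left]
    intro z hz hz'
    obtain ⟨w, hw, rfl⟩ := Finset.mem_image.1 hz'
    by_cases e : S.inv w = w
    · exact hr w hw e
    · exact (ha _ hz _ hw e).2 rfl
  have hn : z₀ ∉ T ∪ T.image S.inv := by
    rw [Finset.mem_union, Finset.mem_image]
    rintro (h | ⟨w, hw, h⟩)
    · exact hr z₀ h h₀
    · refine hr w hw ?_
      have : w = z₀ := S.inv_inj (by rw [h, h₀])
      rw [this, h₀]
  have h1 : ∑ z ∈ insert z₀ (T ∪ T.image S.inv), S.mult z ≤ ∑ z, S.mult z :=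
    Finset.sum_le_sum_of_subset (Finset.subset_univ _)
  rw [Finset.sum_insert hn, Finset.sum_union hd,
    Finset.sum_image fun z _ w _ h => S.inv_inj h] at h1
  simp only [mult_inv] at h1
  have := S.total
  omega

/-- Lemma BQ: two points `u`, `v` which are apart and of multiplicity one are not moved
compatibly by all elements of the group. -/
theorem not_compatible {u v : Z} (h : S.Ap u v) (hu : S.mult u = 1) (hv : S.mult v = 1)
    (hg : ∀ g : G, (g • u = u ∧ g • v = v) ∨ (g • u = S.inv u ∧ g • v = S.inv v) ∨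
      (g • u = v ∧ g • v = u) ∨ (g • u = S.inv v ∧ g • v = S.inv u)) : False := by
  have h1 : S.sl u = S.sl v ∨ S.sl u = -S.sl v := by
    by_cases c1 : ∃ d ∈ S.D, d • u = v ∨ d • u = S.inv v
    · obtain ⟨d, hd, hd'⟩ := c1
      have e := S.sl_D d hd u
      rcases hd' with hd' | hd'
      · left; rw [← e, hd']
      · right; rw [← e, hd', S.sl_inv]
    · by_cases c2 : ∃ d ∈ S.D, d • u = S.inv u ∧ d • v = S.inv v
      · obtain ⟨d, hd, e1, e2⟩ := c2
        have e3 := S.sl_D d hd u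
        have e4 := S.sl_D d hd v
        rw [e1, S.sl_inv] at e3
        rw [e2, S.sl_inv] at e4
        left; linarith
      · have hfix : ∀ d ∈ S.D, d • u = u ∧ d • v = v := by
          intro d hd
          rcases hg d with e | e | e | e
          · exact e
          · exact absurd ⟨d, hd, e⟩ c2
          · exact absurd ⟨d, hd, Or.inl e.1⟩ c1
          · exact absurd ⟨d, hd, Or.inr e.1⟩ c1
        rcases S.fixed_one (fun d hd => (hfix d hd).1) hu with e1 | e1 <;>
        rcases S.fixed_one (fun d hd => (hfix d hd).2) hv with e2 | e2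
        · left; linarith
        · right; linarith
        · right; linarith
        · left; linarith
  rcases h1 with h1 | h1
  · refine h.1 (S.ext _ _ fun g => ?_)
    rcases hg g with ⟨e1, e2⟩ | ⟨e1, e2⟩ | ⟨e1, e2⟩ | ⟨e1, e2⟩ <;> rw [e1, e2]
    · exact h1
    · rw [S.sl_inv, S.sl_inv, h1]
    · exact h1.symm
    · rw [S.sl_inv, S.sl_inv, h1]
  · refine h.2 (S.ext _ _ fun g => ?_)
    rw [S.smul_inv, S.sl_inv]
    rcases hg g with ⟨e1, e2⟩ | ⟨e1, e2⟩ | ⟨e1, e2⟩ | ⟨e1, e2⟩ <;> rw [e1, e2]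
    · exact h1
    · rw [S.sl_inv, S.sl_inv, h1]
    · rw [h1, neg_neg]
    · rw [S.sl_inv, S.sl_inv, h1, neg_neg]

end SlopeData

end Pool.Agent.Exo5
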