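import Pool.Agent.Exo5.Core

/-!
# Multisets of eigenvalues without inverse pairs have at most five elements
-/

set_option autoImplicit false

namespace Pool.Agent.Exo5.SlopeData

variable {G Z : Type} [Group G] [Fintype G] [Fintype Z] [DecidableEq Z] [MulAction G Z]
  (S : SlopeData G Z)

theorem card_le_five (M : Multiset Z) (hle : ∀ z, M.count z ≤ S.mult z)
    (hnp : ∀ z ∈ M, S.inv z ∉ M.erase z) : M.card ≤ 5 := by
  have key : ∀ M' : Multiset Z, M' ≤ M → (∀ z ∈ M', S.inv z ≠ z) →
      M'.card ≤ ∑ z ∈ M'.toFinset, S.mult z ∧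
        ∀ z ∈ M'.toFinset, ∀ w ∈ M'.toFinset, z ≠ w → S.Ap z w := by
    intro M' hM' hr
    constructor
    · rw [← Multiset.toFinset_sum_count_eq]
      exact Finset.sum_le_sum fun z _ => (Multiset.count_le_of_le z hM').trans (hle z)
    · intro z hz w hw hzw
      rw [Multiset.mem_toFinset] at hz hw
      refine ⟨hzw, fun h => hnp w (Multiset.mem_of_le hM' hw) ?_⟩
      rw [← h]
      exact (Multiset.mem_erase_of_ne hzw).2 (Multiset.mem_of_le hM' hz)
  by_cases hreal : ∃ z ∈ M, S.inv z = z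
  · obtain ⟨z₀, hz₀, h₀⟩ := hreal
    obtain ⟨M', rfl⟩ := Multiset.exists_cons_of_mem hz₀
    have hz0' : z₀ ∉ M' := by
      have h1 := hnp z₀ hz₀
      rwa [Multiset.erase_cons_head, h₀] at h1
    have hnr : ∀ z ∈ M', S.inv z ≠ z := by
      intro z hz e
      rw [S.real_unique e h₀] at hz
      exact hz0' hz
    obtain ⟨h1, h2⟩ := key M' (Multiset.le_cons_self _ _) hnr
    have h3 := S.total_pairs_real h₀ M'.toFinset
      (fun z hz => hnr z (Multiset.mem_toFinset.1 hz)) h2
    have h4 := S.two_le_real h₀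
    rw [Multiset.card_cons]
    omega
  · obtain ⟨h1, h2⟩ := key M le_rfl fun z hz e => hreal ⟨z, hz, e⟩
    have h3 := S.total_pairs M.toFinset
      (fun z hz e => hreal ⟨z, Multiset.mem_toFinset.1 hz, e⟩) h2
    omega

/-- the classification of the multisets of eigenvalues with product a power of `q` -/
theorem classify (M : Multiset Z) {i : ℕ} (hc : M.card = 2 * i)
    (hle : ∀ z, M.count z ≤ S.mult z)
    (hrel : ∀ g : G, (M.map fun z => S.sl (g • z)).sum = 0) :
    M = 0 ∨ (∃ z ∈ M, S.inv z ∈ M.erase z) ∨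
      (M.card = 4 ∧ (∀ z ∈ M, S.inv z ∉ M.erase z) ∧ (S.IsW M ∨ S.IsD M)) := by
  by_cases hp : ∃ z ∈ M, S.inv z ∈ M.erase z
  · exact Or.inr (Or.inl hp)
  · have hnp : ∀ z ∈ M, S.inv z ∉ M.erase z := fun z hz h => hp ⟨z, hz, h⟩
    have h5 := S.card_le_five M hle hnp
    obtain rfl | rfl | rfl : i = 0 ∨ i = 1 ∨ i = 2 := by omega
    · left
      exact Multiset.card_eq_zero.1 hc
    · exfalso
      obtain ⟨z, w, rfl⟩ := Multiset.card_eq_two.1 hc
      have hv := S.vec_rel hrel
      simp only [Multiset.insert_eq_cons, Multiset.map_cons, Multiset.map_singleton,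
        Multiset.sum_cons, Multiset.sum_singleton] at hv
      have h1 : w = S.inv z := S.eq_inv_of_vec (eq_neg_of_add_eq_zero_right hv)
      refine hnp z (by simp) ?_
      rw [Multiset.insert_eq_cons, Multiset.erase_cons_head, h1]
      exact Multiset.mem_singleton_self _
    · exact Or.inr (Or.inr ⟨hc, hnp, S.core M hc hle hnp hrel⟩)

end Pool.Agent.Exo5.SlopeData
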