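import Pool.Agent.Exo5.Setup

/-!
# The complex conjugation in the Galois group of a Frobenius polynomial

PACKAGE Exo5-Conj (statement frozen). Proof: `ι := IsAlgClosed.lift` from `Spl P` to `ℂ` (as a
`ℚ`-algebra map); `Spl P` is normal over `ℚ`, so `AlgHom.restrictNormal'`/`AlgHom.restrictNormal`
of the conjugation of `ℂ` (or `AlgHom.fieldRange_of_normal` and
`AlgEquiv.ofInjectiveField`) gives `c`. For a root `z`: `ι z` is a complex root of `P`, so
`conj (ι z) * ι z = ‖ι z‖ ^ 2 = q` by `hP.weil`, and `ι` is injective.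
-/

set_option autoImplicit false

namespace Pool.Agent.Exo5

open Polynomial

private theorem exists_conj_aux (P : ℤ[X]) (φ : Spl P →ₐ[ℚ] ℂ) :
    ∃ c : Gr P, ∀ x, φ (c x) = (starRingEnd ℂ) (φ x) := by
  let _ : Algebra (Spl P) ℂ := φ.toRingHom.toAlgebra
  have _ : IsScalarTower ℚ (Spl P) ℂ := IsScalarTower.of_algebraMap_eq fun r => by
    change algebraMap ℚ ℂ r = φ (algebraMap ℚ (Spl P) r)
    rw [AlgHom.commutes]
  have h1 : Normal ℚ (Spl P) := by
    have h2 := SplittingField.instNormal (P.map (Int.castRingHom ℚ))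
    have e : (SplittingField.instAlgebra_1 (P.map (Int.castRingHom ℚ))) =
        (DivisionRing.toRatAlgebra : Algebra ℚ (Spl P)) := Subsingleton.elim _ _
    rw [e] at h2
    exact h2
  let χ : ℂ ≃ₐ[ℚ] ℂ := Complex.conjAe.restrictScalars ℚ
  refine ⟨χ.restrictNormal (Spl P), fun x => ?_⟩
  exact AlgEquiv.restrictNormal_commutes χ (Spl P) x

theorem exists_conj {P : ℤ[X]} {p a : ℕ} [Fact p.Prime] (hP : IsFrobPoly P p a) :
    ∃ (c : Gr P) (ι : Spl P →+* ℂ), (∀ x, ι (c x) = (starRingEnd ℂ) (ι x)) ∧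
      ∀ z : Ev P, c z.val * z.val = ((p ^ a : ℕ) : Spl P) := by
  let φ : Spl P →ₐ[ℚ] ℂ := IsAlgClosed.lift
  obtain ⟨c, hc⟩ := exists_conj_aux P φ
  refine ⟨c, φ.toRingHom, hc, fun z => ?_⟩
  have hinj : Function.Injective φ := φ.toRingHom.injective
  apply hinj
  have hz : eval z.val (P.map (Int.castRingHom (Spl P))) = 0 := (mem_roots'.1 z.mem).2
  have hroot : aeval (φ z.val) P = 0 := by
    have h1 : aeval z.val P = 0 := by
      rw [aeval_def, ← eval_map]
      exact hz
    have h2 := congrArg (fun t => φ.toRingHom t) h1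
    simp only [map_zero] at h2
    rw [← h2]
    have h3 := Polynomial.aeval_algHom_apply (φ.restrictScalars ℤ) z.val P
    exact h3
  have h4 := hP.weil (φ z.val) hroot
  rw [map_mul, hc, map_natCast, mul_comm, Complex.mul_conj]
  rw [Complex.normSq_eq_norm_sq, h4]
  push_cast
  rfl

end Pool.Agent.Exo5
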