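import Pool.Agent.Exo5.Basic

/-!
# Relations with repeated eigenvalues
-/

set_option autoImplicit false

namespace Pool.Agent.Exo5.SlopeData

variable {G Z : Type} [Group G] [Fintype G] [Fintype Z] [DecidableEq Z] [MulAction G Z]
  (S : SlopeData G Z)

theorem pm_of_not_ap {z w : Z} (h : ¬ S.Ap z w) : z = w ∨ z = S.inv w := by
  by_contra h1
  rw [not_or] at h1
  exact h ⟨h1.1, h1.2⟩

theorem vec_of_pm {z w : Z} (h : z = w ∨ z = S.inv w) :
    S.vec z = S.vec w ∨ S.vec z = -S.vec w := by
  rcases h with rfl | rfl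
  · exact Or.inl rfl
  · exact Or.inr (S.vec_inv w)

theorem ip_of_pm {z w : Z} (h : z = w ∨ z = S.inv w) :
    ip (S.vec z) (S.vec z) = ip (S.vec w) (S.vec w) := by
  rcases h with rfl | rfl
  · rfl
  · exact S.ip_inv_self w

theorem mult_of_pm {z w : Z} (h : z = w ∨ z = S.inv w) : S.mult z = S.mult w := by
  rcases h with rfl | rfl
  · rfl
  · exact S.mult_inv w

theorem sign_of_pm {z w : Z} (h : z = w ∨ z = S.inv w) :
    ∃ ε : ℝ, (ε = 1 ∧ z = w ∨ ε = -1 ∧ z = S.inv w) ∧ S.vec z = ε • S.vec w := by
  rcases h with h | h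
  · exact ⟨1, Or.inl ⟨rfl, h⟩, by rw [h, one_smul]⟩
  · exact ⟨-1, Or.inr ⟨rfl, h⟩, by rw [h, S.vec_inv, neg_smul, one_smul]⟩

/-- the signs of two relations with the same support are equal -/
theorem sign_three {c d : Z} {v : G → ℝ} (hc : S.inv c ≠ c) (hd : S.inv d ≠ d)
    (hcd : S.Ap c d) (h : (2 : ℝ) • v + S.vec c + S.vec d = 0) {ε γ δ : ℝ}
    (h' : (2 : ℝ) • (ε • v) + γ • S.vec c + δ • S.vec d = 0) (hε : ε = 1 ∨ ε = -1)
    (hγ : γ = 1 ∨ γ = -1) (hδ : δ = 1 ∨ δ = -1) : γ = ε ∧ δ = ε := by
  have h1 : (γ - ε) • S.vec c + (δ - ε) • S.vec d = 0 := by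
    have : (γ - ε) • S.vec c + (δ - ε) • S.vec d =
        ((2 : ℝ) • (ε • v) + γ • S.vec c + δ • S.vec d) -
          ε • ((2 : ℝ) • v + S.vec c + S.vec d) := by module
    rw [this, h', h, smul_zero, sub_zero]
  have hc0 := S.vec_ne_zero hc
  have hd0 := S.vec_ne_zero hd
  by_cases e1 : γ = ε
  · refine ⟨e1, ?_⟩
    rw [e1, sub_self, zero_smul, zero_add] at h1
    rcases smul_eq_zero.1 h1 with h2 | h2
    · linarith
    · exact absurd h2 hd0
  · exfalso
    by_cases e2 : δ = ε
    · rw [e2, sub_self, zero_smul, add_zero] at h1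
      rcases smul_eq_zero.1 h1 with h2 | h2
      · exact e1 (by linarith)
      · exact hc0 h2
    · have e3 : δ = γ := by
        rcases hε with rfl | rfl <;> rcases hγ with rfl | rfl <;> rcases hδ with rfl | rfl <;>
          first | rfl | exact absurd rfl e1 | exact absurd rfl e2
      rw [e3, ← smul_add] at h1
      rcases smul_eq_zero.1 h1 with h2 | h2
      · exact e1 (by linarith)
      · exact hcd.vec_ne_neg (eq_neg_of_add_eq_zero_left h2)

theorem ip_pos {z : Z} (h : S.inv z ≠ z) : 0 < ip (S.vec z) (S.vec z) :=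
  lt_of_le_of_ne (ip_self_nonneg _) fun e => S.vec_ne_zero h (eq_zero_of_ip_self e.symm)

theorem not_prop {a c : Z} (ha : S.inv a ≠ a) (hac : S.Ap a c)
    (hn : ip (S.vec c) (S.vec c) = ip (S.vec a) (S.vec a)) {t : ℝ}
    (h : S.vec c = t • S.vec a) : False := by
  have h1 := S.ip_pos ha
  have h2 : ip (S.vec c) (S.vec c) = t * (t * ip (S.vec a) (S.vec a)) := by
    rw [h, ip_smul_left, ip_smul_right]
  have h3 : (t - 1) * (t + 1) = 0 := by
    have h4 : ((t - 1) * (t + 1)) * ip (S.vec a) (S.vec a) = 0 := by linarith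
    rcases mul_eq_zero.1 h4 with h5 | h5
    · exact h5
    · exact absurd h5 h1.ne'
  rcases mul_eq_zero.1 h3 with h4 | h4
  · have h5 : t = 1 := by linarith
    rw [h5, one_smul] at h
    exact hac.symm.vec_ne h
  · have h5 : t = -1 := by linarith
    rw [h5, neg_smul, one_smul] at h
    exact hac.symm.vec_ne_neg h

theorem total_two {a c : Z} (ha : S.inv a ≠ a) (hc : S.inv c ≠ c) (hac : S.Ap a c) :
    S.mult a + S.mult c ≤ 5 := by
  have h := S.total_pairs {a, c}
    (by
      intro z hz
      simp only [Finset.mem_insert, Finset.mem_singleton] at hz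
      rcases hz with rfl | rfl <;> assumption)
    (by
      intro z hz w hw hzw
      simp only [Finset.mem_insert, Finset.mem_singleton] at hz hw
      rcases hz with rfl | rfl <;> rcases hw with rfl | rfl <;>
        first | exact absurd rfl hzw | assumption | (apply Ap.symm; assumption))
  rwa [Finset.sum_pair hac.1] at h

theorem total_three {a c d : Z} (ha : S.inv a ≠ a) (hc : S.inv c ≠ c) (hd : S.inv d ≠ d)
    (hac : S.Ap a c) (had : S.Ap a d) (hcd : S.Ap c d) :
    S.mult a + S.mult c + S.mult d ≤ 5 := by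
  have h := S.total_pairs {a, c, d}
    (by
      intro z hz
      simp only [Finset.mem_insert, Finset.mem_singleton] at hz
      rcases hz with rfl | rfl | rfl <;> assumption)
    (by
      intro z hz w hw hzw
      simp only [Finset.mem_insert, Finset.mem_singleton] at hz hw
      rcases hz with rfl | rfl | rfl <;> rcases hw with rfl | rfl | rfl <;>
        first | exact absurd rfl hzw | assumption | (apply Ap.symm; assumption))
  rw [Finset.sum_insert (by simp [hac.1, had.1]), Finset.sum_pair hcd.1] at h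
  omega

theorem total_four {a c d e : Z} (ha : S.inv a ≠ a) (hc : S.inv c ≠ c) (hd : S.inv d ≠ d)
    (he : S.inv e ≠ e) (hac : S.Ap a c) (had : S.Ap a d) (hae : S.Ap a e) (hcd : S.Ap c d)
    (hce : S.Ap c e) (hde : S.Ap d e) :
    S.mult a + S.mult c + S.mult d + S.mult e ≤ 5 := by
  have h := S.total_pairs {a, c, d, e}
    (by
      intro z hz
      simp only [Finset.mem_insert, Finset.mem_singleton] at hz
      rcases hz with rfl | rfl | rfl | rfl <;> assumption)
    (by
      intro z hz w hw hzw
      simp only [Finset.mem_insert, Finset.mem_singleton] at hz hw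
      rcases hz with rfl | rfl | rfl | rfl <;> rcases hw with rfl | rfl | rfl | rfl <;>
        first | exact absurd rfl hzw | assumption | (apply Ap.symm; assumption))
  rw [Finset.sum_insert (by simp [hac.1, had.1, hae.1]),
    Finset.sum_insert (by simp [hcd.1, hce.1]), Finset.sum_pair hde.1] at h
  omega

theorem total_real_two {z₀ a c : Z} (h₀ : S.inv z₀ = z₀) (ha : S.inv a ≠ a) (hc : S.inv c ≠ c)
    (hac : S.Ap a c) : 2 * (S.mult a + S.mult c) + S.mult z₀ ≤ 10 := by
  have h := S.total_pairs_real h₀ {a, c}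
    (by
      intro z hz
      simp only [Finset.mem_insert, Finset.mem_singleton] at hz
      rcases hz with rfl | rfl <;> assumption)
    (by
      intro z hz w hw hzw
      simp only [Finset.mem_insert, Finset.mem_singleton] at hz hw
      rcases hz with rfl | rfl <;> rcases hw with rfl | rfl <;>
        first | exact absurd rfl hzw | assumption | (apply Ap.symm; assumption))
  rwa [Finset.sum_pair hac.1] at h

theorem total_real_three {z₀ a c d : Z} (h₀ : S.inv z₀ = z₀) (ha : S.inv a ≠ a)
    (hc : S.inv c ≠ c) (hd : S.inv d ≠ d)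
    (hac : S.Ap a c) (had : S.Ap a d) (hcd : S.Ap c d) :
    2 * (S.mult a + S.mult c + S.mult d) + S.mult z₀ ≤ 10 := by
  have h := S.total_pairs_real h₀ {a, c, d}
    (by
      intro z hz
      simp only [Finset.mem_insert, Finset.mem_singleton] at hz
      rcases hz with rfl | rfl | rfl <;> assumption)
    (by
      intro z hz w hw hzw
      simp only [Finset.mem_insert, Finset.mem_singleton] at hz hw
      rcases hz with rfl | rfl | rfl <;> rcases hw with rfl | rfl | rfl <;>
        first | exact absurd rfl hzw | assumption | (apply Ap.symm; assumption))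
  rw [Finset.sum_insert (by simp [hac.1, had.1]), Finset.sum_pair hcd.1] at h
  omega

/-- if all `g` map `z` to `z` or `inv z` and the slope at the identity is zero then `z` is real -/
theorem real_of_stable {z : Z} (h : ∀ g : G, g • z = z ∨ g • z = S.inv z) (h0 : S.sl z = 0) :
    S.inv z = z := by
  refine S.real_of_vec ?_
  funext g
  change S.sl (g • z) = 0
  rcases h g with e | e <;> rw [e]
  · exact h0
  · rw [S.sl_inv, h0, neg_zero]

/-- the relation at another place -/
theorem rel_smul_three {a c d : Z} {t : ℝ} (hrel : t • S.vec a + S.vec c + S.vec d = 0) (g : G) :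
    t • S.vec (g • a) + S.vec (g • c) + S.vec (g • d) = 0 := by
  funext h
  have := congrFun hrel (h * g)
  simpa only [Pi.add_apply, Pi.smul_apply, vec_smul, Pi.zero_apply] using this

theorem rel_smul_two {a d : Z} {t : ℝ} (hrel : t • S.vec a + S.vec d = 0) (g : G) :
    t • S.vec (g • a) + S.vec (g • d) = 0 := by
  funext h
  have := congrFun hrel (h * g)
  simpa only [Pi.add_apply, Pi.smul_apply, vec_smul, Pi.zero_apply] using this

/-- `{a, a, c, d}`: the element `a` is not moved to the pair of `c` -/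
theorem t_three_aux {a c d : Z} (ha : S.inv a ≠ a) (hc : S.inv c ≠ c) (hd : S.inv d ≠ d)
    (hac : S.Ap a c) (had : S.Ap a d) (hcd : S.Ap c d) (hm : 2 ≤ S.mult a)
    (hrel : (2 : ℝ) • S.vec a + S.vec c + S.vec d = 0) (g : G)
    (hg : g • a = c ∨ g • a = S.inv c) : False := by
  have h1 : S.mult c = S.mult a := by rw [← S.mult_of_pm hg, S.mult_smul]
  have h2 := S.total_three ha hc hd hac had hcd
  have h3 := S.mult_pos d
  have hn : ip (S.vec c) (S.vec c) = ip (S.vec a) (S.vec a) := by
    rw [← S.ip_of_pm hg, S.ip_smul_self]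
  have hgc : g • c = a ∨ g • c = S.inv a := by
    refine S.pm_of_not_ap fun hx => ?_
    have hy : S.Ap (g • c) c := by
      have := hac.symm.smul g
      rcases hg with e | e <;> rw [e] at this
      · exact this
      · have := this.inv_right
        rwa [S.inv_inv] at this
    by_cases hz : S.Ap (g • c) d
    · have h4 := S.total_four (S.nonreal_smul g hc) ha hc hd hx hy hz hac had hcd
      rw [S.mult_smul] at h4
      omega
    · have h4 := S.mult_of_pm (S.pm_of_not_ap hz)
      rw [S.mult_smul] at h4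
      omega
  have hgd : g • d = d ∨ g • d = S.inv d := by
    refine S.pm_of_not_ap fun hx => ?_
    have hy : S.Ap (g • d) c := by
      have := had.symm.smul g
      rcases hg with e | e <;> rw [e] at this
      · exact this
      · have := this.inv_right
        rwa [S.inv_inv] at this
    have hz : S.Ap (g • d) a := by
      have := hcd.symm.smul g
      rcases hgc with e | e <;> rw [e] at this
      · exact this
      · have := this.inv_right
        rwa [S.inv_inv] at this
    have h4 := S.total_four (S.nonreal_smul g hd) ha hc hd hz hy hx hac had hcd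
    rw [S.mult_smul] at h4
    omega
  have hr := S.rel_smul_three hrel g
  have hd' : S.vec d = -((2 : ℝ) • S.vec a) - S.vec c := by
    rw [← sub_eq_zero, ← hrel]
    module
  rcases S.vec_of_pm hg with e1 | e1 <;> rcases S.vec_of_pm hgc with e2 | e2 <;>
    rcases S.vec_of_pm hgd with e3 | e3 <;> rw [e1, e2, e3, hd'] at hr
  -- 2 ε c + δ a + γ (-2 a - c) = 0
  · exact S.not_prop ha hac hn (t := 1) (by
      rw [← sub_eq_zero, ← hr]; module)
  · exact S.not_prop ha hac hn (t := -1) (by
      rw [← sub_eq_zero]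
      have : S.vec c - (-1 : ℝ) • S.vec a = (1 / 3 : ℝ) • ((2 : ℝ) • S.vec c + S.vec a +
        -(-((2 : ℝ) • S.vec a) - S.vec c)) := by module
      rw [this, hr, smul_zero])
  · exact S.not_prop ha hac hn (t := 3) (by
      rw [← sub_eq_zero, ← hr]; module)
  · exact S.not_prop ha hac hn (t := -(1 / 3)) (by
      rw [← sub_eq_zero]
      have : S.vec c - (-(1 / 3) : ℝ) • S.vec a = (1 / 3 : ℝ) • ((2 : ℝ) • S.vec c + -S.vec a +
        -(-((2 : ℝ) • S.vec a) - S.vec c)) := by module
      rw [this, hr, smul_zero])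
  · exact S.not_prop ha hac hn (t := -(1 / 3)) (by
      rw [← sub_eq_zero]
      have : S.vec c - (-(1 / 3) : ℝ) • S.vec a = (-(1 / 3) : ℝ) • ((2 : ℝ) • (-S.vec c) +
        S.vec a + (-((2 : ℝ) • S.vec a) - S.vec c)) := by module
      rw [this, hr, smul_zero])
  · exact S.not_prop ha hac hn (t := 3) (by
      rw [← sub_eq_zero]
      have : S.vec c - (3 : ℝ) • S.vec a = (-1 : ℝ) • ((2 : ℝ) • (-S.vec c) + S.vec a +
        -(-((2 : ℝ) • S.vec a) - S.vec c)) := by module
      rw [this, hr, smul_zero])
  · exact S.not_prop ha hac hn (t := -1) (by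
      rw [← sub_eq_zero]
      have : S.vec c - (-1 : ℝ) • S.vec a = (-(1 / 3) : ℝ) • ((2 : ℝ) • (-S.vec c) + -S.vec a +
        (-((2 : ℝ) • S.vec a) - S.vec c)) := by module
      rw [this, hr, smul_zero])
  · exact S.not_prop ha hac hn (t := 1) (by
      rw [← sub_eq_zero]
      have : S.vec c - (1 : ℝ) • S.vec a = (-1 : ℝ) • ((2 : ℝ) • (-S.vec c) + -S.vec a +
        -(-((2 : ℝ) • S.vec a) - S.vec c)) := by module
      rw [this, hr, smul_zero])

theorem t_three {a c d : Z} (ha : S.inv a ≠ a) (hc : S.inv c ≠ c) (hd : S.inv d ≠ d)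
    (hac : S.Ap a c) (had : S.Ap a d) (hcd : S.Ap c d) (hm : 2 ≤ S.mult a)
    (hrel : (2 : ℝ) • S.vec a + S.vec c + S.vec d = 0) (g : G) :
    ({a, a, c, d} : Multiset Z).map (g • ·) = {a, a, c, d} ∨
      ({a, a, c, d} : Multiset Z).map (g • ·) = ({a, a, c, d} : Multiset Z).map S.inv := by
  have h2 := S.total_three ha hc hd hac had hcd
  have hmc := S.mult_pos c
  have hmd := S.mult_pos d
  have hrel' : (2 : ℝ) • S.vec a + S.vec d + S.vec c = 0 := by rw [← hrel]; module
  have hst : ∀ g : G, g • a = a ∨ g • a = S.inv a := by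
    intro g
    refine S.pm_of_not_ap fun hx => ?_
    by_cases hy : S.Ap (g • a) c
    · by_cases hz : S.Ap (g • a) d
      · have h4 := S.total_four (S.nonreal_smul g ha) ha hc hd hx hy hz hac had hcd
        rw [S.mult_smul] at h4
        omega
      · exact S.t_three_aux ha hd hc had hac hcd.symm hm hrel' g (S.pm_of_not_ap hz)
    · exact S.t_three_aux ha hc hd hac had hcd hm hrel g (S.pm_of_not_ap hy)
  by_cases hm2 : S.mult a = 2
  · exfalso
    have hD : ∀ d' ∈ S.D, d' • a = a := by
      intro d' hd'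
      rcases hst d' with e | e
      · exact e
      · exfalso
        have h3 := S.sl_D d' hd' a
        rw [e, S.sl_inv] at h3
        exact ha (S.real_of_stable hst (by linarith))
    have h3 : S.sl a = 1 / 2 ∨ S.sl a = -(1 / 2) := by
      rcases S.fixed_two hD hm2 with e | e | e
      · exact Or.inl e
      · exact absurd (S.real_of_stable hst e) ha
      · exact Or.inr e
    refine hac.symm.2 (S.ext _ _ fun g => ?_)
    rw [S.smul_inv, S.sl_inv]
    have h4 : S.sl (g • a) = 1 / 2 ∨ S.sl (g • a) = -(1 / 2) := by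
      rcases hst g with e | e <;> rw [e]
      · exact h3
      · rw [S.sl_inv]
        rcases h3 with e | e <;> rw [e]
        · right; rfl
        · left; norm_num
    have h5 := congrFun hrel g
    simp only [Pi.add_apply, Pi.smul_apply, Pi.zero_apply, smul_eq_mul, vec] at h5
    have h6 := abs_le.1 (S.sl_le (g • c))
    have h7 := abs_le.1 (S.sl_le (g • d))
    rcases h4 with e | e <;> rw [e] at h5 ⊢ <;> linarith [h6.1, h6.2, h7.1, h7.2]
  have hpc : ∀ z : Z, S.inv z ≠ z → S.Ap z a → ¬ S.Ap z c ∨ ¬ S.Ap z d := by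
    intro z hz hza
    by_contra hx
    rw [not_or, not_not, not_not] at hx
    have h4 := S.total_four hz ha hc hd hza hx.1 hx.2 hac had hcd
    have := S.mult_pos z
    omega
  have hapa : ∀ z : Z, S.Ap z a → S.Ap (g • z) a := by
    intro z hz
    have := hz.smul g
    rcases hst g with e | e <;> rw [e] at this
    · exact this
    · have := this.inv_right
      rwa [S.inv_inv] at this
  have hr := S.rel_smul_three hrel g
  have key : (g • c = c ∨ g • c = S.inv c) ∧ (g • d = d ∨ g • d = S.inv d) ∨
      (g • c = d ∨ g • c = S.inv d) ∧ (g • d = c ∨ g • d = S.inv c) := by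
    rcases hpc _ (S.nonreal_smul g hc) (hapa c hac.symm) with h4 | h4
    · left
      refine ⟨S.pm_of_not_ap h4, ?_⟩
      rcases hpc _ (S.nonreal_smul g hd) (hapa d had.symm) with h5 | h5
      · exfalso
        have h6 := hcd.smul g
        rcases S.pm_of_not_ap h4 with e | e <;> rcases S.pm_of_not_ap h5 with e' | e' <;>
          rw [e, e'] at h6
        · exact h6.1 rfl
        · exact h6.2 (S.inv_inv c).symm
        · exact h6.2 rfl
        · exact h6.1 rfl
      · exact S.pm_of_not_ap h5
    · right
      refine ⟨S.pm_of_not_ap h4, ?_⟩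
      rcases hpc _ (S.nonreal_smul g hd) (hapa d had.symm) with h5 | h5
      · exact S.pm_of_not_ap h5
      · exfalso
        have h6 := hcd.smul g
        rcases S.pm_of_not_ap h4 with e | e <;> rcases S.pm_of_not_ap h5 with e' | e' <;>
          rw [e, e'] at h6
        · exact h6.1 rfl
        · exact h6.2 (S.inv_inv d).symm
        · exact h6.2 rfl
        · exact h6.1 rfl
  simp only [Multiset.insert_eq_cons, Multiset.map_cons, Multiset.map_singleton]
  obtain ⟨ε, hε, e1⟩ := S.sign_of_pm (hst g)
  rcases key with ⟨hgc, hgd⟩ | ⟨hgc, hgd⟩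
  · obtain ⟨γ, hγ, e2⟩ := S.sign_of_pm hgc
    obtain ⟨δ, hδ, e3⟩ := S.sign_of_pm hgd
    rw [e1, e2, e3] at hr
    obtain ⟨h3, h4⟩ := S.sign_three hc hd hcd hrel hr (hε.imp And.left And.left)
      (hγ.imp And.left And.left) (hδ.imp And.left And.left)
    rcases hε with ⟨e, e1⟩ | ⟨e, e1⟩ <;> rcases hγ with ⟨e', e2⟩ | ⟨e', e2⟩ <;>
      rcases hδ with ⟨e'', e3⟩ | ⟨e'', e3⟩
    · left; rw [e1, e2, e3]
    · exfalso; linarith
    · exfalso; linarith
    · exfalso; linarith
    · exfalso; linarith
    · exfalso; linarith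
    · exfalso; linarith
    · right; rw [e1, e2, e3]
  · obtain ⟨γ, hγ, e2⟩ := S.sign_of_pm hgc
    obtain ⟨δ, hδ, e3⟩ := S.sign_of_pm hgd
    rw [e1, e2, e3] at hr
    obtain ⟨h3, h4⟩ := S.sign_three hd hc hcd.symm hrel' hr (hε.imp And.left And.left)
      (hγ.imp And.left And.left) (hδ.imp And.left And.left)
    rcases hε with ⟨e, e1⟩ | ⟨e, e1⟩ <;> rcases hγ with ⟨e', e2⟩ | ⟨e', e2⟩ <;>
      rcases hδ with ⟨e'', e3⟩ | ⟨e'', e3⟩
    · left
      rw [e1, e2, e3, ← Multiset.insert_eq_cons d, Multiset.pair_comm]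
      rfl
    · exfalso; linarith
    · exfalso; linarith
    · exfalso; linarith
    · exfalso; linarith
    · exfalso; linarith
    · exfalso; linarith
    · right
      rw [e1, e2, e3, ← Multiset.insert_eq_cons (S.inv d), Multiset.pair_comm]
      rfl

/-- `{a, a, a, d}` -/
theorem t_four {a d : Z} (ha : S.inv a ≠ a) (hd : S.inv d ≠ d) (had : S.Ap a d)
    (hm : 3 ≤ S.mult a) (hrel : (3 : ℝ) • S.vec a + S.vec d = 0) (g : G) :
    ({a, a, a, d} : Multiset Z).map (g • ·) = {a, a, a, d} ∨
      ({a, a, a, d} : Multiset Z).map (g • ·) = ({a, a, a, d} : Multiset Z).map S.inv := by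
  have hd' : S.vec d = (-3 : ℝ) • S.vec a := by
    rw [← sub_eq_zero, ← hrel]
    module
  have hst : g • a = a ∨ g • a = S.inv a := by
    refine S.pm_of_not_ap fun hx => ?_
    by_cases hy : S.Ap (g • a) d
    · have h4 := S.total_three (S.nonreal_smul g ha) ha hd hx hy had
      rw [S.mult_smul] at h4
      omega
    · have h4 := S.ip_of_pm (S.pm_of_not_ap hy)
      rw [S.ip_smul_self, hd', ip_smul_left, ip_smul_right] at h4
      have := S.ip_pos ha
      linarith
  have hr := S.rel_smul_two hrel g
  simp only [Multiset.insert_eq_cons, Multiset.map_cons, Multiset.map_singleton]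
  rcases hst with e | e
  · left
    have h1 : g • d = d := by
      refine S.eq_of_vec ?_
      rw [e] at hr
      rw [hd', ← sub_eq_zero, ← hr]
      module
    rw [e, h1]
  · right
    have h1 : g • d = S.inv d := by
      refine S.eq_inv_of_vec ?_
      rw [e, S.vec_inv] at hr
      rw [hd', ← sub_eq_zero, ← hr]
      module
    rw [e, h1]

/-- `{z₀, a, a, c}` -/
theorem t_five {z₀ a c : Z} (h₀ : S.inv z₀ = z₀) (ha : S.inv a ≠ a) (hc : S.inv c ≠ c)
    (hac : S.Ap a c) (hm : 2 ≤ S.mult a) (hrel : (2 : ℝ) • S.vec a + S.vec c = 0) :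
    S.IsW {z₀, a, a, c} := by
  have hc' : S.vec c = (-2 : ℝ) • S.vec a := by
    rw [← sub_eq_zero, ← hrel]
    module
  have hm0 := S.two_le_real h₀
  have htot := S.total_real_two h₀ ha hc hac
  have hmc := S.mult_pos c
  have hst : ∀ g : G, g • a = a ∨ g • a = S.inv a := by
    intro g
    refine S.pm_of_not_ap fun hx => ?_
    by_cases hy : S.Ap (g • a) c
    · have h4 := S.total_real_three h₀ (S.nonreal_smul g ha) ha hc hx hy hac
      rw [S.mult_smul] at h4
      omega
    · have h4 := S.ip_of_pm (S.pm_of_not_ap hy)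
      rw [S.ip_smul_self, hc', ip_smul_left, ip_smul_right] at h4
      have := S.ip_pos ha
      linarith
  have hst' : ∀ g : G, (g • a = a ∧ g • c = c) ∨ (g • a = S.inv a ∧ g • c = S.inv c) := by
    intro g
    have hr := S.rel_smul_two hrel g
    rcases hst g with e | e
    · left
      refine ⟨e, S.eq_of_vec ?_⟩
      rw [e] at hr
      rw [hc', ← sub_eq_zero, ← hr]
      module
    · right
      refine ⟨e, S.eq_inv_of_vec ?_⟩
      rw [e, S.vec_inv] at hr
      rw [hc', ← sub_eq_zero, ← hr]
      module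
  constructor
  · intro g
    simp only [Multiset.insert_eq_cons, Multiset.map_cons, Multiset.map_singleton]
    rw [S.smul_real g h₀, h₀]
    rcases hst' g with ⟨e, e'⟩ | ⟨e, e'⟩
    · left; rw [e, e']
    · right; rw [e, e']
  · intro _
    by_contra hcon
    have hD : ∀ d ∈ S.D, d • a = a ∧ d • c = c := by
      intro d hd
      rcases hst' d with e | ⟨e, e'⟩
      · exact e
      · exfalso
        refine hcon ⟨d, hd, ?_⟩
        simp only [Multiset.insert_eq_cons, Multiset.map_cons, Multiset.map_singleton]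
        rw [S.smul_real d h₀, h₀, e, e']
    have hc0 : S.sl c = -2 * S.sl a := by
      have := congrFun hc' 1
      simpa only [vec, one_smul, Pi.smul_apply, smul_eq_mul] using this
    have ha0 : S.sl a ≠ 0 := fun h => ha (S.real_of_stable hst h)
    have hslc := abs_le.1 (S.sl_le c)
    obtain h1 | h1 : S.mult a = 2 ∨ S.mult a = 3 := by omega
    · rcases S.fixed_two (fun d hd => (hD d hd).1) h1 with e | e | e
      · rw [e] at hc0
        linarith [hslc.1]
      · exact ha0 e
      · rw [e] at hc0
        linarith [hslc.2]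
    · have h2 : S.mult c = 1 := by omega
      obtain ⟨k, hk⟩ := S.fixed_int (fun d hd => (hD d hd).1)
      rw [h1] at hk
      push_cast at hk
      rcases S.fixed_one (fun d hd => (hD d hd).2) h2 with e | e
      · rw [e] at hc0
        have h3 : ((4 * k : ℤ) : ℝ) = ((3 : ℤ) : ℝ) := by push_cast; linarith
        have h4 : 4 * k = 3 := by exact_mod_cast h3
        omega
      · rw [e] at hc0
        have h3 : ((4 * k : ℤ) : ℝ) = ((9 : ℤ) : ℝ) := by push_cast; linarith
        have h4 : 4 * k = 9 := by exact_mod_cast h3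
        omega

end Pool.Agent.Exo5.SlopeData
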