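import Pool.Agent.Exo5.Rel

/-!
# Relations between three different nonreal eigenvalues

PACKAGE Exo5-TTwo (statement frozen). Write `x_z = S.vec z`, `±z` for `z` or `S.inv z`; a pair is
`{z, S.inv z}`. By `S.total_pairs_real` and `S.two_le_real` the sum of the multiplicities of the
pairs of nonreal elements is at most four.
(A) If every `g` maps `{a, b, u}` to `±{a, b, u}`: for given `g` the relation
`x_{ga} + x_{gb} + x_{gu} = 0` is `s_a x_a + s_b x_b + s_u x_u = 0`, signs; with `hrel` all signs are
equal (else one of the vectors is zero: nonreal), so `gM = M` or `gM = inv M`,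
`M = {z₀, a, b, u}`. We claim that some `d ∈ S.D` has `dM = inv M`. Otherwise `dM = M` for all
`d ∈ D`, `{a, b, u}` is stable under `D`. If all three multiplicities are 1: `{a, b, u}` is a
disjoint union of `D`-orbits and by `S.int` and `S.sl_D` the number
`Σ_{z ∈ {a, b, u}} (sl z + 1/2)` is an integer, but it is `3/2` by `hrel` at `g = 1`.
Otherwise exactly one of them, say `a`, has multiplicity 2 and `b, u` have multiplicity 1 (sum at
most four): then every `g` with `gM = M` fixes `a` (`S.mult_smul`) and `{b, u}` is stable under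
`D`, so `(sl b + 1/2) + (sl u + 1/2)` is an integer and `2 (sl a + 1/2)` is an integer
(`S.fixed_two`), so by `sl a + sl b + sl u = 0`: `sl a ∈ {0, ±1/2}` and `sl a + 1/2 = 3/2 - integer`,
so `sl a = 0`; and `ga = ±a` for all `g` gives `x_a = 0`, contradiction.
(B) Otherwise there is a fourth pair, so exactly four nonreal pairs, all of multiplicity 1,
`mult z₀ = 2`, and (if `e` is an element of the fourth pair) `g e ≠ ±e` for some `g`; after changing
`g` by `S.c` and permuting `a, b, u` we have `g e = u`. With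
`s z = count z M - count (inv z) M` (relation function, `isRel_of_multiset`), `s (g⁻¹ • ·)` is a
relation function (`IsRel.smul`) which is zero on `u`, `±1` on `a, b, e`
(`IsRel.sum_finset`): `s' a x_a + s' b x_b + s' e x_e = 0`. `s' a = s' b` gives `x_u = ± x_e`,
contradiction; so `x_e = ± (x_b - x_a)`; let `v = ± e` with `x_v = x_b - x_a`. `|u| = |v|`
(`ip_smul_self`), so `|a + b|² = |b - a|²`: `a ⊥ b`, and `|u|² = |v|² = |a|² + |b|²` is larger than
`|a|²`, `|b|²`: every `h` maps `{±a, ±b}` to itself and `{±u, ±v}` to itself.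
(B1) if `h a = ± a` for all `h` then `h b = ± b`, and `(h u, h v)` is `± (u, v)` or `± (v, u)`
(from `u = -(a + b)`, `v = b - a`): `S.not_compatible`, contradiction.
(B2) so some `h` has `h a = ± b`, changing by `S.c`: `h a = b`, `h b = ± a`. Slopes at the identity
(`sl u = -(sl a + sl b)`, `sl v = sl b - sl a`; `D` preserves `sl`, `S.int` for the orbits, all
multiplicities 1): if some `d ∈ D` maps `a` to `± b`, then `|sl a| = |sl b| = s`; if `s = 0` then
`x_a = 0` (all `g a ∈ {±a, ±b}`), contradiction; if `s ≠ 0` one of `sl u, sl v` is 0, the other one,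
say of `w`, is `± 2 s`, the `D`-orbit of `w` has one element, so `2 s = 1/2`, `s = 1/4`, and the
`D`-orbit of `a` has exactly two elements (`a` and one of `±b`): `2 (1/2 ± 1/4)` is not an integer.
So `D` preserves the pair of `a` and the pair of `b`; if `d a = inv a` for some `d` then
`sl a = 0`, else `a` is fixed by `D` and `sl a = ±1/2`; the same for `b`. Both zero: impossible as
above; both ±1/2: `sl u` or `sl v` is `±1`, contradiction to `S.sl_le`. So `h.slab`, and
`|sl u| = |sl v| = 1/2`. `fix`: if `sl b = 0` then `b` is not fixed by `D`, so some `d ∈ D` has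
`d b = inv b`, and `d a = a` as `sl a ≠ 0`; if `sl a = 0`: some `d` has `d a = inv a`, `d b = b`,
conjugate by `h`. `conj_uv`: from `g e = u`, `v = ± e`, `S.c`. So `S.DFour z₀ a b u v`.
-/

set_option autoImplicit false

namespace Pool.Agent.Exo5.SlopeData

variable {G Z : Type} [Group G] [Fintype G] [Fintype Z] [DecidableEq Z] [MulAction G Z]
  (S : SlopeData G Z)

private theorem two_stable_int (T : Finset Z) (h : ∀ d ∈ S.D, ∀ z ∈ T, d • z ∈ T) :
    ∃ k : ℤ, ∑ z ∈ T, (S.mult z : ℝ) * (S.sl z + 1 / 2) = k := by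
  classical
  induction T using Finset.strongInduction with
  | H T ih =>
    rcases T.eq_empty_or_nonempty with rfl | ⟨z, hz⟩
    · exact ⟨0, by simp⟩
    · obtain ⟨O, hO⟩ : ∃ O : Finset Z, ∀ w, w ∈ O ↔ w ∈ MulAction.orbit S.D z :=
        ⟨(MulAction.orbit S.D z).toFinset, fun w => Set.mem_toFinset⟩
      have hOT : O ⊆ T := by
        intro w hw
        rw [hO] at hw
        obtain ⟨d, rfl⟩ := hw
        exact h d.1 d.2 z hz
      have hzO : z ∈ O := (hO z).2 (MulAction.mem_orbit_self z)
      obtain ⟨k, hk⟩ := S.int z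
      have hcard : (MulAction.orbit S.D z).ncard = O.card := by
        rw [← Set.ncard_coe_finset O]
        congr 1
        ext w
        rw [Finset.mem_coe, hO]
      have hsumO : ∑ w ∈ O, (S.mult w : ℝ) * (S.sl w + 1 / 2) = k := by
        have e : ∀ w ∈ O, (S.mult w : ℝ) * (S.sl w + 1 / 2) =
            (S.mult z : ℝ) * (S.sl z + 1 / 2) := by
          intro w hw
          rw [hO] at hw
          obtain ⟨d, rfl⟩ := hw
          have e1 : S.mult (d • z) = S.mult z := S.mult_smul d.1 z
          have e2 : S.sl (d • z) = S.sl z := S.sl_D d.1 d.2 z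
          change (S.mult (d • z) : ℝ) * (S.sl (d • z) + 1 / 2) = _
          rw [e1, e2]
        rw [← hk, Finset.sum_congr rfl e, Finset.sum_const, nsmul_eq_mul, hcard]
        ring
      obtain ⟨l, hl⟩ := ih (T \ O) (Finset.sdiff_ssubset hOT ⟨z, hzO⟩) (by
        intro d hd w hw
        rw [Finset.mem_sdiff] at hw ⊢
        refine ⟨h d hd w hw.1, fun hcon => hw.2 ?_⟩
        rw [hO] at hcon ⊢
        obtain ⟨d', hd'⟩ := hcon
        refine ⟨(⟨d, hd⟩ : S.D)⁻¹ * d', ?_⟩
        have h3 : d'.1 • z = d • w := hd'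
        change (d⁻¹ * d'.1) • z = w
        rw [mul_smul, h3, inv_smul_smul])
      exact ⟨l + k, by rw [← Finset.sum_sdiff hOT, hl, hsumO]; push_cast; ring⟩

private theorem two_eq_of_not_ap {z w : Z} (h : ¬S.Ap z w) : z = w ∨ z = S.inv w := by
  unfold Ap at h
  by_contra hcon
  rw [not_or] at hcon
  exact h hcon

private theorem two_three {z₀ a b u : Z} (h₀ : S.inv z₀ = z₀) (ha : S.inv a ≠ a)
    (hb : S.inv b ≠ b) (hu : S.inv u ≠ u) (hab : S.Ap a b) (hau : S.Ap a u) (hbu : S.Ap b u) :
    2 * (S.mult a + S.mult b + S.mult u) + S.mult z₀ ≤ 10 := by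
  have h := S.total_pairs_real h₀ {a, b, u} (by
    simp only [Finset.mem_insert, Finset.mem_singleton]
    rintro z (rfl | rfl | rfl) <;> assumption) (by
    simp only [Finset.mem_insert, Finset.mem_singleton]
    rintro z (rfl | rfl | rfl) w (rfl | rfl | rfl) hne <;>
    first
    | exact absurd rfl hne
    | assumption
    | (apply Ap.symm; assumption))
  rw [Finset.sum_insert, Finset.sum_insert, Finset.sum_singleton] at h
  · omega
  · rw [Finset.mem_singleton]
    exact hbu.1
  · rw [Finset.mem_insert, Finset.mem_singleton, not_or]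
    exact ⟨hab.1, hau.1⟩

private theorem two_four {z₀ a b u e : Z} (h₀ : S.inv z₀ = z₀) (ha : S.inv a ≠ a)
    (hb : S.inv b ≠ b) (hu : S.inv u ≠ u) (he : S.inv e ≠ e) (hab : S.Ap a b) (hau : S.Ap a u)
    (hbu : S.Ap b u) (hae : S.Ap a e) (hbe : S.Ap b e) (hue : S.Ap u e) :
    2 * (S.mult a + S.mult b + S.mult u + S.mult e) + S.mult z₀ ≤ 10 := by
  have h := S.total_pairs_real h₀ {a, b, u, e} (by
    simp only [Finset.mem_insert, Finset.mem_singleton]
    rintro z (rfl | rfl | rfl | rfl) <;> assumption) (by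
    simp only [Finset.mem_insert, Finset.mem_singleton]
    rintro z (rfl | rfl | rfl | rfl) w (rfl | rfl | rfl | rfl) hne <;>
    first
    | exact absurd rfl hne
    | assumption
    | (apply Ap.symm; assumption))
  rw [Finset.sum_insert, Finset.sum_insert, Finset.sum_insert, Finset.sum_singleton] at h
  · omega
  · rw [Finset.mem_singleton]
    exact hue.1
  · rw [Finset.mem_insert, Finset.mem_singleton, not_or]
    exact ⟨hbu.1, hbe.1⟩
  · rw [Finset.mem_insert, Finset.mem_insert, Finset.mem_singleton, not_or, not_or]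
    exact ⟨hab.1, hau.1, hae.1⟩

private theorem two_five {z₀ a b u e f : Z} (h₀ : S.inv z₀ = z₀) (ha : S.inv a ≠ a)
    (hb : S.inv b ≠ b) (hu : S.inv u ≠ u) (he : S.inv e ≠ e) (hf : S.inv f ≠ f)
    (hab : S.Ap a b) (hau : S.Ap a u)
    (hbu : S.Ap b u) (hae : S.Ap a e) (hbe : S.Ap b e) (hue : S.Ap u e) (haf : S.Ap a f)
    (hbf : S.Ap b f) (huf : S.Ap u f) (hef : S.Ap e f) : False := by
  have h := S.total_pairs_real h₀ {a, b, u, e, f} (by
    simp only [Finset.mem_insert, Finset.mem_singleton]
    rintro z (rfl | rfl | rfl | rfl | rfl) <;> assumption) (by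
    simp only [Finset.mem_insert, Finset.mem_singleton]
    rintro z (rfl | rfl | rfl | rfl | rfl) w (rfl | rfl | rfl | rfl | rfl) hne <;>
    first
    | exact absurd rfl hne
    | assumption
    | (apply Ap.symm; assumption))
  have h1 := S.two_le_real h₀
  have := S.mult_pos a
  have := S.mult_pos b
  have := S.mult_pos u
  have := S.mult_pos e
  have := S.mult_pos f
  rw [Finset.sum_insert, Finset.sum_insert, Finset.sum_insert, Finset.sum_insert,
    Finset.sum_singleton] at h
  · omega
  · rw [Finset.mem_singleton]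
    exact hef.1
  · rw [Finset.mem_insert, Finset.mem_singleton, not_or]
    exact ⟨hue.1, huf.1⟩
  · rw [Finset.mem_insert, Finset.mem_insert, Finset.mem_singleton, not_or, not_or]
    exact ⟨hbu.1, hbe.1, hbf.1⟩
  · rw [Finset.mem_insert, Finset.mem_insert, Finset.mem_insert, Finset.mem_singleton, not_or,
      not_or, not_or]
    exact ⟨hab.1, hau.1, hae.1, haf.1⟩

/-- the pair of `z` is one of the pairs of `a`, `b`, `u` -/
private def Q (a b u z : Z) : Prop :=
  z = a ∨ z = S.inv a ∨ z = b ∨ z = S.inv b ∨ z = u ∨ z = S.inv u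

private theorem two_q_inv {a b u z : Z} (h : S.Q a b u z) : S.Q a b u (S.inv z) := by
  rcases h with rfl | rfl | rfl | rfl | rfl | rfl <;> simp only [Q, S.inv_inv, true_or, or_true]

private theorem two_q_perm {a b u z : Z} (h : S.Q a b u z) : S.Q b a u z := by
  rcases h with h | h | h | h | h | h <;> simp only [Q, h, true_or, or_true]

private theorem two_q_rot {a b u z : Z} (h : S.Q a b u z) : S.Q b u a z := by
  rcases h with h | h | h | h | h | h <;> simp only [Q, h, true_or, or_true]

private theorem two_ap_of_not_q {a b u z : Z} (h : ¬S.Q a b u z) :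
    S.Ap z a ∧ S.Ap z b ∧ S.Ap z u := by
  unfold Q at h
  simp only [not_or] at h
  obtain ⟨h1, h2, h3, h4, h5, h6⟩ := h
  exact ⟨⟨h1, h2⟩, ⟨h3, h4⟩, ⟨h5, h6⟩⟩

private theorem two_tri {a b u y w : Z} (hb : S.inv b ≠ b) (hu : S.inv u ≠ u)
    (ha : S.inv a ≠ a)
    (hrel : S.vec a + S.vec b + S.vec u = 0) (hy : S.Q a b u y) (hw : S.Q a b u w)
    (hay : S.Ap a y) (haw : S.Ap a w) (hyw : S.Ap y w)
    (h : S.vec a + S.vec y + S.vec w = 0) : (y = b ∧ w = u) ∨ (y = u ∧ w = b) := by
  have nb := S.vec_ne_zero hb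
  have nu := S.vec_ne_zero hu
  have na := S.vec_ne_zero ha
  have two : ∀ x : G → ℝ, x + x = 0 → x = 0 := fun x hx =>
    self_eq_neg.1 (eq_neg_of_add_eq_zero_left hx)
  rcases hy with rfl | rfl | rfl | rfl | rfl | rfl
  · exact absurd rfl hay.1
  · exact absurd (S.inv_inv _).symm hay.2
  · rcases hw with rfl | rfl | rfl | rfl | rfl | rfl
    · exact absurd rfl haw.1
    · exact absurd (S.inv_inv _).symm haw.2
    · exact absurd rfl hyw.1
    · exact absurd (S.inv_inv _).symm hyw.2
    · exact Or.inl ⟨rfl, rfl⟩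
    · rw [S.vec_inv] at h
      exfalso
      apply nu
      apply two
      have := sub_eq_zero.2 (hrel.trans h.symm)
      rw [← this]
      abel
  · rcases hw with rfl | rfl | rfl | rfl | rfl | rfl
    · exact absurd rfl haw.1
    · exact absurd (S.inv_inv _).symm haw.2
    · exact absurd rfl hyw.2
    · exact absurd rfl hyw.1
    · rw [S.vec_inv] at h
      exfalso
      apply nb
      apply two
      have := sub_eq_zero.2 (hrel.trans h.symm)
      rw [← this]
      abel
    · rw [S.vec_inv, S.vec_inv] at h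
      exfalso
      apply na
      apply two
      have : (S.vec a + S.vec b + S.vec u) + (S.vec a + -S.vec b + -S.vec u) = 0 := by
        rw [hrel, h, add_zero]
      rw [← this]
      abel
  · rcases hw with rfl | rfl | rfl | rfl | rfl | rfl
    · exact absurd rfl haw.1
    · exact absurd (S.inv_inv _).symm haw.2
    · exact Or.inr ⟨rfl, rfl⟩
    · rw [S.vec_inv] at h
      exfalso
      apply nb
      apply two
      have := sub_eq_zero.2 (hrel.trans h.symm)
      rw [← this]
      abel
    · exact absurd rfl hyw.1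
    · exact absurd (S.inv_inv _).symm hyw.2
  · rcases hw with rfl | rfl | rfl | rfl | rfl | rfl
    · exact absurd rfl haw.1
    · exact absurd (S.inv_inv _).symm haw.2
    · rw [S.vec_inv] at h
      exfalso
      apply nu
      apply two
      have := sub_eq_zero.2 (hrel.trans h.symm)
      rw [← this]
      abel
    · rw [S.vec_inv, S.vec_inv] at h
      exfalso
      apply na
      apply two
      have : (S.vec a + S.vec b + S.vec u) + (S.vec a + -S.vec u + -S.vec b) = 0 := by
        rw [hrel, h, add_zero]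
      rw [← this]
      abel
    · exact absurd rfl hyw.2
    · exact absurd rfl hyw.1

private theorem two_perm {a b u x y w : Z} (ha : S.inv a ≠ a) (hb : S.inv b ≠ b)
    (hu : S.inv u ≠ u) (hrel : S.vec a + S.vec b + S.vec u = 0) (hx : S.Q a b u x)
    (hy : S.Q a b u y) (hw : S.Q a b u w) (hxy : S.Ap x y) (hxw : S.Ap x w) (hyw : S.Ap y w)
    (h : S.vec x + S.vec y + S.vec w = 0) :
    ({x, y, w} : Multiset Z) = {a, b, u} ∨
      ({x, y, w} : Multiset Z) = {S.inv a, S.inv b, S.inv u} := by
  have sw : ∀ p q r : Z, ({p, q, r} : Multiset Z) = {q, p, r} := fun p q r =>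
    Multiset.cons_swap p q {r}
  have sw' : ∀ p q r : Z, ({p, q, r} : Multiset Z) = {p, r, q} := fun p q r =>
    congrArg (Multiset.cons p) (Multiset.pair_comm q r)
  have hrelb : S.vec b + S.vec a + S.vec u = 0 := by rw [← hrel]; abel
  have hrelu : S.vec u + S.vec a + S.vec b = 0 := by rw [← hrel]; abel
  have hQu : ∀ z, S.Q a b u z → S.Q u a b z := fun z hz =>
    S.two_q_rot (S.two_q_rot hz)
  have hneg : ∀ t : Z, x = S.inv t → S.vec t + S.vec (S.inv y) + S.vec (S.inv w) = 0 := by
    intro t ht
    rw [ht, S.vec_inv] at h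
    rw [S.vec_inv, S.vec_inv, ← neg_eq_zero, ← h]
    abel
  rcases hx with rfl | rfl | rfl | rfl | rfl | rfl
  · left
    rcases S.two_tri hb hu ha hrel hy hw hxy hxw hyw h with ⟨rfl, rfl⟩ | ⟨rfl, rfl⟩
    · rfl
    · exact sw' _ _ _
  · right
    rcases S.two_tri hb hu ha hrel (S.two_q_inv hy) (S.two_q_inv hw)
      (by simpa only [S.inv_inv] using hxy.inv_left.inv_right)
      (by simpa only [S.inv_inv] using hxw.inv_left.inv_right)
      hyw.inv_left.inv_right (hneg _ rfl) with ⟨h1, h2⟩ | ⟨h1, h2⟩
    · rw [← h1, ← h2, S.inv_inv, S.inv_inv]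
    · rw [← h1, ← h2, S.inv_inv, S.inv_inv]
      exact sw' _ _ _
  · left
    rcases S.two_tri ha hu hb hrelb (S.two_q_perm hy) (S.two_q_perm hw) hxy hxw hyw h with
      ⟨rfl, rfl⟩ | ⟨rfl, rfl⟩
    · exact sw _ _ _
    · exact (sw' _ _ _).trans (sw _ _ _)
  · right
    rcases S.two_tri ha hu hb hrelb (S.two_q_perm (S.two_q_inv hy))
      (S.two_q_perm (S.two_q_inv hw))
      (by simpa only [S.inv_inv] using hxy.inv_left.inv_right)
      (by simpa only [S.inv_inv] using hxw.inv_left.inv_right)
      hyw.inv_left.inv_right (hneg _ rfl) with ⟨h1, h2⟩ | ⟨h1, h2⟩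
    · rw [← h1, ← h2, S.inv_inv, S.inv_inv]
      exact sw _ _ _
    · rw [← h1, ← h2, S.inv_inv, S.inv_inv]
      exact (sw' _ _ _).trans (sw _ _ _)
  · left
    rcases S.two_tri ha hb hu hrelu (hQu _ hy) (hQu _ hw) hxy hxw hyw h with
      ⟨rfl, rfl⟩ | ⟨rfl, rfl⟩
    · exact (sw _ _ _).trans (sw' _ _ _)
    · exact (sw' _ _ _).trans ((sw _ _ _).trans (sw' _ _ _))
  · right
    rcases S.two_tri ha hb hu hrelu (hQu _ (S.two_q_inv hy)) (hQu _ (S.two_q_inv hw))
      (by simpa only [S.inv_inv] using hxy.inv_left.inv_right)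
      (by simpa only [S.inv_inv] using hxw.inv_left.inv_right)
      hyw.inv_left.inv_right (hneg _ rfl) with ⟨h1, h2⟩ | ⟨h1, h2⟩
    · rw [← h1, ← h2, S.inv_inv, S.inv_inv]
      exact (sw _ _ _).trans (sw' _ _ _)
    · rw [← h1, ← h2, S.inv_inv, S.inv_inv]
      exact (sw' _ _ _).trans ((sw _ _ _).trans (sw' _ _ _))

private theorem two_rel_smul {a b u : Z} (hrel : S.vec a + S.vec b + S.vec u = 0) (g : G) :
    S.vec (g • a) + S.vec (g • b) + S.vec (g • u) = 0 := by
  funext h
  have := congrFun hrel (h * g)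
  simp only [Pi.add_apply, Pi.zero_apply] at this ⊢
  rw [S.vec_smul, S.vec_smul, S.vec_smul]
  exact this

private theorem two_vec_one (z : Z) : S.vec z 1 = S.sl z := by
  simp only [vec, one_smul]

/-- one of the multiplicities is two -/
private theorem two_mult {a b u : Z} (ha : S.inv a ≠ a) (ma : S.mult a = 2) (mb : S.mult b = 1)
    (mu : S.mult u = 1) (hQ : ∀ g : G, S.Q a b u (g • a)) (hs : S.sl a + S.sl b + S.sl u = 0)
    (k : ℤ) (hk : (S.mult a : ℝ) * (S.sl a + 1 / 2) + ((S.mult b : ℝ) * (S.sl b + 1 / 2) +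
      (S.mult u : ℝ) * (S.sl u + 1 / 2)) = k) : False := by
  rw [ma, mb, mu] at hk
  push_cast at hk
  have h1 : S.sl a = ((k - 2 : ℤ) : ℝ) := by push_cast; linarith
  have h2 := abs_le.1 (S.sl_le a)
  have h3 : ((k - 2 : ℤ) : ℝ) < 1 := by rw [← h1]; linarith [h2.2]
  have h4 : (-1 : ℝ) < ((k - 2 : ℤ) : ℝ) := by rw [← h1]; linarith [h2.1]
  have h5 : k - 2 < 1 := by exact_mod_cast h3
  have h6 : -1 < k - 2 := by exact_mod_cast h4
  have h7 : k - 2 = 0 := by omega
  rw [h7] at h1
  push_cast at h1
  refine S.vec_ne_zero ha (funext fun g => ?_)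
  rw [Pi.zero_apply]
  change S.sl (g • a) = 0
  have hm := S.mult_smul g a
  rw [ma] at hm
  rcases hQ g with e | e | e | e | e | e
  · rw [e, h1]
  · rw [e, S.sl_inv, h1, neg_zero]
  · rw [e, mb] at hm; omega
  · rw [e, S.mult_inv, mb] at hm; omega
  · rw [e, mu] at hm; omega
  · rw [e, S.mult_inv, mu] at hm; omega

private theorem two_caseA {z₀ a b u : Z} (h₀ : S.inv z₀ = z₀) (ha : S.inv a ≠ a)
    (hb : S.inv b ≠ b) (hu : S.inv u ≠ u) (hab : S.Ap a b) (hau : S.Ap a u) (hbu : S.Ap b u)
    (hrel : S.vec a + S.vec b + S.vec u = 0) (hQa : ∀ g : G, S.Q a b u (g • a))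
    (hQb : ∀ g : G, S.Q a b u (g • b)) (hQu : ∀ g : G, S.Q a b u (g • u)) :
    S.IsW {z₀, a, b, u} := by
  have key : ∀ g : G, ({g • a, g • b, g • u} : Multiset Z) = {a, b, u} ∨
      ({g • a, g • b, g • u} : Multiset Z) = {S.inv a, S.inv b, S.inv u} := fun g =>
    S.two_perm ha hb hu hrel (hQa g) (hQb g) (hQu g) (hab.smul g) (hau.smul g) (hbu.smul g)
      (S.two_rel_smul hrel g)
  have map4 : ∀ f : Z → Z, ({z₀, a, b, u} : Multiset Z).map f =
      f z₀ ::ₘ ({f a, f b, f u} : Multiset Z) := by
    intro f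
    simp only [Multiset.insert_eq_cons, Multiset.map_cons, Multiset.map_singleton]
  have key2 : ∀ g : G, ({z₀, a, b, u} : Multiset Z).map (g • ·) = {z₀, a, b, u} ∨
      ({z₀, a, b, u} : Multiset Z).map (g • ·) = ({z₀, a, b, u} : Multiset Z).map S.inv := by
    intro g
    rw [map4, map4]
    rcases key g with h | h
    · left
      rw [h, S.smul_real g h₀]
      rfl
    · right
      rw [h, S.smul_real g h₀, h₀]
  refine ⟨key2, fun _ => ?_⟩
  by_contra hcon
  have hst : ∀ d ∈ S.D, ({d • a, d • b, d • u} : Multiset Z) = {a, b, u} := by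
    intro d hd
    rcases key d with h | h
    · exact h
    · refine absurd ⟨d, hd, ?_⟩ hcon
      rw [map4, map4]
      rw [h, S.smul_real d h₀, h₀]
  obtain ⟨k, hk⟩ := S.two_stable_int {a, b, u} (by
    intro d hd z hz
    have h1 : d • z ∈ ({d • a, d • b, d • u} : Multiset Z) := by
      simp only [Finset.mem_insert, Finset.mem_singleton] at hz
      simp only [Multiset.insert_eq_cons, Multiset.mem_cons, Multiset.mem_singleton]
      rcases hz with rfl | rfl | rfl
      · exact Or.inl rfl
      · exact Or.inr (Or.inl rfl)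
      · exact Or.inr (Or.inr rfl)
    rw [hst d hd] at h1
    simpa only [Multiset.insert_eq_cons, Multiset.mem_cons, Multiset.mem_singleton,
      Finset.mem_insert, Finset.mem_singleton] using h1)
  rw [Finset.sum_insert, Finset.sum_insert, Finset.sum_singleton] at hk
  rotate_left
  · rw [Finset.mem_singleton]
    exact hbu.1
  · rw [Finset.mem_insert, Finset.mem_singleton, not_or]
    exact ⟨hab.1, hau.1⟩
  have hs : S.sl a + S.sl b + S.sl u = 0 := by
    have := congrFun hrel 1
    simpa only [Pi.add_apply, Pi.zero_apply, two_vec_one] using this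
  have h3 := S.two_three h₀ ha hb hu hab hau hbu
  have h4 := S.two_le_real h₀
  have pa := S.mult_pos a
  have pb := S.mult_pos b
  have pu := S.mult_pos u
  have hcases : (S.mult a = 1 ∧ S.mult b = 1 ∧ S.mult u = 1) ∨
      (S.mult a = 2 ∧ S.mult b = 1 ∧ S.mult u = 1) ∨
      (S.mult a = 1 ∧ S.mult b = 2 ∧ S.mult u = 1) ∨
      (S.mult a = 1 ∧ S.mult b = 1 ∧ S.mult u = 2) := by omega
  rcases hcases with ⟨ma, mb, mu⟩ | ⟨ma, mb, mu⟩ | ⟨ma, mb, mu⟩ | ⟨ma, mb, mu⟩
  · rw [ma, mb, mu] at hk
    push_cast at hk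
    have h5 : ((2 * k : ℤ) : ℝ) = ((3 : ℤ) : ℝ) := by push_cast; linarith
    have h6 : 2 * k = 3 := by exact_mod_cast h5
    omega
  · exact S.two_mult ha ma mb mu hQa hs k hk
  · exact S.two_mult (a := b) (b := a) (u := u) hb mb ma mu (fun g => S.two_q_perm (hQb g))
      (by linarith) k (by linarith)
  · exact S.two_mult (a := u) (b := a) (u := b) hu mu ma mb
      (fun g => S.two_q_rot (S.two_q_rot (hQu g))) (by linarith) k (by linarith)

private theorem two_slope {a b u v : Z} (ha : S.inv a ≠ a) (hab : S.Ap a b)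
    (ma : S.mult a = 1) (mb : S.mult b = 1) (mu : S.mult u = 1)
    (hA : ∀ h : G, h • a = a ∨ h • a = S.inv a ∨ h • a = b ∨ h • a = S.inv b)
    (hB : ∀ h : G, h • b = a ∨ h • b = S.inv a ∨ h • b = b ∨ h • b = S.inv b)
    (hU : ∀ h : G, h • u = u ∨ h • u = S.inv u ∨ h • u = v ∨ h • u = S.inv v)
    (su : S.sl u = -(S.sl a + S.sl b)) (sv : S.sl v = S.sl b - S.sl a) : S.sl a ≠ S.sl b := by
  intro hs
  by_cases h0 : S.sl a = 0
  · refine S.vec_ne_zero ha (funext fun g => ?_)
    rw [Pi.zero_apply]
    change S.sl (g • a) = 0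
    rcases hA g with e | e | e | e
    · rw [e, h0]
    · rw [e, S.sl_inv, h0, neg_zero]
    · rw [e, ← hs, h0]
    · rw [e, S.sl_inv, ← hs, h0, neg_zero]
  · have hfix : ∀ d ∈ S.D, d • u = u := by
      intro d hd
      have h1 := S.sl_D d hd u
      rcases hU d with e | e | e | e
      · exact e
      · rw [e, S.sl_inv] at h1
        exact absurd (by linarith) h0
      · rw [e] at h1
        exact absurd (by linarith) h0
      · rw [e, S.sl_inv] at h1
        exact absurd (by linarith) h0
    obtain ⟨k, hk⟩ := S.two_stable_int {a, b} (by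
      intro d hd z hz
      simp only [Finset.mem_insert, Finset.mem_singleton] at hz ⊢
      have h1 := S.sl_D d hd z
      rcases hz with rfl | rfl
      · rcases hA d with e | e | e | e
        · exact Or.inl e
        · rw [e, S.sl_inv] at h1
          exact absurd (by linarith) h0
        · exact Or.inr e
        · rw [e, S.sl_inv] at h1
          exact absurd (by linarith) h0
      · rcases hB d with e | e | e | e
        · exact Or.inl e
        · rw [e, S.sl_inv] at h1
          exact absurd (by linarith) h0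
        · exact Or.inr e
        · rw [e, S.sl_inv] at h1
          exact absurd (by linarith) h0)
    rw [Finset.sum_insert (by rw [Finset.mem_singleton]; exact hab.1), Finset.sum_singleton,
      ma, mb] at hk
    push_cast at hk
    rcases S.fixed_one hfix mu with h2 | h2
    · have h5 : ((2 * k : ℤ) : ℝ) = ((1 : ℤ) : ℝ) := by push_cast; linarith
      have h6 : 2 * k = 1 := by exact_mod_cast h5
      omega
    · have h5 : ((2 * k : ℤ) : ℝ) = ((3 : ℤ) : ℝ) := by push_cast; linarith
      have h6 : 2 * k = 3 := by exact_mod_cast h5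
      omega

private theorem two_final {z₀ a b u v : Z} (h₀ : S.inv z₀ = z₀) (ha : S.inv a ≠ a)
    (hb : S.inv b ≠ b) (hu : S.inv u ≠ u) (hv : S.inv v ≠ v) (hab : S.Ap a b) (hau : S.Ap a u)
    (hbu : S.Ap b u) (hav : S.Ap a v) (hbv : S.Ap b v) (huv : S.Ap u v)
    (hrel : S.vec a + S.vec b + S.vec u = 0) (hrel2 : S.vec v = S.vec b - S.vec a)
    (cover : ∀ z, S.inv z ≠ z → S.Q a b u z ∨ z = v ∨ z = S.inv v) (m₀ : S.mult z₀ = 2)
    (ma : S.mult a = 1) (mb : S.mult b = 1) (mu : S.mult u = 1) (mv : S.mult v = 1)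
    (hconj : ∃ g : G, g • u = v) : S.DFour z₀ a b u v := by
  have hvu : S.vec u = -(S.vec a + S.vec b) := by
    rw [eq_neg_iff_add_eq_zero, ← hrel]
    abel
  have hlen : ip (S.vec v) (S.vec v) = ip (S.vec u) (S.vec u) := by
    obtain ⟨g, hg⟩ := hconj
    have := S.ip_smul_self g u
    rwa [hg] at this
  have hpos : ∀ z, S.inv z ≠ z → 0 < ip (S.vec z) (S.vec z) := fun z hz =>
    lt_of_le_of_ne (ip_self_nonneg _) fun h => S.vec_ne_zero hz (eq_zero_of_ip_self h.symm)
  have hpa := hpos a ha
  have hpb := hpos b hb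
  have huu : ip (S.vec u) (S.vec u) =
      ip (S.vec a) (S.vec a) + 2 * ip (S.vec a) (S.vec b) + ip (S.vec b) (S.vec b) := by
    rw [hvu, ip_neg_left, ip_neg_right, ip_add_left, ip_add_right, ip_add_right,
      ip_comm (S.vec b) (S.vec a)]
    ring
  have hvv : ip (S.vec v) (S.vec v) =
      ip (S.vec b) (S.vec b) - 2 * ip (S.vec a) (S.vec b) + ip (S.vec a) (S.vec a) := by
    rw [hrel2, ip_sub_left, ip_sub_right, ip_sub_right, ip_comm (S.vec b) (S.vec a)]
    ring
  have hort : ip (S.vec a) (S.vec b) = 0 := by linarith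
  rw [hort] at huu hvv
  have hA : ∀ h : G, h • a = a ∨ h • a = S.inv a ∨ h • a = b ∨ h • a = S.inv b := by
    intro h
    have h1 := S.ip_smul_self h a
    rcases cover (h • a) (S.nonreal_smul h ha) with (e | e | e | e | e | e) | e | e
    · exact Or.inl e
    · exact Or.inr (Or.inl e)
    · exact Or.inr (Or.inr (Or.inl e))
    · exact Or.inr (Or.inr (Or.inr e))
    · rw [e] at h1
      linarith
    · rw [e, S.ip_inv_self] at h1
      linarith
    · rw [e] at h1
      linarith
    · rw [e, S.ip_inv_self] at h1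
      linarith
  have hB : ∀ h : G, h • b = a ∨ h • b = S.inv a ∨ h • b = b ∨ h • b = S.inv b := by
    intro h
    have h1 := S.ip_smul_self h b
    rcases cover (h • b) (S.nonreal_smul h hb) with (e | e | e | e | e | e) | e | e
    · exact Or.inl e
    · exact Or.inr (Or.inl e)
    · exact Or.inr (Or.inr (Or.inl e))
    · exact Or.inr (Or.inr (Or.inr e))
    · rw [e] at h1
      linarith
    · rw [e, S.ip_inv_self] at h1
      linarith
    · rw [e] at h1
      linarith
    · rw [e, S.ip_inv_self] at h1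
      linarith
  have hlarge : ∀ z, S.inv z ≠ z → ip (S.vec z) (S.vec z) = ip (S.vec u) (S.vec u) →
      z = u ∨ z = S.inv u ∨ z = v ∨ z = S.inv v := by
    intro z hz h1
    rcases cover z hz with (e | e | e | e | e | e) | e | e
    · rw [e] at h1
      linarith
    · rw [e, S.ip_inv_self] at h1
      linarith
    · rw [e] at h1
      linarith
    · rw [e, S.ip_inv_self] at h1
      linarith
    · exact Or.inl e
    · exact Or.inr (Or.inl e)
    · exact Or.inr (Or.inr (Or.inl e))
    · exact Or.inr (Or.inr (Or.inr e))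
  have hU : ∀ h : G, h • u = u ∨ h • u = S.inv u ∨ h • u = v ∨ h • u = S.inv v := fun h =>
    hlarge _ (S.nonreal_smul h hu) (S.ip_smul_self h u)
  have hV : ∀ h : G, h • v = v ∨ h • v = S.inv v ∨ h • v = u ∨ h • v = S.inv u := by
    intro h
    rcases hlarge _ (S.nonreal_smul h hv) ((S.ip_smul_self h v).trans hlen) with e | e | e | e
    · exact Or.inr (Or.inr (Or.inl e))
    · exact Or.inr (Or.inr (Or.inr e))
    · exact Or.inl e
    · exact Or.inr (Or.inl e)
  have hvv' : ∀ h : G, S.vec (h • v) = S.vec (h • b) - S.vec (h • a) := by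
    intro h
    funext k
    rw [Pi.sub_apply, S.vec_smul, S.vec_smul, S.vec_smul, hrel2, Pi.sub_apply]
  have huu' : ∀ h : G, S.vec (h • u) = -(S.vec (h • a) + S.vec (h • b)) := by
    intro h
    rw [eq_neg_iff_add_eq_zero, ← S.two_rel_smul hrel h]
    abel
  have hex : ∃ h : G, h • a = b := by
    by_contra hcon
    have hA' : ∀ h : G, h • a = a ∨ h • a = S.inv a := by
      intro h
      rcases hA h with e | e | e | e
      · exact Or.inl e
      · exact Or.inr e
      · exact absurd ⟨h, e⟩ hcon
      · refine absurd ⟨S.c * h, ?_⟩ hcon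
        rw [mul_smul, e, S.c_smul, S.inv_inv]
    have hB' : ∀ h : G, h • b = b ∨ h • b = S.inv b := by
      intro h
      have h1 := hab.smul h
      rcases hB h with e | e | e | e
      · exfalso
        rcases hA' h with e' | e'
        · rw [e, e'] at h1
          exact h1.1 rfl
        · rw [e, e'] at h1
          exact h1.2 rfl
      · exfalso
        rcases hA' h with e' | e'
        · rw [e, e'] at h1
          exact h1.2 (S.inv_inv a).symm
        · rw [e, e'] at h1
          exact h1.1 rfl
      · exact Or.inl e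
      · exact Or.inr e
    refine S.not_compatible huv mu mv fun h => ?_
    have e1 := huu' h
    have e2 := hvv' h
    rcases hA' h with e' | e' <;> rcases hB' h with e'' | e'' <;> rw [e', e''] at e1 e2
    · left
      exact ⟨S.eq_of_vec (e1.trans hvu.symm), S.eq_of_vec (e2.trans hrel2.symm)⟩
    · right; right; left
      rw [S.vec_inv] at e1 e2
      refine ⟨S.eq_of_vec (e1.trans ?_), S.eq_of_vec (e2.trans ?_)⟩
      · rw [hrel2]
        abel
      · rw [hvu]
        abel
    · right; right; right
      rw [S.vec_inv] at e1 e2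
      refine ⟨S.eq_inv_of_vec (e1.trans ?_), S.eq_inv_of_vec (e2.trans ?_)⟩
      · rw [hrel2]
        abel
      · rw [hvu]
        abel
    · right; left
      rw [S.vec_inv, S.vec_inv] at e1 e2
      refine ⟨S.eq_inv_of_vec (e1.trans ?_), S.eq_inv_of_vec (e2.trans ?_)⟩
      · rw [hvu]
        abel
      · rw [hrel2]
        abel
  have su : S.sl u = -(S.sl a + S.sl b) := by
    have := congrFun hvu 1
    simpa only [Pi.add_apply, Pi.neg_apply, two_vec_one] using this
  have sv : S.sl v = S.sl b - S.sl a := by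
    have := congrFun hrel2 1
    simpa only [Pi.sub_apply, two_vec_one] using this
  have hne1 : S.sl a ≠ S.sl b := S.two_slope ha hab ma mb mu hA hB hU su sv
  have hne2 : S.sl a ≠ -S.sl b := by
    rw [← S.sl_inv]
    refine S.two_slope (b := S.inv b) (u := v) (v := u) ha hab.inv_right ma
      ((S.mult_inv b).trans mb) mv (fun h => ?_) (fun h => ?_) hV ?_ ?_
    · rcases hA h with e | e | e | e
      · exact Or.inl e
      · exact Or.inr (Or.inl e)
      · exact Or.inr (Or.inr (Or.inr (e.trans (S.inv_inv b).symm)))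
      · exact Or.inr (Or.inr (Or.inl e))
    · rw [S.smul_inv]
      rcases hB h with e | e | e | e
      · exact Or.inr (Or.inl (congrArg S.inv e))
      · exact Or.inl (by rw [e, S.inv_inv])
      · exact Or.inr (Or.inr (Or.inl (congrArg S.inv e)))
      · exact Or.inr (Or.inr (Or.inr (congrArg S.inv e)))
    · rw [sv, S.sl_inv]
      ring
    · rw [su, S.sl_inv]
      ring
  have hDa : ∀ d ∈ S.D, d • a = a ∨ d • a = S.inv a := by
    intro d hd
    have h1 := S.sl_D d hd a
    rcases hA d with e | e | e | e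
    · exact Or.inl e
    · exact Or.inr e
    · rw [e] at h1
      exact absurd h1.symm hne1
    · rw [e, S.sl_inv] at h1
      exact absurd h1.symm hne2
  have hDb : ∀ d ∈ S.D, d • b = b ∨ d • b = S.inv b := by
    intro d hd
    have h1 := S.sl_D d hd b
    rcases hB d with e | e | e | e
    · rw [e] at h1
      exact absurd h1 hne1
    · rw [e, S.sl_inv] at h1
      exact absurd (by linarith) hne2
    · exact Or.inl e
    · exact Or.inr e
  have hfa : S.sl a ≠ 0 → ∀ d ∈ S.D, d • a = a := by
    intro hs d hd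
    rcases hDa d hd with e | e
    · exact e
    · have h1 := S.sl_D d hd a
      rw [e, S.sl_inv] at h1
      exact absurd (by linarith) hs
  have hfb : S.sl b ≠ 0 → ∀ d ∈ S.D, d • b = b := by
    intro hs d hd
    rcases hDb d hd with e | e
    · exact e
    · have h1 := S.sl_D d hd b
      rw [e, S.sl_inv] at h1
      exact absurd (by linarith) hs
  have habs : ∀ x : ℝ, x = 1 / 2 ∨ x = -(1 / 2) → |x| = 1 / 2 := by
    intro x hx
    rcases hx with rfl | rfl
    · exact abs_of_pos (by norm_num)
    · rw [abs_neg]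
      exact abs_of_pos (by norm_num)
  have hslab : (|S.sl a| = 1 / 2 ∧ S.sl b = 0) ∨ (S.sl a = 0 ∧ |S.sl b| = 1 / 2) := by
    by_cases sa : S.sl a = 0
    · right
      refine ⟨sa, habs _ (S.fixed_one (hfb ?_) mb)⟩
      intro sb
      exact hne1 (sa.trans sb.symm)
    · left
      refine ⟨habs _ (S.fixed_one (hfa sa) ma), ?_⟩
      by_contra sb
      rcases S.fixed_one (hfa sa) ma with e1 | e1 <;>
      rcases S.fixed_one (hfb sb) mb with e2 | e2
      · exact hne1 (e1.trans e2.symm)
      · exact hne2 (by rw [e1, e2, neg_neg])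
      · exact hne2 (by rw [e1, e2])
      · exact hne1 (e1.trans e2.symm)
  obtain ⟨h, hh⟩ := hex
  have hhb : h • b = a ∨ h • b = S.inv a := by
    have h1 := hab.smul h
    rw [hh] at h1
    rcases hB h with e | e | e | e
    · exact Or.inl e
    · exact Or.inr e
    · rw [e] at h1
      exact absurd rfl h1.1
    · rw [e] at h1
      exact absurd (S.inv_inv b).symm h1.2
  refine
    { real := h₀
      nra := ha
      nrb := hb
      nru := hu
      nrv := hv
      ab := hab
      au := hau
      av := hav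
      bu := hbu
      bv := hbv
      uv := huv
      cover := ?_
      m₀ := m₀
      ma := ma
      mb := mb
      mu := mu
      mv := mv
      conj_ab := ⟨h, hh⟩
      conj_uv := hconj
      fix := ?_
      slab := hslab
      slu := ?_
      slv := ?_
      rel := fun g => congrFun hrel g }
  · intro z
    by_cases hz : S.inv z = z
    · exact Or.inl (S.real_unique hz h₀)
    · right
      rcases cover z hz with (e | e | e | e | e | e) | e | e
      · exact Or.inl e
      · exact Or.inr (Or.inl e)
      · exact Or.inr (Or.inr (Or.inl e))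
      · exact Or.inr (Or.inr (Or.inr (Or.inl e)))
      · exact Or.inr (Or.inr (Or.inr (Or.inr (Or.inl e))))
      · exact Or.inr (Or.inr (Or.inr (Or.inr (Or.inr (Or.inl e)))))
      · exact Or.inr (Or.inr (Or.inr (Or.inr (Or.inr (Or.inr (Or.inl e))))))
      · exact Or.inr (Or.inr (Or.inr (Or.inr (Or.inr (Or.inr (Or.inr e))))))
  · rcases hslab with ⟨sa, sb⟩ | ⟨sa, sb⟩
    · have sa' : S.sl a ≠ 0 := fun e => by rw [e, abs_zero] at sa; norm_num at sa
      have h1 : ∃ d ∈ S.D, d • b ≠ b := by
        by_contra hcon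
        push Not at hcon
        rcases S.fixed_one hcon mb with e | e <;> rw [sb] at e <;> norm_num at e
      obtain ⟨d, hd, hdb⟩ := h1
      exact ⟨d, hfa sa' d hd, (hDb d hd).resolve_left hdb⟩
    · have sb' : S.sl b ≠ 0 := fun e => by rw [e, abs_zero] at sb; norm_num at sb
      have h1 : ∃ d ∈ S.D, d • a ≠ a := by
        by_contra hcon
        push Not at hcon
        rcases S.fixed_one hcon ma with e | e <;> rw [sa] at e <;> norm_num at e
      obtain ⟨d, hd, hda⟩ := h1
      have hda' := (hDa d hd).resolve_left hda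
      have hdb := hfb sb' d hd
      refine ⟨h⁻¹ * d * h, ?_, ?_⟩
      · rw [mul_smul, mul_smul, hh, hdb, ← hh, inv_smul_smul]
      · rw [mul_smul, mul_smul]
        rcases hhb with e | e
        · rw [e, hda', ← e, S.smul_inv, inv_smul_smul]
        · rw [e, S.smul_inv, hda', S.smul_inv, ← e, inv_smul_smul]
  · rw [su]
    rcases hslab with ⟨sa, sb⟩ | ⟨sa, sb⟩
    · rw [sb, add_zero, abs_neg, sa]
    · rw [sa, zero_add, abs_neg, sb]
  · rw [sv]
    rcases hslab with ⟨sa, sb⟩ | ⟨sa, sb⟩
    · rw [sb, zero_sub, abs_neg, sa]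
    · rw [sa, sub_zero, sb]

private theorem two_caseB {z₀ a b u : Z} (h₀ : S.inv z₀ = z₀) (ha : S.inv a ≠ a)
    (hb : S.inv b ≠ b) (hu : S.inv u ≠ u) (hab : S.Ap a b) (hau : S.Ap a u) (hbu : S.Ap b u)
    (hrel : S.vec a + S.vec b + S.vec u = 0) (g : G) (hg : ¬S.Q a b u (g • u)) :
    ∃ v, S.DFour z₀ a b u v := by
  obtain ⟨hea, heb, heu⟩ := S.two_ap_of_not_q hg
  obtain ⟨e, he⟩ : ∃ e, e = g • u := ⟨_, rfl⟩
  rw [← he] at hea heb heu hg
  have hne : S.inv e ≠ e := by
    rw [he]
    exact S.nonreal_smul g hu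
  have h4 := S.two_four h₀ ha hb hu hne hab hau hbu hea.symm heb.symm heu.symm
  have h2 := S.two_le_real h₀
  have pa := S.mult_pos a
  have pb := S.mult_pos b
  have pu := S.mult_pos u
  have pe := S.mult_pos e
  have m₀ : S.mult z₀ = 2 := by omega
  have ma : S.mult a = 1 := by omega
  have mb : S.mult b = 1 := by omega
  have mu : S.mult u = 1 := by omega
  have me : S.mult e = 1 := by omega
  have cover : ∀ z, S.inv z ≠ z → S.Q a b u z ∨ z = e ∨ z = S.inv e := by
    intro z hz
    by_contra hcon
    rw [not_or, not_or] at hcon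
    obtain ⟨h1, h2, h3⟩ := hcon
    obtain ⟨q1, q2, q3⟩ := S.two_ap_of_not_q h1
    exact S.two_five h₀ ha hb hu hne hz hab hau hbu hea.symm heb.symm heu.symm q1.symm q2.symm
      q3.symm (Ap.symm ⟨h2, h3⟩)
  -- the relation function
  have hs := S.isRel_of_multiset {a, b, u} (by
    intro k
    have := congrFun hrel k
    simp only [Multiset.insert_eq_cons, Multiset.map_cons, Multiset.map_singleton,
      Multiset.sum_cons, Multiset.sum_singleton]
    simp only [Pi.add_apply, Pi.zero_apply, vec] at this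
    linarith)
  have cnt : ∀ z, Multiset.count z ({a, b, u} : Multiset Z) =
      (if z = a then 1 else 0) + ((if z = b then 1 else 0) + (if z = u then 1 else 0)) := by
    intro z
    simp only [Multiset.insert_eq_cons, Multiset.count_cons, Multiset.count_singleton]
    ring
  obtain ⟨s, hsd⟩ : ∃ s : Z → ℤ, s = fun z => (Multiset.count z ({a, b, u} : Multiset Z) : ℤ) -
      Multiset.count (S.inv z) ({a, b, u} : Multiset Z) := ⟨_, rfl⟩
  have hs1 : S.IsRel s := by
    rw [hsd]
    convert hs
  have sa : s a = 1 := by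
    rw [hsd]
    beta_reduce
    rw [cnt, cnt]
    rw [if_pos (rfl : a = a), if_neg hab.1, if_neg hau.1, if_neg ha,
      if_neg (fun e => hab.symm.2 e.symm), if_neg (fun e => hau.symm.2 e.symm)]
    norm_num
  have sb : s b = 1 := by
    rw [hsd]
    beta_reduce
    rw [cnt, cnt]
    rw [if_neg hab.symm.1, if_pos (rfl : b = b), if_neg hbu.1, if_neg (fun e => hab.2 e.symm),
      if_neg hb, if_neg (fun e => hbu.symm.2 e.symm)]
    norm_num
  have su : s u = 1 := by
    rw [hsd]
    beta_reduce
    rw [cnt, cnt]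
    rw [if_neg hau.symm.1, if_neg hbu.symm.1, if_pos (rfl : u = u),
      if_neg (fun e => hau.2 e.symm),
      if_neg (fun e => hbu.2 e.symm), if_neg hu]
    norm_num
  have se : s e = 0 := by
    rw [hsd]
    beta_reduce
    rw [cnt, cnt]
    rw [if_neg hea.1, if_neg heb.1, if_neg heu.1, if_neg (fun h => hea.symm.2 h.symm),
      if_neg (fun h => heb.symm.2 h.symm), if_neg (fun h => heu.symm.2 h.symm)]
    norm_num
  have sQ : ∀ z, S.Q a b u z → s z = 1 ∨ s z = -1 := by
    intro z hz
    rcases hz with rfl | rfl | rfl | rfl | rfl | rfl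
    · exact Or.inl sa
    · exact Or.inr (by rw [hs1.1, sa])
    · exact Or.inl sb
    · exact Or.inr (by rw [hs1.1, sb])
    · exact Or.inl su
    · exact Or.inr (by rw [hs1.1, su])
  have hr := hs1.smul g⁻¹
  rw [_root_.inv_inv] at hr
  have tu : s (g • u) = 0 := by rw [← he, se]
  have tz : ∀ z, S.inv z ≠ z → S.Ap z u → s (g • z) = 1 ∨ s (g • z) = -1 := by
    intro z hz hzu
    refine sQ _ ?_
    rcases cover (g • z) (S.nonreal_smul g hz) with h1 | h1 | h1
    · exact h1
    · rw [he] at h1
      exact absurd (MulAction.injective g h1) hzu.1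
    · rw [he, ← S.smul_inv] at h1
      exact absurd (MulAction.injective g h1) hzu.2
  have hsum := hr.sum_finset {a, b, e} (by
    simp only [Finset.mem_insert, Finset.mem_singleton]
    rintro z (rfl | rfl | rfl) <;> assumption) (by
    simp only [Finset.mem_insert, Finset.mem_singleton]
    rintro z (rfl | rfl | rfl) w (rfl | rfl | rfl) hne' <;>
    first
    | exact absurd rfl hne'
    | assumption
    | (apply Ap.symm; assumption)) (by
    intro z
    simp only [Finset.mem_insert, Finset.mem_singleton]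
    by_cases hz : S.inv z = z
    · right; right
      exact hr.real hz
    · rcases cover z hz with (h | h | h | h | h | h) | h | h
      · left; left; exact h
      · right; left; left; rw [h, S.inv_inv]
      · left; right; left; exact h
      · right; left; right; left; rw [h, S.inv_inv]
      · right; right; rw [h]; exact tu
      · right; right
        rw [h]
        change s (g • S.inv u) = 0
        rw [S.smul_inv, hs1.1, tu, neg_zero]
      · left; right; right; exact h
      · right; left; right; right; rw [h, S.inv_inv])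
  rw [Finset.sum_insert, Finset.sum_insert, Finset.sum_singleton] at hsum
  rotate_left
  · rw [Finset.mem_singleton]
    exact heb.symm.1
  · rw [Finset.mem_insert, Finset.mem_singleton, not_or]
    exact ⟨hab.1, hea.symm.1⟩
  have hex : ∃ v, (v = e ∨ v = S.inv e) ∧ S.vec v = S.vec b - S.vec a := by
    have hvu : S.vec u = -(S.vec a + S.vec b) := by
      rw [eq_neg_iff_add_eq_zero, ← hrel]
      abel
    have no1 : S.vec e = S.vec a + S.vec b → False := fun h =>
      heu.vec_ne_neg (by rw [hvu, neg_neg, h])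
    have no2 : S.vec e = -(S.vec a + S.vec b) → False := fun h =>
      heu.vec_ne (by rw [hvu, h])
    rcases tz a ha hau with h1 | h1 <;> rcases tz b hb hbu with h2 | h2 <;>
    rcases tz e hne heu with h3 | h3 <;> rw [h1, h2, h3] at hsum <;>
    simp only [Int.cast_one, Int.cast_neg, one_smul, neg_smul] at hsum
    · refine (no2 ?_).elim
      rw [eq_neg_iff_add_eq_zero, ← hsum]
      abel
    · refine (no1 ?_).elim
      rw [← sub_eq_zero, ← neg_eq_zero, ← hsum]
      abel
    · refine ⟨e, Or.inl rfl, ?_⟩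
      rw [← sub_eq_zero, ← hsum]
      abel
    · refine ⟨S.inv e, Or.inr rfl, ?_⟩
      rw [S.vec_inv, ← sub_eq_zero, ← hsum]
      abel
    · refine ⟨S.inv e, Or.inr rfl, ?_⟩
      rw [S.vec_inv, ← sub_eq_zero, ← neg_eq_zero, ← hsum]
      abel
    · refine ⟨e, Or.inl rfl, ?_⟩
      rw [← sub_eq_zero, ← neg_eq_zero, ← hsum]
      abel
    · refine (no1 ?_).elim
      rw [← sub_eq_zero, ← hsum]
      abel
    · refine (no2 ?_).elim
      rw [eq_neg_iff_add_eq_zero, ← neg_eq_zero, ← hsum]
      abel
  obtain ⟨v, hv, hvv⟩ := hex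
  refine ⟨v, ?_⟩
  rcases hv with rfl | rfl
  · exact S.two_final h₀ ha hb hu hne hab hau hbu hea.symm heb.symm heu.symm hrel hvv cover m₀
      ma mb mu me ⟨g, he.symm⟩
  · refine S.two_final h₀ ha hb hu (S.nonreal_inv hne) hab hau hbu hea.symm.inv_right
      heb.symm.inv_right heu.symm.inv_right hrel hvv (fun z hz => ?_) m₀ ma mb mu
      ((S.mult_inv e).trans me) ⟨S.c * g, ?_⟩
    · rcases cover z hz with h | h | h
      · exact Or.inl h
      · exact Or.inr (Or.inr (h.trans (S.inv_inv e).symm))
      · exact Or.inr (Or.inl h)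
    · rw [mul_smul, ← he, S.c_smul]

theorem t_two {z₀ a b u : Z} (h₀ : S.inv z₀ = z₀) (ha : S.inv a ≠ a) (hb : S.inv b ≠ b)
    (hu : S.inv u ≠ u) (hab : S.Ap a b) (hau : S.Ap a u) (hbu : S.Ap b u)
    (hrel : S.vec a + S.vec b + S.vec u = 0) :
    S.IsW {z₀, a, b, u} ∨ S.IsD {z₀, a, b, u} := by
  have sw : ∀ p q r : Z, ({z₀, p, q, r} : Multiset Z) = {z₀, q, p, r} := fun p q r =>
    congrArg (Multiset.cons z₀) (Multiset.cons_swap p q {r})
  have sw' : ∀ p q r : Z, ({z₀, p, q, r} : Multiset Z) = {z₀, p, r, q} := fun p q r =>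
    congrArg (fun t => Multiset.cons z₀ (Multiset.cons p t)) (Multiset.pair_comm q r)
  by_cases hQu : ∀ g : G, S.Q a b u (g • u)
  · by_cases hQa : ∀ g : G, S.Q a b u (g • a)
    · by_cases hQb : ∀ g : G, S.Q a b u (g • b)
      · exact Or.inl (S.two_caseA h₀ ha hb hu hab hau hbu hrel hQa hQb hQu)
      · push Not at hQb
        obtain ⟨g, hg⟩ := hQb
        obtain ⟨v, hv⟩ := S.two_caseB h₀ ha hu hb hau hab hbu.symm
          (by rw [← hrel]; abel) g fun h => hg (by
            rcases h with h | h | h | h | h | h <;> simp only [Q, h, true_or, or_true])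
        exact Or.inr ⟨z₀, a, u, b, v, hv, sw' _ _ _⟩
    · push Not at hQa
      obtain ⟨g, hg⟩ := hQa
      obtain ⟨v, hv⟩ := S.two_caseB h₀ hb hu ha hbu hab.symm hau.symm
        (by rw [← hrel]; abel) g fun h => hg (by
          rcases h with h | h | h | h | h | h <;> simp only [Q, h, true_or, or_true])
      exact Or.inr ⟨z₀, b, u, a, v, hv, (sw _ _ _).trans (sw' _ _ _)⟩
  · push Not at hQu
    obtain ⟨g, hg⟩ := hQu
    obtain ⟨v, hv⟩ := S.two_caseB h₀ ha hb hu hab hau hbu hrel g hg
    exact Or.inr ⟨z₀, a, b, u, v, hv, rfl⟩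

end Pool.Agent.Exo5.SlopeData
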