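import Pool.Agent.Exo5.TOne
import Pool.Agent.Exo5.TTwo
import Pool.Agent.Exo5.TThree

/-!
# The classification of the relations of length four
-/

set_option autoImplicit false

namespace Pool.Agent.Exo5.SlopeData

variable {G Z : Type} [Group G] [Fintype G] [Fintype Z] [DecidableEq Z] [MulAction G Z]
  (S : SlopeData G Z)

theorem exists_real_of_isW {M : Multiset Z} (h : ∀ z ∈ M, S.inv z ≠ z)
    (hM : ∀ g : G, M.map (g • ·) = M ∨ M.map (g • ·) = M.map S.inv) : S.IsW M :=
  ⟨hM, fun ⟨z, hz, e⟩ => absurd e (h z hz)⟩

theorem sum_vec_apply (M : Multiset Z) (g : G) :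
    (M.map S.vec).sum g = (M.map fun z => S.sl (g • z)).sum := by
  induction M using Multiset.induction_on with
  | empty => rfl
  | cons a M ih =>
    rw [Multiset.map_cons, Multiset.map_cons, Multiset.sum_cons, Multiset.sum_cons,
      Pi.add_apply, ih]
    rfl

theorem vec_rel {M : Multiset Z} (hrel : ∀ g : G, (M.map fun z => S.sl (g • z)).sum = 0) :
    (M.map S.vec).sum = 0 := by
  funext g
  rw [Pi.zero_apply, ← hrel g, S.sum_vec_apply]

theorem core (M : Multiset Z) (hc : M.card = 4) (hle : ∀ z, M.count z ≤ S.mult z)
    (hnp : ∀ z ∈ M, S.inv z ∉ M.erase z)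
    (hrel : ∀ g : G, (M.map fun z => S.sl (g • z)).sum = 0) : S.IsW M ∨ S.IsD M := by
  have hv := S.vec_rel hrel
  -- two members are not inverse to each other
  have hap : ∀ z w : Z, ∀ t : Multiset Z, M = z ::ₘ w ::ₘ t → z ≠ w → S.Ap z w := by
    intro z w t e hzw
    refine ⟨hzw, fun h => ?_⟩
    have h1 := hnp w (by rw [e]; simp)
    rw [e, Multiset.cons_swap, Multiset.erase_cons_head, ← h] at h1
    exact h1 (Multiset.mem_cons_self _ _)
  have hdbl : ∀ z : Z, ∀ t : Multiset Z, M = z ::ₘ z ::ₘ t → S.inv z ≠ z := by
    intro z t e h
    have h1 := hnp z (by rw [e]; simp)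
    rw [e, Multiset.erase_cons_head, h] at h1
    exact h1 (Multiset.mem_cons_self _ _)
  by_cases hreal : ∃ z ∈ M, S.inv z = z
  · obtain ⟨z₀, hz₀, h₀⟩ := hreal
    obtain ⟨M', rfl⟩ := Multiset.exists_cons_of_mem hz₀
    rw [Multiset.card_cons] at hc
    have hz0' : z₀ ∉ M' := by
      have h1 := hnp z₀ hz₀
      rwa [Multiset.erase_cons_head, h₀] at h1
    have hnr : ∀ z ∈ M', S.inv z ≠ z := by
      intro z hz e
      rw [S.real_unique e h₀] at hz
      exact hz0' hz
    rw [Multiset.map_cons, Multiset.sum_cons, S.vec_real h₀, zero_add] at hv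
    by_cases hnd : M'.Nodup
    · obtain ⟨a, b, u, rfl⟩ := Multiset.card_eq_three.1 (show M'.card = 3 by omega)
      simp only [Multiset.insert_eq_cons, Multiset.nodup_cons, Multiset.mem_cons,
        Multiset.mem_singleton, not_or, Multiset.nodup_singleton, and_true] at hnd
      obtain ⟨⟨n1, n2⟩, n3⟩ := hnd
      refine S.t_two h₀ (hnr a (by simp)) (hnr b (by simp)) (hnr u (by simp)) ?_ ?_ ?_ ?_
      · refine hap a b (z₀ ::ₘ {u}) ?_ n1
        rw [Multiset.insert_eq_cons, Multiset.insert_eq_cons, Multiset.cons_swap z₀ a,
          Multiset.cons_swap z₀ b]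
      · refine hap a u (z₀ ::ₘ {b}) ?_ n2
        rw [Multiset.insert_eq_cons, Multiset.insert_eq_cons, Multiset.cons_swap z₀ a,
          ← Multiset.insert_eq_cons b {u}, Multiset.pair_comm b u, Multiset.insert_eq_cons,
          Multiset.cons_swap z₀ u]
      · refine hap b u (z₀ ::ₘ {a}) ?_ n3
        rw [Multiset.insert_eq_cons, Multiset.insert_eq_cons, Multiset.cons_swap a b,
          ← Multiset.insert_eq_cons a {u}, Multiset.pair_comm a u, Multiset.insert_eq_cons,
          Multiset.cons_swap z₀ b, Multiset.cons_swap z₀ u]
      · simpa [Multiset.insert_eq_cons, add_assoc] using hv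
    · left
      obtain ⟨a, t, rfl⟩ : ∃ a t, M' = a ::ₘ a ::ₘ t := by
        rw [Multiset.nodup_iff_ne_cons_cons] at hnd
        push Not at hnd
        exact hnd
      rw [Multiset.card_cons, Multiset.card_cons] at hc
      obtain ⟨c, rfl⟩ := Multiset.card_eq_one.1 (show t.card = 1 by omega)
      have ha := hnr a (by simp)
      have hv' : (2 : ℝ) • S.vec a + S.vec c = 0 := by
        rw [← hv]
        simp only [Multiset.map_cons, Multiset.map_singleton, Multiset.sum_cons,
          Multiset.sum_singleton]
        module
      have hac : a ≠ c := by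
        rintro rfl
        have h1 : (3 : ℝ) • S.vec a = 0 := by rw [← hv']; module
        rcases smul_eq_zero.1 h1 with h2 | h2
        · norm_num at h2
        · exact S.vec_ne_zero ha h2
      have hm : 2 ≤ S.mult a := by
        refine le_trans ?_ (hle a)
        rw [Multiset.count_cons_of_ne (by rintro rfl; exact ha h₀), Multiset.count_cons_self,
          Multiset.count_cons_self]
        omega
      refine S.t_five h₀ ha (hnr c (by simp)) ?_ hm hv'
      refine hap a c (z₀ ::ₘ {a}) ?_ hac
      rw [Multiset.cons_swap z₀ a, ← Multiset.insert_eq_cons a {c}, Multiset.pair_comm a c,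
        Multiset.insert_eq_cons, Multiset.cons_swap z₀ c]
  · have hnr : ∀ z ∈ M, S.inv z ≠ z := fun z hz e => hreal ⟨z, hz, e⟩
    left
    by_cases hnd : M.Nodup
    · obtain ⟨a, M', rfl⟩ : ∃ a M', M = a ::ₘ M' := by
        obtain ⟨a, ha⟩ := Multiset.card_pos_iff_exists_mem.1 (show 0 < M.card by omega)
        obtain ⟨M', h⟩ := Multiset.exists_cons_of_mem ha
        exact ⟨a, M', h⟩
      rw [Multiset.card_cons] at hc
      obtain ⟨b, c, d, rfl⟩ := Multiset.card_eq_three.1 (show M'.card = 3 by omega)
      simp only [Multiset.insert_eq_cons, Multiset.nodup_cons, Multiset.mem_cons,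
        Multiset.mem_singleton, not_or, Multiset.nodup_singleton, and_true] at hnd
      obtain ⟨⟨n1, n2, n3⟩, ⟨n4, n5⟩, n6⟩ := hnd
      refine S.exists_real_of_isW hnr fun g => ?_
      have hap' : ∀ z w : Z, z ∈ a ::ₘ {b, c, d} → w ∈ (a ::ₘ {b, c, d} : Multiset Z).erase z →
          z ≠ w → S.Ap z w := by
        intro z w hz hw hzw
        refine hap z w (((a ::ₘ {b, c, d} : Multiset Z).erase z).erase w) ?_ hzw
        rw [Multiset.cons_erase hw, Multiset.cons_erase hz]
      refine S.t_one (hnr a (by simp)) (hnr b (by simp)) (hnr c (by simp)) (hnr d (by simp))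
        ?_ ?_ ?_ ?_ ?_ ?_ ?_ g
      · exact hap' a b (by simp) (by simp) n1
      · exact hap' a c (by simp) (by simp) n2
      · exact hap' a d (by simp) (by simp) n3
      · refine hap' b c (by simp) ?_ n4
        exact (Multiset.mem_erase_of_ne (Ne.symm n4)).2 (by simp)
      · refine hap' b d (by simp) ?_ n5
        exact (Multiset.mem_erase_of_ne (Ne.symm n5)).2 (by simp)
      · refine hap' c d (by simp) ?_ n6
        exact (Multiset.mem_erase_of_ne (Ne.symm n6)).2 (by simp)
      · simpa [Multiset.insert_eq_cons, add_assoc] using hv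
    · obtain ⟨a, t, rfl⟩ : ∃ a t, M = a ::ₘ a ::ₘ t := by
        rw [Multiset.nodup_iff_ne_cons_cons] at hnd
        push Not at hnd
        exact hnd
      rw [Multiset.card_cons, Multiset.card_cons] at hc
      obtain ⟨c, d, rfl⟩ := Multiset.card_eq_two.1 (show t.card = 2 by omega)
      have ha := hnr a (by simp)
      have hc' := hnr c (by simp)
      have hd := hnr d (by simp)
      have hv' : (2 : ℝ) • S.vec a + S.vec c + S.vec d = 0 := by
        rw [← hv]
        simp only [Multiset.insert_eq_cons, Multiset.map_cons, Multiset.map_singleton,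
          Multiset.sum_cons, Multiset.sum_singleton]
        module
      by_cases n1 : a = c
      · subst n1
        have had : a ≠ d := by
          rintro rfl
          have h1 : (4 : ℝ) • S.vec a = 0 := by rw [← hv']; module
          rcases smul_eq_zero.1 h1 with h2 | h2
          · norm_num at h2
          · exact S.vec_ne_zero ha h2
        refine S.exists_real_of_isW hnr fun g => ?_
        refine S.t_four ha hd ?_ ?_ ?_ g
        · refine hap a d {a, a} ?_ had
          simp only [Multiset.insert_eq_cons]
          rw [← Multiset.insert_eq_cons a {d}, Multiset.pair_comm a d, Multiset.insert_eq_cons,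
            Multiset.cons_swap a d]
        · refine le_trans ?_ (hle a)
          simp only [Multiset.insert_eq_cons, Multiset.count_cons_self]
          omega
        · rw [← hv']; module
      · by_cases n2 : a = d
        · subst n2
          refine S.exists_real_of_isW hnr fun g => ?_
          rw [Multiset.pair_comm c a]
          refine S.t_four ha hc' ?_ ?_ ?_ g
          · refine hap a c {a, a} ?_ n1
            simp only [Multiset.insert_eq_cons]
            rw [Multiset.cons_swap a c]
          · refine le_trans ?_ (hle a)
            rw [Multiset.pair_comm c a]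
            simp only [Multiset.insert_eq_cons, Multiset.count_cons_self]
            omega
          · rw [← hv']; module
        · have hac : S.Ap a c := by
            refine hap a c {a, d} ?_ n1
            simp only [Multiset.insert_eq_cons]
            rw [Multiset.cons_swap a c]
          have n3 : c ≠ d := by
            rintro rfl
            refine hac.vec_ne_neg ?_
            have h1 : (2 : ℝ) • (S.vec a + S.vec c) = 0 := by rw [← hv']; module
            rcases smul_eq_zero.1 h1 with h2 | h2
            · norm_num at h2
            · exact eq_neg_of_add_eq_zero_left h2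
          refine S.exists_real_of_isW hnr fun g => ?_
          refine S.t_three ha hc' hd hac ?_ ?_ ?_ hv' g
          · refine hap a d {a, c} ?_ n2
            simp only [Multiset.insert_eq_cons]
            rw [← Multiset.insert_eq_cons c {d}, Multiset.pair_comm c d,
              Multiset.insert_eq_cons, Multiset.cons_swap a d]
          · refine hap c d {a, a} ?_ n3
            simp only [Multiset.insert_eq_cons]
            rw [Multiset.cons_swap a c, Multiset.cons_swap a c,
              ← Multiset.insert_eq_cons a {d}, Multiset.pair_comm a d,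
              Multiset.insert_eq_cons, Multiset.cons_swap a d]
          · refine le_trans ?_ (hle a)
            simp only [Multiset.insert_eq_cons, Multiset.count_cons_self]
            omega

end Pool.Agent.Exo5.SlopeData
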