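import Pool.Agent.Exo5.DPolyA

/-!
# Quadruples of the second type: polynomials and norms
-/

set_option autoImplicit false

namespace Pool.Agent.Exo5

open Polynomial

theorem spl_isGalois (P : ℤ[X]) : IsGalois ℚ (Spl P) := by
  have h1 : Normal ℚ (Spl P) :=
    Polynomial.SplittingField.instNormal (P.map (Int.castRingHom ℚ))
  exact { }

theorem dpoly_quad {L : Type} [Field L] [Algebra ℚ L] [IsGalois ℚ L] [FiniteDimensional ℚ L]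
    (x₁ x₂ x₃ x₄ : L) (h12 : x₁ ≠ x₂) (h13 : x₁ ≠ x₃) (h14 : x₁ ≠ x₄) (h23 : x₂ ≠ x₃)
    (h24 : x₂ ≠ x₄) (h34 : x₃ ≠ x₄) (h2 : ∃ g : L ≃ₐ[ℚ] L, g x₁ = x₂)
    (h3 : ∃ g : L ≃ₐ[ℚ] L, g x₁ = x₃) (h4 : ∃ g : L ≃ₐ[ℚ] L, g x₁ = x₄)
    (h : ∀ g : L ≃ₐ[ℚ] L, g x₁ = x₁ ∨ g x₁ = x₂ ∨ g x₁ = x₃ ∨ g x₁ = x₄) :
    (minpoly ℚ x₁).map (algebraMap ℚ L) = (X - C x₁) * (X - C x₂) * (X - C x₃) * (X - C x₄) := by
  have hint : IsIntegral ℚ x₁ := Algebra.IsIntegral.isIntegral x₁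
  have hm := minpoly.monic hint
  have hsp : ((minpoly ℚ x₁).map (algebraMap ℚ L)).Splits := Normal.splits inferInstance x₁
  have hnd : ((minpoly ℚ x₁).map (algebraMap ℚ L)).roots.Nodup :=
    nodup_roots (Separable.map (f := algebraMap ℚ L)
      (show (minpoly ℚ x₁).Separable from Algebra.IsSeparable.isSeparable ℚ x₁))
  have hr : ((minpoly ℚ x₁).map (algebraMap ℚ L)).roots = {x₁, x₂, x₃, x₄} := by
    rw [Multiset.Nodup.ext hnd (by simp [h12, h13, h14, h23, h24, h34])]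
    intro y
    have h5 : y ∈ ((minpoly ℚ x₁).map (algebraMap ℚ L)).roots ↔ IsConjRoot ℚ x₁ y :=
      (isConjRoot_iff_mem_minpoly_aroots hint).symm
    have h6 : IsConjRoot ℚ x₁ y ↔ ∃ g : L ≃ₐ[ℚ] L, g x₁ = y :=
      ⟨fun hc => isConjRoot_iff_exists_algEquiv.1 hc.symm,
        fun hg => (isConjRoot_iff_exists_algEquiv.2 hg).symm⟩
    rw [h5, h6]
    constructor
    · rintro ⟨g, rfl⟩
      simpa using h g
    · intro hy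
      simp only [Multiset.insert_eq_cons, Multiset.mem_cons, Multiset.mem_singleton] at hy
      rcases hy with rfl | rfl | rfl | rfl
      · exact ⟨1, rfl⟩
      · exact h2
      · exact h3
      · exact h4
  have h6 := hsp.eq_prod_roots
  rw [hr, (hm.map _).leadingCoeff, C_1, one_mul] at h6
  rw [h6]
  simp only [Multiset.insert_eq_cons, Multiset.map_cons, Multiset.map_singleton,
    Multiset.prod_cons, Multiset.prod_singleton, mul_assoc]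

/-- the coefficients of a polynomial of degree four -/
theorem quad_natDegree {L : Type} [Field L] (x₁ x₂ x₃ x₄ : L) :
    ((X - C x₁) * (X - C x₂) * (X - C x₃) * (X - C x₄)).natDegree = 4 := by
  have h1 : ((X - C x₁) * (X - C x₂) * (X - C x₃) * (X - C x₄)) =
      (({x₁, x₂, x₃, x₄} : Multiset L).map fun x => X - C x).prod := by
    simp only [Multiset.insert_eq_cons, Multiset.map_cons, Multiset.map_singleton,
      Multiset.prod_cons, Multiset.prod_singleton, mul_assoc]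
  rw [h1, natDegree_multiset_prod_X_sub_C_eq_card]
  rfl

theorem quad_coeff {L : Type} [Field L] (x₁ x₂ x₃ x₄ : L) :
    ((X - C x₁) * (X - C x₂) * (X - C x₃) * (X - C x₄)).coeff 3 = -(x₁ + x₂ + x₃ + x₄) ∧
    ((X - C x₁) * (X - C x₂) * (X - C x₃) * (X - C x₄)).coeff 2 =
      x₁ * x₂ + x₁ * x₃ + x₁ * x₄ + x₂ * x₃ + x₂ * x₄ + x₃ * x₄ := by
  have h1 : (X - C x₁) * (X - C x₂) * (X - C x₃) * (X - C x₄) =
      X ^ 4 + C (-(x₁ + x₂ + x₃ + x₄)) * X ^ 3 +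
        C (x₁ * x₂ + x₁ * x₃ + x₁ * x₄ + x₂ * x₃ + x₂ * x₄ + x₃ * x₄) * X ^ 2 +
        C (-(x₁ * x₂ * x₃ + x₁ * x₂ * x₄ + x₁ * x₃ * x₄ + x₂ * x₃ * x₄)) * X ^ 1 +
        C (x₁ * x₂ * x₃ * x₄) := by
    simp only [C_add, C_neg, C_mul]
    ring
  rw [h1]
  constructor <;> simp only [coeff_add, coeff_C_mul, coeff_X_pow, coeff_C] <;> norm_num

section Norm

variable {A : Type} [NormedField A] [IsUltrametricDist A]

theorem norm_add_lt {x y : A} (hx : ‖x‖ < 1) (hy : ‖y‖ < 1) : ‖x + y‖ < 1 :=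
  lt_of_le_of_lt (IsUltrametricDist.norm_add_le_max x y) (max_lt hx hy)

theorem norm_add_one {x y : A} (hx : ‖x‖ = 1) (hy : ‖y‖ < 1) : ‖x + y‖ = 1 := by
  rw [IsUltrametricDist.norm_add_eq_max_of_norm_ne_norm (by rw [hx]; exact hy.ne'), hx,
    max_eq_left hy.le]

theorem norm_mul_lt {x y : A} (hx : ‖x‖ < 1) (hy : ‖y‖ ≤ 1) : ‖x * y‖ < 1 := by
  rw [norm_mul]
  calc ‖x‖ * ‖y‖ ≤ ‖x‖ * 1 := mul_le_mul_of_nonneg_left hy (norm_nonneg _)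
    _ < 1 := by rw [mul_one]; exact hx

/-- one unit, three small elements -/
theorem norm_one_three {x₁ x₂ x₃ x₄ : A} (h1 : ‖x₁‖ = 1) (h2 : ‖x₂‖ < 1) (h3 : ‖x₃‖ < 1)
    (h4 : ‖x₄‖ < 1) : ‖-(x₁ + x₂ + x₃ + x₄)‖ = 1 ∧
      ‖x₁ * x₂ + x₁ * x₃ + x₁ * x₄ + x₂ * x₃ + x₂ * x₄ + x₃ * x₄‖ < 1 := by
  constructor
  · rw [norm_neg]
    exact norm_add_one (norm_add_one (norm_add_one h1 h2) h3) h4
  · have e : ∀ {y : A}, ‖y‖ < 1 → ‖x₁ * y‖ < 1 := by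
      intro y hy
      rw [mul_comm]
      exact norm_mul_lt hy h1.le
    exact norm_add_lt (norm_add_lt (norm_add_lt (norm_add_lt (norm_add_lt (e h2) (e h3)) (e h4))
      (norm_mul_lt h2 h3.le)) (norm_mul_lt h2 h4.le)) (norm_mul_lt h3 h4.le)

/-- two units, two small elements -/
theorem norm_two_two {x₁ x₂ x₃ x₄ : A} (h1 : ‖x₁‖ = 1) (h2 : ‖x₂‖ < 1) (h3 : ‖x₃‖ = 1)
    (h4 : ‖x₄‖ < 1) :
      ‖x₁ * x₂ + x₁ * x₃ + x₁ * x₄ + x₂ * x₃ + x₂ * x₄ + x₃ * x₄‖ = 1 := by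
  have e : ∀ {y : A}, ‖y‖ < 1 → ‖x₁ * y‖ < 1 := by
    intro y hy
    rw [mul_comm]
    exact norm_mul_lt hy h1.le
  have e' : ∀ {y : A}, ‖y‖ < 1 → ‖x₃ * y‖ < 1 := by
    intro y hy
    rw [mul_comm]
    exact norm_mul_lt hy h3.le
  have h5 : ‖x₁ * x₃‖ = 1 := by rw [norm_mul, h1, h3, one_mul]
  have h6 : x₁ * x₂ + x₁ * x₃ + x₁ * x₄ + x₂ * x₃ + x₂ * x₄ + x₃ * x₄ =
      x₁ * x₃ + (x₁ * x₂ + x₁ * x₄ + x₃ * x₂ + x₂ * x₄ + x₃ * x₄) := by ring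
  rw [h6]
  exact norm_add_one h5 (norm_add_lt (norm_add_lt (norm_add_lt (norm_add_lt (e h2) (e h4))
    (e' h2)) (norm_mul_lt h2 h4.le)) (e' h4))

/-- one unit, three small elements, in any order -/
theorem norm_one_three' {x₁ x₂ x₃ x₄ : A}
    (h : (‖x₁‖ = 1 ∧ ‖x₂‖ < 1 ∧ ‖x₃‖ < 1 ∧ ‖x₄‖ < 1) ∨ (‖x₂‖ = 1 ∧ ‖x₁‖ < 1 ∧ ‖x₃‖ < 1 ∧ ‖x₄‖ < 1) ∨
      (‖x₃‖ = 1 ∧ ‖x₁‖ < 1 ∧ ‖x₂‖ < 1 ∧ ‖x₄‖ < 1) ∨ (‖x₄‖ = 1 ∧ ‖x₁‖ < 1 ∧ ‖x₂‖ < 1 ∧ ‖x₃‖ < 1)) :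
    ‖-(x₁ + x₂ + x₃ + x₄)‖ = 1 ∧
      ‖x₁ * x₂ + x₁ * x₃ + x₁ * x₄ + x₂ * x₃ + x₂ * x₄ + x₃ * x₄‖ < 1 := by
  rcases h with ⟨h1, h2, h3, h4⟩ | ⟨h1, h2, h3, h4⟩ | ⟨h1, h2, h3, h4⟩ | ⟨h1, h2, h3, h4⟩
  · exact norm_one_three h1 h2 h3 h4
  · have h5 := norm_one_three h1 h2 h3 h4
    constructor
    · convert h5.1 using 2; ring
    · convert h5.2 using 2; ring
  · have h5 := norm_one_three h1 h2 h3 h4
    constructor
    · convert h5.1 using 2; ring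
    · convert h5.2 using 2; ring
  · have h5 := norm_one_three h1 h2 h3 h4
    constructor
    · convert h5.1 using 2; ring
    · convert h5.2 using 2; ring

/-- two units, two small elements, in any order -/
theorem norm_two_two' {x₁ x₂ x₃ x₄ : A}
    (h : (‖x₁‖ = 1 ∧ ‖x₂‖ < 1) ∨ (‖x₂‖ = 1 ∧ ‖x₁‖ < 1))
    (h' : (‖x₃‖ = 1 ∧ ‖x₄‖ < 1) ∨ (‖x₄‖ = 1 ∧ ‖x₃‖ < 1)) :
      ‖x₁ * x₂ + x₁ * x₃ + x₁ * x₄ + x₂ * x₃ + x₂ * x₄ + x₃ * x₄‖ = 1 := by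
  rcases h with ⟨h1, h2⟩ | ⟨h1, h2⟩ <;> rcases h' with ⟨h3, h4⟩ | ⟨h3, h4⟩
  · exact norm_two_two h1 h2 h3 h4
  · have h5 := norm_two_two h1 h2 h3 h4
    convert h5 using 2; ring
  · have h5 := norm_two_two h1 h2 h3 h4
    convert h5 using 2; ring
  · have h5 := norm_two_two h1 h2 h3 h4
    convert h5 using 2; ring

end Norm

/-- the norm of a rational number in the algebraic closure of `ℚ_p` -/
theorem norm_emb_rat (P : ℤ[X]) (p : ℕ) [Fact p.Prime] (r : ℚ) :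
    ‖emb P p (algebraMap ℚ (Spl P) r)‖ = ‖(r : ℚ_[p])‖ := by
  have h1 : emb P p (algebraMap ℚ (Spl P) r) = algebraMap ℚ_[p] (PadicAlgCl p) (r : ℚ_[p]) := by
    rw [eq_ratCast, map_ratCast, map_ratCast]
  rw [h1]
  exact PadicAlgCl.norm_extends p (r : ℚ_[p])

end Pool.Agent.Exo5
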