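import Pool.Agent.Exo5.Conj
import Pool.Agent.Exo5.DPolyB

/-!
# Quadruples of eigenvalues of the second type

PACKAGE Exo5-DPoly (statement frozen). Proof (`q = p ^ a`, `φ = emb P p`, `L = Spl P`; `z₀ a b u v`
and `h : S.DFour z₀ a' b u v` from `hD`):
(1) `z₀.val` is fixed by `Gr P` (`S.smul_real`), so it is a rational `c`, with `c ^ 2 = q`
(`hS.inv`, `h.real`).
(2) `P₁ = minpoly ℚ a.val`: the orbit of `a` is `{a, inv a, b, inv b}` (four different elements:
`h.conj_ab`, `S.c_smul`; it contains no `u, v` as ... see below), so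
`P₁ = (X - a)(X - inv a)(X - b)(X - inv b)` over `L`, likewise `P₂ = minpoly ℚ u.val` with the
orbit `{u, inv u, v, inv v}`. The orbit of `a` does not contain `u`: the vectors of `a` and `u` have
different lengths (`ip_smul_self`: `vec u = - (vec a + vec b)` by `h.rel`, and `vec a ⊥ vec b` by
`h.fix` and `ip_smul`, so `|u|² = |a|² + |b|² > |a|²`, `S.vec_ne_zero`), and the same for `v` by
`h.conj_uv`, and for `inv u`, `inv v`. (An easier way to get `P₁` without `minpoly`: the polynomial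
`(X - a)(X - inv a)(X - b)(X - inv b)` is fixed by `Gr P`, so it comes from `P₁` in `ℚ[X]`; it is
irreducible because `Gr P` acts transitively on its four different roots.)
(3) `P = P₁ P₂ (X - c) ^ 2`: the polynomial splits over `L`, the roots with multiplicities are
given by `h.cover`, `h.m₀`, `h.ma`, `h.mb`, `h.mu`, `h.mv`, `S.mult_inv`, `hS.mult`.
(4) the norms: `sl z = 1/2` means `‖φ z‖ = ‖q‖ < 1`, `sl z = -1/2` means `‖φ z‖ = 1`, `sl z = 0`
means `‖φ z‖ = ‖q‖ ^ (1/2) < 1`. By `h.slab` exactly one of `a, inv a, b, inv b` has norm one, the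
other three have norm `< 1`: `P₁.coeff 3 = -(sum)` has norm one, `P₁.coeff 2` has norm `< 1`
(ultrametric). By `h.slu`, `h.slv` exactly two of `u, inv u, v, inv v` have norm one:
`‖P₂.coeff 2‖ = 1`. (`φ` restricted to `ℚ` is `ℚ → ℚ_[p] → PadicAlgCl p`; the norm extends.)
(5) `b ∉ ℚ(a)`: the `g` from `h.fix` fixes `a`, so all elements of `ℚ(a)`, but `g b = inv b ≠ b`.
(6) take `μ₁ = a`, `μ₂ = b`, `ν = u`; `M = {z₀, a, b, u}`.
-/

set_option autoImplicit false

namespace Pool.Agent.Exo5

open Polynomial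

private theorem dp_val_ne_zero {P : ℤ[X]} {p a : ℕ} [Fact p.Prime] (hP : IsFrobPoly P p a)
    (z : Ev P) : z.val ≠ 0 := by
  intro h0
  have h1 := (mem_roots'.1 z.mem).2
  rw [IsRoot.def, h0, eval_map, eval₂_at_zero] at h1
  have h2 : P.coeff 0 = 0 := by
    have : ((P.coeff 0 : ℤ) : Spl P) = 0 := h1
    exact_mod_cast this
  have h3 : aeval (0 : ℂ) P = 0 := by
    rw [aeval_def, eval₂_at_zero, h2, map_zero]
  have h4 := hP.weil 0 h3
  rw [norm_zero, zero_pow two_ne_zero] at h4
  have h5 : (0 : ℝ) < ((p ^ a : ℕ) : ℝ) := by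
    exact_mod_cast pow_pos (Fact.out : p.Prime).pos a
  linarith

private theorem dp_norm {P : ℤ[X]} {p a : ℕ} [Fact p.Prime] (hP : IsFrobPoly P p a)
    (ha : 0 < a) {S : SlopeData (Gr P) (Ev P)} (hS : IsData P p a S) (z : Ev P) :
    (S.sl z = -(1 / 2) → ‖emb P p z.val‖ = 1) ∧ (-(1 / 2) < S.sl z → ‖emb P p z.val‖ < 1) := by
  have hpos : 0 < ‖emb P p z.val‖ := by
    rw [norm_pos_iff]
    exact (_root_.map_ne_zero _).2 (dp_val_ne_zero hP z)
  have hq : ‖((p ^ a : ℕ) : ℚ_[p])‖ < 1 := by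
    rw [Nat.cast_pow, norm_pow]
    exact pow_lt_one₀ (norm_nonneg _) Padic.norm_p_lt_one ha.ne'
  have hq0 : 0 < ‖((p ^ a : ℕ) : ℚ_[p])‖ := by
    rw [norm_pos_iff]
    exact_mod_cast (pow_pos (Fact.out : p.Prime).pos a).ne'
  have hL := Real.log_neg hq0 hq
  have h := hS.sl z
  constructor
  · intro h1
    rw [h1] at h
    have h2 : Real.log ‖emb P p z.val‖ / Real.log ‖((p ^ a : ℕ) : ℚ_[p])‖ = 0 := by linarith
    rw [div_eq_zero_iff] at h2
    rcases h2 with h2 | h2
    · exact Real.eq_one_of_pos_of_log_eq_zero hpos h2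
    · exact absurd h2 hL.ne
  · intro h1
    have h2 : 0 < Real.log ‖emb P p z.val‖ / Real.log ‖((p ^ a : ℕ) : ℚ_[p])‖ := by linarith
    have h3 : Real.log ‖emb P p z.val‖ < 0 := by
      by_contra h4
      rw [not_lt] at h4
      exact absurd h2 (not_lt.2 (div_nonpos_of_nonneg_of_nonpos h4 hL.le))
    exact (Real.log_neg_iff hpos).1 h3

private theorem dp_roots {P : ℤ[X]} {p a : ℕ} [Fact p.Prime]
    {S : SlopeData (Gr P) (Ev P)} (hS : IsData P p a S) {z₀ a' b u v : Ev P}
    (h : S.DFour z₀ a' b u v) : (P.map (Int.castRingHom (Spl P))).roots =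
      ({a', S.inv a', b, S.inv b, u, S.inv u, v, S.inv v, z₀, z₀} : Multiset (Ev P)).map
        Ev.val := by
  classical
  ext y
  by_cases hy : y ∈ (P.map (Int.castRingHom (Spl P))).roots
  · have h1 := h.count (Ev.mk y hy)
    have h2 := Multiset.count_map_eq_count' Ev.val
      ({a', S.inv a', b, S.inv b, u, S.inv u, v, S.inv v, z₀, z₀} : Multiset (Ev P))
      (fun _ _ e => Ev.ext e) (Ev.mk y hy)
    rw [Ev.val_mk] at h2
    rw [h2, count_roots]
    have h3 := hS.mult (Ev.mk y hy)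
    rw [Ev.val_mk] at h3
    rw [← h3, ← h1]
  · rw [Multiset.count_eq_zero_of_notMem hy, Multiset.count_eq_zero_of_notMem]
    intro h1
    obtain ⟨w, _, rfl⟩ := Multiset.mem_map.1 h1
    exact hy w.mem

theorem isDFourType_of_isD {P : ℤ[X]} {p a : ℕ} [Fact p.Prime] (hP : IsFrobPoly P p a)
    (ha : 0 < a) {S : SlopeData (Gr P) (Ev P)} (hS : IsData P p a S) {M : Multiset (Ev P)}
    (hD : S.IsD M) {m : ℕ}
    (hprod : (M.map Ev.val).prod ^ m = ((p ^ a : ℕ) : Spl P) ^ (2 * m)) :
    IsDFourType P p a m (M.map Ev.val) := by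
  have hG := spl_isGalois P
  obtain ⟨z₀, a', b, u, v, h, rfl⟩ := hD
  have hinv : ∀ z : Ev P, z.val * (S.inv z).val = ((p ^ a : ℕ) : Spl P) := by
    intro z
    rw [hS.inv z, mul_div_cancel₀ _ (dp_val_ne_zero hP z)]
  have hinj : ∀ {x y : Ev P}, x ≠ y → x.val ≠ y.val := fun {x y} hxy e => hxy (Ev.ext e)
  obtain ⟨c, hc⟩ := (IsGalois.mem_range_algebraMap_iff_fixed (F := ℚ) z₀.val).2 (fun g => by
    have h1 : (g • z₀).val = z₀.val := by rw [S.smul_real g h.real]
    exact h1)
  have hc2 : c ^ 2 = ((p ^ a : ℕ) : ℚ) := by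
    apply (algebraMap ℚ (Spl P)).injective
    rw [map_pow, hc, map_natCast, ← hinv z₀, h.real, sq]
  have e₁ : (minpoly ℚ a'.val).map (algebraMap ℚ (Spl P)) =
      (X - C a'.val) * (X - C (S.inv a').val) * (X - C b.val) * (X - C (S.inv b).val) := by
    obtain ⟨g, hg⟩ := h.conj_ab
    refine dpoly_quad _ _ _ _ (hinj h.nra.symm) (hinj h.ab.1) (hinj h.ab.2)
      (hinj h.ab.inv_left.1) (hinj h.ab.inv_left.2) (hinj h.nrb.symm) ⟨S.c, ?_⟩ ⟨g, ?_⟩
      ⟨S.c * g, ?_⟩ ?_
    · rw [← Ev.val_smul, S.c_smul]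
    · rw [← Ev.val_smul, hg]
    · rw [← Ev.val_smul, mul_smul, hg, S.c_smul]
    · intro g
      rw [← Ev.val_smul]
      rcases h.orbit_a g with e | e | e | e <;> rw [e] <;> simp
  have e₂ : (minpoly ℚ u.val).map (algebraMap ℚ (Spl P)) =
      (X - C u.val) * (X - C (S.inv u).val) * (X - C v.val) * (X - C (S.inv v).val) := by
    obtain ⟨g, hg⟩ := h.conj_uv
    refine dpoly_quad _ _ _ _ (hinj h.nru.symm) (hinj h.uv.1) (hinj h.uv.2)
      (hinj h.uv.inv_left.1) (hinj h.uv.inv_left.2) (hinj h.nrv.symm) ⟨S.c, ?_⟩ ⟨g, ?_⟩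
      ⟨S.c * g, ?_⟩ ?_
    · rw [← Ev.val_smul, S.c_smul]
    · rw [← Ev.val_smul, hg]
    · rw [← Ev.val_smul, mul_smul, hg, S.c_smul]
    · intro g
      rw [← Ev.val_smul]
      rcases h.orbit_u g with e | e | e | e <;> rw [e] <;> simp
  have hPm : P.map (Int.castRingHom ℚ) =
      minpoly ℚ a'.val * minpoly ℚ u.val * (X - C c) ^ 2 := by
    apply Polynomial.map_injective _ (algebraMap ℚ (Spl P)).injective
    have h1 : (P.map (Int.castRingHom ℚ)).map (algebraMap ℚ (Spl P)) =
        P.map (Int.castRingHom (Spl P)) := by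
      rw [Polynomial.map_map]
      congr 1
    have h2 : (P.map (Int.castRingHom (Spl P))).Splits := by
      rw [← h1]
      exact SplittingField.splits (P.map (Int.castRingHom ℚ))
    have h3 := h2.eq_prod_roots
    rw [dp_roots hS h, (hP.monic.map _).leadingCoeff, C_1, one_mul] at h3
    rw [h1, h3, Polynomial.map_mul, Polynomial.map_mul, e₁, e₂, Polynomial.map_pow,
      Polynomial.map_sub, map_X, map_C, hc]
    simp only [Multiset.insert_eq_cons, Multiset.map_cons, Multiset.map_singleton,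
      Multiset.prod_cons, Multiset.prod_singleton]
    generalize (X - C a'.val : (Spl P)[X]) = A₁
    generalize (X - C (S.inv a').val : (Spl P)[X]) = A₂
    generalize (X - C b.val : (Spl P)[X]) = A₃
    generalize (X - C (S.inv b).val : (Spl P)[X]) = A₄
    generalize (X - C u.val : (Spl P)[X]) = A₅
    generalize (X - C (S.inv u).val : (Spl P)[X]) = A₆
    generalize (X - C v.val : (Spl P)[X]) = A₇
    generalize (X - C (S.inv v).val : (Spl P)[X]) = A₈
    generalize (X - C z₀.val : (Spl P)[X]) = A₉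
    ring
  have hcoef : ∀ (Q : ℚ[X]) (i : ℕ), ‖(Q.coeff i : ℚ_[p])‖ =
      ‖emb P p ((Q.map (algebraMap ℚ (Spl P))).coeff i)‖ := by
    intro Q i
    rw [coeff_map, norm_emb_rat]
  have hint : ∀ x : Spl P, IsIntegral ℚ x := fun x => Algebra.IsIntegral.isIntegral x
  have hn := dp_norm hP ha hS
  have hna : ‖emb P p (-(a'.val + (S.inv a').val + b.val + (S.inv b).val))‖ = 1 ∧
      ‖emb P p (a'.val * (S.inv a').val + a'.val * b.val + a'.val * (S.inv b).val +
        (S.inv a').val * b.val + (S.inv a').val * (S.inv b).val + b.val * (S.inv b).val)‖ < 1 := by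
    simp only [map_neg, map_add, map_mul]
    apply norm_one_three'
    have ia := S.sl_inv a'
    have ib := S.sl_inv b
    rcases h.slab with ⟨s1, s2⟩ | ⟨s1, s2⟩
    · rcases abs_eq (by norm_num : (0 : ℝ) ≤ 1 / 2) |>.1 s1 with s1 | s1
      · right; left
        exact ⟨(hn _).1 (by linarith), (hn _).2 (by linarith), (hn _).2 (by linarith),
          (hn _).2 (by linarith)⟩
      · left
        exact ⟨(hn _).1 (by linarith), (hn _).2 (by linarith), (hn _).2 (by linarith),
          (hn _).2 (by linarith)⟩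
    · rcases abs_eq (by norm_num : (0 : ℝ) ≤ 1 / 2) |>.1 s2 with s2 | s2
      · right; right; right
        exact ⟨(hn _).1 (by linarith), (hn _).2 (by linarith), (hn _).2 (by linarith),
          (hn _).2 (by linarith)⟩
      · right; right; left
        exact ⟨(hn _).1 (by linarith), (hn _).2 (by linarith), (hn _).2 (by linarith),
          (hn _).2 (by linarith)⟩
  have hnu : ‖emb P p (u.val * (S.inv u).val + u.val * v.val + u.val * (S.inv v).val +
        (S.inv u).val * v.val + (S.inv u).val * (S.inv v).val + v.val * (S.inv v).val)‖ = 1 := by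
    simp only [map_add, map_mul]
    have iu := S.sl_inv u
    have iv := S.sl_inv v
    apply norm_two_two'
    · rcases abs_eq (by norm_num : (0 : ℝ) ≤ 1 / 2) |>.1 h.slu with s1 | s1
      · right
        exact ⟨(hn _).1 (by linarith), (hn _).2 (by linarith)⟩
      · left
        exact ⟨(hn _).1 (by linarith), (hn _).2 (by linarith)⟩
    · rcases abs_eq (by norm_num : (0 : ℝ) ≤ 1 / 2) |>.1 h.slv with s1 | s1
      · right
        exact ⟨(hn _).1 (by linarith), (hn _).2 (by linarith)⟩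
      · left
        exact ⟨(hn _).1 (by linarith), (hn _).2 (by linarith)⟩
  have hb0 : aeval b.val (minpoly ℚ a'.val) = 0 := by
    rw [← eval_map_algebraMap, e₁]
    simp
  have hadj : b.val ∉ IntermediateField.adjoin ℚ {a'.val} := by
    obtain ⟨g, h1, h2⟩ := h.fix
    intro hb
    have h3 : IntermediateField.adjoin ℚ {a'.val} ≤
        IntermediateField.fixedField (Subgroup.zpowers g) := by
      rw [IntermediateField.adjoin_le_iff, Set.singleton_subset_iff]
      have h4 : Subgroup.zpowers g ≤ MulAction.stabilizer (Gr P) a' := by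
        rw [Subgroup.zpowers_le]
        exact h1
      intro f
      have h5 : f.1 • a' = a' := h4 f.2
      have h6 := congrArg Ev.val h5
      exact h6
    have h7 := h3 hb ⟨g, Subgroup.mem_zpowers g⟩
    have h8 : (g • b).val = b.val := h7
    rw [h2] at h8
    exact h.nrb (Ev.ext h8)
  refine ⟨minpoly ℚ a'.val, minpoly ℚ u.val, c, a'.val, b.val, u.val,
    minpoly.monic (hint _), minpoly.irreducible (hint _), ?_, minpoly.monic (hint _),
    minpoly.irreducible (hint _), ?_, hc2, hPm, ?_, ?_, ?_, minpoly.aeval ℚ _, hb0,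
    minpoly.aeval ℚ _, hadj, ?_, hprod⟩
  · rw [← natDegree_map (algebraMap ℚ (Spl P)), e₁, quad_natDegree]
  · rw [← natDegree_map (algebraMap ℚ (Spl P)), e₂, quad_natDegree]
  · rw [hcoef, e₁, (quad_coeff _ _ _ _).1]
    exact hna.1
  · rw [hcoef, e₁, (quad_coeff _ _ _ _).2]
    exact hna.2
  · rw [hcoef, e₂, (quad_coeff _ _ _ _).2]
    exact hnu
  · have h9 : z₀.val = ((c : ℚ) : Spl P) := by rw [← hc, eq_ratCast]
    simp only [Multiset.insert_eq_cons, Multiset.map_cons, Multiset.map_singleton, h9]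

end Pool.Agent.Exo5
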