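import Pool.Agent.Exo5.Setup

/-!
# Quadruples of the second type: orbits and multiplicities
-/

set_option autoImplicit false

namespace Pool.Agent.Exo5

namespace SlopeData

variable {G Z : Type} [Group G] [Fintype G] [Fintype Z] [DecidableEq Z] [MulAction G Z]

variable {S : SlopeData G Z}

/-- the length -/
private def len (S : SlopeData G Z) (z : Z) : ℝ := ip (S.vec z) (S.vec z)

private theorem len_smul (g : G) (z : Z) : len S (g • z) = len S z := S.ip_smul_self g z

private theorem len_inv (z : Z) : len S (S.inv z) = len S z := S.ip_inv_self z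

private theorem len_pos {z : Z} (h : S.inv z ≠ z) : 0 < len S z := by
  refine lt_of_le_of_ne (ip_self_nonneg _) fun h0 => ?_
  exact S.vec_ne_zero h (eq_zero_of_ip_self h0.symm)

theorem DFour.ip_ab {z₀ a b u v : Z} (h : S.DFour z₀ a b u v) : ip (S.vec a) (S.vec b) = 0 := by
  obtain ⟨g, h1, h2⟩ := h.fix
  have h3 := S.ip_smul g a b
  rw [h1, h2, vec_inv, ip_neg_right] at h3
  linarith

private theorem DFour.len_u {z₀ a b u v : Z} (h : S.DFour z₀ a b u v) :
    len S u = len S a + len S b := by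
  have h1 : S.vec u = -(S.vec a + S.vec b) := by
    funext g
    have := h.rel g
    simp only [Pi.neg_apply, Pi.add_apply]
    linarith
  unfold len
  rw [h1, ip_neg_left, ip_neg_right, neg_neg, ip_add_left, ip_add_right, ip_add_right,
    ip_comm (S.vec b) (S.vec a), h.ip_ab]
  ring

private theorem DFour.len_b {z₀ a b u v : Z} (h : S.DFour z₀ a b u v) : len S b = len S a := by
  obtain ⟨g, hg⟩ := h.conj_ab
  rw [← hg, len_smul]

private theorem DFour.len_v {z₀ a b u v : Z} (h : S.DFour z₀ a b u v) : len S v = len S u := by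
  obtain ⟨g, hg⟩ := h.conj_uv
  rw [← hg, len_smul]

theorem DFour.orbit_a {z₀ a b u v : Z} (h : S.DFour z₀ a b u v) (g : G) :
    g • a = a ∨ g • a = S.inv a ∨ g • a = b ∨ g • a = S.inv b := by
  have h1 := len_smul (S := S) g a
  have h2 := h.len_u
  have h3 := h.len_b
  have h4 := h.len_v
  have h5 := len_pos h.nra
  rcases h.cover (g • a) with e | e | e | e | e | e | e | e | e
  · exact absurd (e ▸ h.real) (S.nonreal_smul g h.nra)
  · exact Or.inl e
  · exact Or.inr (Or.inl e)
  · exact Or.inr (Or.inr (Or.inl e))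
  · exact Or.inr (Or.inr (Or.inr e))
  · rw [e] at h1
    linarith
  · rw [e, len_inv] at h1
    linarith
  · rw [e] at h1
    linarith
  · rw [e, len_inv] at h1
    linarith

theorem DFour.orbit_u {z₀ a b u v : Z} (h : S.DFour z₀ a b u v) (g : G) :
    g • u = u ∨ g • u = S.inv u ∨ g • u = v ∨ g • u = S.inv v := by
  have h1 := len_smul (S := S) g u
  have h2 := h.len_u
  have h3 := h.len_b
  have h4 := h.len_v
  have h5 := len_pos h.nra
  rcases h.cover (g • u) with e | e | e | e | e | e | e | e | e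
  · exact absurd (e ▸ h.real) (S.nonreal_smul g h.nru)
  · rw [e] at h1
    linarith
  · rw [e, len_inv] at h1
    linarith
  · rw [e] at h1
    linarith
  · rw [e, len_inv] at h1
    linarith
  · exact Or.inl e
  · exact Or.inr (Or.inl e)
  · exact Or.inr (Or.inr (Or.inl e))
  · exact Or.inr (Or.inr (Or.inr e))

theorem DFour.count {z₀ a b u v : Z} (h : S.DFour z₀ a b u v) (w : Z) :
    Multiset.count w {a, S.inv a, b, S.inv b, u, S.inv u, v, S.inv v, z₀, z₀} = S.mult w := by
  have rz : ∀ {x : Z}, S.inv x ≠ x → z₀ ≠ x := by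
    rintro x hx rfl
    exact hx h.real
  have rz' : ∀ {x : Z}, S.inv x ≠ x → z₀ ≠ S.inv x := fun {x} hx => rz (S.nonreal_inv hx)
  have apc : ∀ {x y : Z}, S.Ap x y → x ≠ y ∧ x ≠ S.inv y ∧ S.inv x ≠ y ∧ S.inv x ≠ S.inv y :=
    fun {x y} hxy => ⟨hxy.1, hxy.2, hxy.inv_left.1, hxy.inv_left.2⟩
  obtain ⟨ab1, ab2, ab3, ab4⟩ := apc h.ab
  obtain ⟨au1, au2, au3, au4⟩ := apc h.au
  obtain ⟨av1, av2, av3, av4⟩ := apc h.av
  obtain ⟨bu1, bu2, bu3, bu4⟩ := apc h.bu
  obtain ⟨bv1, bv2, bv3, bv4⟩ := apc h.bv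
  obtain ⟨uv1, uv2, uv3, uv4⟩ := apc h.uv
  obtain ⟨ba1, ba2, ba3, ba4⟩ := apc h.ab.symm
  obtain ⟨ua1, ua2, ua3, ua4⟩ := apc h.au.symm
  obtain ⟨va1, va2, va3, va4⟩ := apc h.av.symm
  obtain ⟨ub1, ub2, ub3, ub4⟩ := apc h.bu.symm
  obtain ⟨vb1, vb2, vb3, vb4⟩ := apc h.bv.symm
  obtain ⟨vu1, vu2, vu3, vu4⟩ := apc h.uv.symm
  have ra := h.nra
  have rb := h.nrb
  have ru := h.nru
  have rv := h.nrv
  have za := rz ra
  have zb := rz rb
  have zu := rz ru
  have zv := rz rv
  have za' := rz' ra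
  have zb' := rz' rb
  have zu' := rz' ru
  have zv' := rz' rv
  simp only [Multiset.insert_eq_cons, Multiset.count_cons, Multiset.count_singleton]
  rcases h.cover w with e | e | e | e | e | e | e | e | e <;> rw [e]
  · rw [h.m₀]
    simp only [za, za', zb, zb', zu, zu', zv, zv', if_true, if_false]
  · rw [h.ma]
    simp only [ra.symm, za.symm, ab1, ab2, au1, au2, av1, av2, if_true, if_false]
  · rw [S.mult_inv, h.ma]
    simp only [ra, za'.symm, ab3, ab4, au3, au4, av3, av4, if_true, if_false]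
  · rw [h.mb]
    simp only [rb.symm, zb.symm, ba1, ba2, bu1, bu2, bv1, bv2, if_true, if_false]
  · rw [S.mult_inv, h.mb]
    simp only [rb, zb'.symm, ba3, ba4, bu3, bu4, bv3, bv4, if_true, if_false]
  · rw [h.mu]
    simp only [ru.symm, zu.symm, ua1, ua2, ub1, ub2, uv1, uv2, if_true, if_false]
  · rw [S.mult_inv, h.mu]
    simp only [ru, zu'.symm, ua3, ua4, ub3, ub4, uv3, uv4, if_true, if_false]
  · rw [h.mv]
    simp only [rv.symm, zv.symm, va1, va2, vb1, vb2, vu1, vu2, if_true, if_false]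
  · rw [S.mult_inv, h.mv]
    simp only [rv, zv'.symm, va3, va4, vb3, vb4, vu3, vu4, if_true, if_false]

end SlopeData

end Pool.Agent.Exo5
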