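import Pool.Agent.Exo5.Conj

/-!
# The slopes at all places determine the root

PACKAGE Exo5-Kron (statement frozen). Proof (`q = p ^ a`, `φ = emb P p`): let `w' = q / w`
(an algebraic integer: in `ℂ` it is the conjugate of `w`), and `u = z / w = z * w' / q` in
`L = Spl P`.
(1) `q * u = z * w'` is an algebraic integer (`z`, `w'` are roots of the monic polynomial `P`).
(2) `Q = ∏_{g : Gr P} (X - g u)` is fixed by `Gr P`, so its coefficients are rational
(`IsGalois ℚ (Spl P)`: splitting field in characteristic zero; an element fixed by all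
`g : L ≃ₐ[ℚ] L` is in the range of `algebraMap ℚ L`).
(3) `‖φ (g u)‖ = 1` for all `g`, so the coefficients `r` of `Q` satisfy `‖(r : ℚ_[p])‖ ≤ 1`
(ultrametric; `φ` restricted to `ℚ` is the map `ℚ → ℚ_[p] → PadicAlgCl p`, and the norm on
`PadicAlgCl p` extends the norm of `ℚ_[p]`), and `q ^ N * r` is an algebraic integer with
`N = card (Gr P)`, so an integer. Hence `r` is an integer (denominator prime to `p` and a power of
`p`): `u` is a root of a monic polynomial over `ℤ`, so `IsIntegral ℤ u`.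
(4) for every `σ : L →+* ℂ`: `‖σ u‖ = 1` by `hP.weil`. Kronecker:
`NumberField.Embeddings.pow_eq_one_of_norm_eq_one` gives `n > 0` with `u ^ n = 1`.
(5) so `z ^ n = w ^ n`; take an embedding in `ℂ` and use `Neat`.
-/

set_option autoImplicit false

namespace Pool.Agent.Exo5

open Polynomial

/-- a product of linear factors with the roots in a subring has its coefficients there -/
private theorem coeff_prod_mem {R : Type*} [CommRing R] (S : Subring R) {I : Type*} (T : Finset I)
    (a b : I → R) (ha : ∀ i ∈ T, a i ∈ S) (hb : ∀ i ∈ T, b i ∈ S) (n : ℕ) :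
    (∏ i ∈ T, (C (b i) * X - C (a i))).coeff n ∈ S := by
  classical
  have h : (∏ i ∈ T, (C (b i) * X - C (a i))) ∈ Polynomial.lifts S.subtype := by
    refine Subsemiring.prod_mem _ fun i hi => ?_
    have h1 : (C (b i) * X - C (a i) : R[X]) = C (b i) * X + C (-a i) := by
      rw [C_neg]
      ring
    rw [h1]
    refine Subsemiring.add_mem _ (Subsemiring.mul_mem _ ?_ ?_) ?_
    · exact (Polynomial.lifts S.subtype).mem_carrier.1 ⟨C ⟨b i, hb i hi⟩, by simp⟩
    · exact ⟨X, by simp⟩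
    · exact ⟨C ⟨-a i, S.neg_mem (ha i hi)⟩, by simp⟩
  rw [Polynomial.lifts_iff_coeff_lifts] at h
  obtain ⟨y, hy⟩ := h n
  rw [← hy]
  exact y.2

/-- a rational number which is a `p`-adic integer and an integer after multiplication by a power
of `p` is an integer -/
private theorem int_of_padic {p : ℕ} [Fact p.Prime] {r : ℚ} (h : ‖(r : ℚ_[p])‖ ≤ 1) {N : ℕ}
    {m : ℤ} (hm : ((p ^ N : ℕ) : ℚ) * r = m) : ∃ k : ℤ, r = k := by
  have hp := (Fact.out : p.Prime)
  have h1 : ¬ p ∣ r.den := by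
    intro hd
    have h2 := PadicInt.isUnit_iff.1 (PadicInt.isUnit_den r h)
    have h3 := (PadicInt.norm_int_lt_one_iff_dvd (p := p) (r.den : ℤ)).2 (by exact_mod_cast hd)
    rw [Int.cast_natCast] at h3
    exact absurd h2 h3.ne
  have h2 : r.den ∣ p ^ N := by
    have e1 : ((p ^ N : ℕ) : ℤ) * r.num = m * r.den := by
      have e2 : (r.num : ℚ) = r * r.den := (Rat.mul_den_eq_num r).symm
      have e3 : (((p ^ N : ℕ) : ℤ) * r.num : ℚ) = m * r.den := by
        rw [e2, ← hm]
        push_cast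
        ring
      exact_mod_cast e3
    have e4 : (r.den : ℤ) ∣ ((p ^ N : ℕ) : ℤ) * r.num := ⟨m, by rw [e1, mul_comm]⟩
    have e5 : IsCoprime (r.den : ℤ) r.num := by
      rw [Int.isCoprime_iff_gcd_eq_one]
      have := r.reduced
      rw [Int.gcd_comm]
      exact this
    have e6 := e5.dvd_of_dvd_mul_right e4
    exact_mod_cast e6
  have h3 : r.den = 1 := by
    rcases (Nat.dvd_prime_pow hp).1 h2 with ⟨k, -, hk⟩
    rcases Nat.eq_zero_or_pos k with rfl | hk0
    · simpa using hk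
    · exact absurd (hk ▸ dvd_pow_self p hk0.ne') h1
  exact ⟨r.num, (Rat.den_eq_one_iff r).1 h3 ▸ rfl⟩

private theorem norm_coeff_le {p : ℕ} [Fact p.Prime] {I : Type*} (T : Finset I)
    (x : I → PadicAlgCl p) (hx : ∀ i ∈ T, ‖x i‖ ≤ 1) (n : ℕ) :
    ‖(∏ i ∈ T, (C 1 * X - C (x i))).coeff n‖ ≤ 1 := by
  let S : Subring (PadicAlgCl p) :=
    { carrier := {x | ‖x‖ ≤ 1}
      mul_mem' := fun {x y} hx hy => by
        change ‖x * y‖ ≤ 1
        rw [norm_mul]
        exact mul_le_one₀ hx (norm_nonneg _) hy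
      one_mem' := by
        change ‖(1 : PadicAlgCl p)‖ ≤ 1
        rw [norm_one]
      add_mem' := fun {x y} hx hy => by
        change ‖x + y‖ ≤ 1
        exact (PadicAlgCl.isNonarchimedean p x y).trans (max_le hx hy)
      zero_mem' := by
        change ‖(0 : PadicAlgCl p)‖ ≤ 1
        rw [norm_zero]
        exact zero_le_one
      neg_mem' := fun {x} hx => by
        change ‖-x‖ ≤ 1
        rw [norm_neg]
        exact hx }
  exact coeff_prod_mem S T x (fun _ => 1) hx (fun _ _ => S.one_mem) n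

private theorem integral_of_norm {L : Type} [Field L] [NumberField L] [IsGalois ℚ L] {p : ℕ}
    [Fact p.Prime] (φ : L →+* PadicAlgCl p) {a : ℕ} {u : L}
    (hqu : IsIntegral ℤ (((p ^ a : ℕ) : L) * u)) (hφ : ∀ g : L ≃ₐ[ℚ] L, ‖φ (g u)‖ ≤ 1) :
    IsIntegral ℤ u := by
  classical
  set N := (Finset.univ : Finset (L ≃ₐ[ℚ] L)).card with hN
  set Q : L[X] := ∏ g : L ≃ₐ[ℚ] L, (C 1 * X - C (g u)) with hQ
  have hfix : ∀ (n : ℕ) (g : L ≃ₐ[ℚ] L), g (Q.coeff n) = Q.coeff n := by
    intro n g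
    have h1 : Q.map (g : L →+* L) = Q := by
      rw [hQ, Polynomial.map_prod]
      refine Fintype.prod_equiv (Equiv.mulLeft g) _ _ fun g' => ?_
      simp
    conv_rhs => rw [← h1, coeff_map]
    rfl
  have hrat : ∀ n, ∃ r : ℚ, algebraMap ℚ L r = Q.coeff n := by
    intro n
    have h1 := (IsGalois.mem_bot_iff_fixed (F := ℚ) (E := L) (Q.coeff n)).2 (hfix n)
    exact IntermediateField.mem_bot.1 h1
  have hZ : ∀ n, ∃ k : ℤ, Q.coeff n = k := by
    intro n
    obtain ⟨r, hr⟩ := hrat n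
    have h1 : ‖(r : ℚ_[p])‖ ≤ 1 := by
      have e1 : φ (Q.coeff n) = algebraMap ℚ_[p] (PadicAlgCl p) (r : ℚ_[p]) := by
        rw [← hr]
        have : φ.comp (algebraMap ℚ L) =
            (algebraMap ℚ_[p] (PadicAlgCl p)).comp (Rat.castHom ℚ_[p]) := Subsingleton.elim _ _
        exact RingHom.congr_fun this r
      have e2 : ‖φ (Q.coeff n)‖ ≤ 1 := by
        have e3 : φ (Q.coeff n) = (∏ g : L ≃ₐ[ℚ] L, (C (1 : PadicAlgCl p) * X -
            C (φ (g u)))).coeff n := by
          rw [← coeff_map, hQ, Polynomial.map_prod]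
          simp
        rw [e3]
        exact norm_coeff_le Finset.univ (fun g : L ≃ₐ[ℚ] L => φ (g u)) (fun g _ => hφ g) n
      rw [e1] at e2
      rw [← PadicAlgCl.norm_extends]
      exact e2
    have h2 : IsIntegral ℤ (((p ^ (a * N) : ℕ) : ℚ) * r) := by
      have e1 : algebraMap ℚ L (((p ^ (a * N) : ℕ) : ℚ) * r) =
          (∏ g : L ≃ₐ[ℚ] L, (C ((p ^ a : ℕ) : L) * X - C (g (((p ^ a : ℕ) : L) * u)))).coeff n := by
        have e2 : (∏ g : L ≃ₐ[ℚ] L, (C ((p ^ a : ℕ) : L) * X - C (g (((p ^ a : ℕ) : L) * u)))) =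
            C (((p ^ a : ℕ) : L) ^ N) * Q := by
          have e3 : ∀ g : L ≃ₐ[ℚ] L, (C ((p ^ a : ℕ) : L) * X - C (g (((p ^ a : ℕ) : L) * u)) :
              L[X]) = C ((p ^ a : ℕ) : L) * (C 1 * X - C (g u)) := by
            intro g
            have e4 : g ((p ^ a : ℕ) : L) = ((p ^ a : ℕ) : L) := map_natCast g _
            rw [map_mul, e4, C_mul, C_1]
            ring
          rw [Finset.prod_congr rfl fun g _ => e3 g, Finset.prod_mul_distrib, Finset.prod_const,
            C_pow]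
        rw [e2, coeff_C_mul, map_mul, hr]
        congr 1
        rw [map_natCast, pow_mul, Nat.cast_pow]
      have e5 : IsIntegral ℤ
          ((∏ g : L ≃ₐ[ℚ] L, (C ((p ^ a : ℕ) : L) * X - C (g (((p ^ a : ℕ) : L) * u)))).coeff n) :=
        coeff_prod_mem (integralClosure ℤ L).toSubring (Finset.univ : Finset (L ≃ₐ[ℚ] L))
          (fun g => g (((p ^ a : ℕ) : L) * u)) (fun _ => ((p ^ a : ℕ) : L))
          (fun g _ => hqu.map (g : L →ₐ[ℚ] L).toRingHom.toIntAlgHom)
          (fun _ _ => by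
            have : IsIntegral ℤ (((p ^ a : ℕ) : L)) := by
              have := isIntegral_algebraMap (R := ℤ) (A := L) (x := ((p ^ a : ℕ) : ℤ))
              rwa [map_natCast] at this
            exact this)
          n
      rw [← e1] at e5
      exact (isIntegral_algebraMap_iff (algebraMap ℚ L).injective).1 e5
    obtain ⟨m, hm⟩ := IsIntegrallyClosed.isIntegral_iff.1 h2
    obtain ⟨k, hk⟩ := int_of_padic (p := p) h1 (N := a * N) (m := m) (by rw [← hm]; rfl)
    exact ⟨k, by rw [← hr, hk, map_intCast]⟩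
  have h1 : Q ∈ Polynomial.lifts (Int.castRingHom L) := by
    rw [Polynomial.lifts_iff_coeff_lifts]
    intro n
    obtain ⟨k, hk⟩ := hZ n
    exact ⟨k, by rw [hk]; rfl⟩
  have hQm : Q.Monic := by
    rw [hQ]
    refine monic_prod_of_monic _ _ fun g _ => ?_
    rw [C_1, one_mul]
    exact monic_X_sub_C _
  obtain ⟨Q', hQ', -, hQ'm⟩ := Polynomial.lifts_and_natDegree_eq_and_monic h1 hQm
  refine ⟨Q', hQ'm, ?_⟩
  have e1 : eval₂ (algebraMap ℤ L) u Q' = eval u Q := by
    rw [← hQ', eval_map]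
    rfl
  rw [e1, hQ, eval_prod]
  refine Finset.prod_eq_zero (Finset.mem_univ (1 : L ≃ₐ[ℚ] L)) ?_
  simp

theorem eq_of_norm {P : ℤ[X]} {p a : ℕ} [Fact p.Prime] (hP : IsFrobPoly P p a) (ha : 0 < a)
    (hneat : Neat P) {z w : Ev P}
    (h : ∀ g : Gr P, ‖emb P p (g z.val)‖ = ‖emb P p (g w.val)‖) : z = w := by
  have hp := (Fact.out : p.Prime)
  have hroot : ∀ (v : Ev P) (σ : Spl P →+* ℂ), aeval (σ v.val) P = 0 := by
    intro v σ
    have h1 := (mem_roots'.1 v.mem).2
    rw [IsRoot.def, eval_map] at h1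
    rw [aeval_def, algebraMap_int_eq]
    have h2 := congrArg σ h1
    rw [map_zero, Polynomial.hom_eval₂] at h2
    rw [← h2]
    congr 1
    exact RingHom.ext_int _ _
  have hnorm : ∀ (v : Ev P) (σ : Spl P →+* ℂ), ‖σ v.val‖ ^ 2 = ((p ^ a : ℕ) : ℝ) := fun v σ =>
    hP.weil _ (hroot v σ)
  have hqpos : (0 : ℝ) < ((p ^ a : ℕ) : ℝ) := by exact_mod_cast pow_pos hp.pos a
  let σ₀ : Spl P →+* ℂ := (IsAlgClosed.lift : Spl P →ₐ[ℚ] ℂ).toRingHom
  have hv0 : ∀ v : Ev P, v.val ≠ 0 := by
    intro v hv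
    have := hnorm v σ₀
    rw [hv, map_zero, norm_zero, zero_pow two_ne_zero] at this
    exact hqpos.ne this
  have hσ0 : ∀ (v : Ev P) (σ : Spl P →+* ℂ), σ v.val ≠ 0 := fun v σ h1 =>
    hv0 v (σ.injective (by rw [h1, map_zero]))
  have hint : ∀ v : Ev P, IsIntegral ℤ v.val := by
    intro v
    refine ⟨P, hP.monic, ?_⟩
    have h1 := (mem_roots'.1 v.mem).2
    rw [IsRoot.def, eval_map] at h1
    exact h1
  have hint' : IsIntegral ℤ (((p ^ a : ℕ) : Spl P) / w.val) := by
    have h1 : σ₀ (((p ^ a : ℕ) : Spl P) / w.val) = starRingEnd ℂ (σ₀ w.val) := by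
      rw [map_div₀, div_eq_iff (hσ0 w σ₀), mul_comm, Complex.mul_conj,
        Complex.normSq_eq_norm_sq, hnorm, map_natCast]
      simp
    have h2 : IsIntegral ℤ (σ₀ (((p ^ a : ℕ) : Spl P) / w.val)) := by
      rw [h1]
      have h3 : IsIntegral ℤ (σ₀ w.val) := ⟨P, hP.monic, by
        have := hroot w σ₀
        rwa [aeval_def] at this⟩
      exact h3.map (starRingEnd ℂ).toIntAlgHom
    exact (isIntegral_algHom_iff σ₀.toIntAlgHom σ₀.injective).1 h2
  have hqu : IsIntegral ℤ (((p ^ a : ℕ) : Spl P) * (z.val / w.val)) := by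
    have : ((p ^ a : ℕ) : Spl P) * (z.val / w.val) =
        z.val * (((p ^ a : ℕ) : Spl P) / w.val) := by
      ring
    rw [this]
    exact (hint z).mul hint'
  have : NumberField (Spl P) := { }
  have : IsSplittingField ℚ (Spl P) (P.map (Int.castRingHom ℚ)) :=
    IsSplittingField.splittingField _
  have : IsGalois ℚ (Spl P) := isGalois_iff.2
    ⟨inferInstance, Normal.of_isSplittingField (P.map (Int.castRingHom ℚ))⟩
  have huint : IsIntegral ℤ (z.val / w.val) := by
    refine integral_of_norm (emb P p) hqu fun g => ?_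
    rw [map_div₀, map_div₀, norm_div, h g]
    exact div_self_le_one _
  obtain ⟨n, hn, hun⟩ := NumberField.Embeddings.pow_eq_one_of_norm_eq_one (Spl P) ℂ huint (by
    intro σ
    have h1 := hnorm z σ
    have h2 := hnorm w σ
    have h3 : ‖σ z.val‖ = ‖σ w.val‖ :=
      (sq_eq_sq₀ (norm_nonneg _) (norm_nonneg _)).1 (h1.trans h2.symm)
    rw [map_div₀, norm_div, h3, div_self (norm_ne_zero_iff.2 (hσ0 w σ))])
  have hzw : z.val ^ n = w.val ^ n := by
    rw [div_pow, div_eq_one_iff_eq (pow_ne_zero _ (hv0 w))] at hun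
    exact hun
  apply Ev.ext
  apply σ₀.injective
  refine hneat _ _ (hroot z σ₀) (hroot w σ₀) n hn ?_
  rw [← map_pow, ← map_pow, hzw]

end Pool.Agent.Exo5
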