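import Pool.Agent.Exo5.Setup

/-!
# The integrality of the slopes

PACKAGE Exo5-Loc (statements frozen). Proof of `slopes_int` (`q = p ^ a`, `φ = emb P p`,
`y = φ z.val`, `f = minpoly ℚ_[p] y`):
(1) `f` is monic and irreducible and divides `P` over `ℚ_[p]`; `multiplicity f (P over ℚ_[p])` is
the root multiplicity of `y` in `P` over `PadicAlgCl p` (if `P = f ^ e * R` and `f` does not divide
`R`, then `f`, `R` are coprime, so `R(y) ≠ 0`, and `f` is separable, characteristic zero), which is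
the root multiplicity of `z.val` in `P` over `Spl P` (`Polynomial.rootMultiplicity` and injective
maps: `Polynomial.eq_rootMultiplicity_map`).
(2) `‖f.coeff 0‖ = ‖y‖ ^ f.natDegree`: the norm of `PadicAlgCl p` is the spectral norm
(`PadicAlgCl.norm...`, `spectralNorm`), all roots of `f` in `PadicAlgCl p` are conjugates of `y`
and have the same norm (`norm_algEquiv` below), and `f.coeff 0 = ± ∏ roots`.
(3) `f.natDegree = (MulAction.orbit D z).ncard`: the roots of `f` in `PadicAlgCl p` are `f.natDegree`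
different elements, the `τ y`, `τ` in `PadicAlgCl p ≃ₐ[ℚ_[p]] PadicAlgCl p`
(`IsConjRoot`/`minpoly.algEquiv...`/`Normal.exists_algEquiv...`). Each `τ` maps the image of
`Spl P` (normal over `ℚ`) to itself, so it comes from some `d` in `Gr P`
(`∃ d, ∀ x, φ (d x) = τ (φ x)`), which is in `D`; so `φ` is a bijection of `D z` and the roots.
(4) `hP.slopes f` gives the `k`.
-/

set_option autoImplicit false

namespace Pool.Agent.Exo5

open Polynomial

theorem norm_algEquiv {p : ℕ} [Fact p.Prime] (τ : PadicAlgCl p ≃ₐ[ℚ_[p]] PadicAlgCl p)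
    (y : PadicAlgCl p) : ‖τ y‖ = ‖y‖ := by
  rw [← PadicAlgCl.spectralNorm_eq, ← PadicAlgCl.spectralNorm_eq]
  exact (spectralNorm_eq_of_equiv τ y).symm

/-- the norm of the constant coefficient of the minimal polynomial -/
private theorem norm_coeff_zero {p : ℕ} [Fact p.Prime] (y : PadicAlgCl p) :
    ‖(minpoly ℚ_[p] y).coeff 0‖ = ‖y‖ ^ (minpoly ℚ_[p] y).natDegree := by
  have h0 : (minpoly ℚ_[p] y).natDegree ≠ 0 :=
    (minpoly.natDegree_pos (Algebra.IsIntegral.isIntegral y)).ne'
  have h1 := spectralNorm.spectralNorm_eq_norm_coeff_zero_rpow (K := ℚ_[p]) (L := PadicAlgCl p) y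
  rw [PadicAlgCl.spectralNorm_eq] at h1
  rw [h1, ← Real.rpow_natCast, ← Real.rpow_mul (norm_nonneg _), one_div,
    inv_mul_cancel₀ (by exact_mod_cast h0), Real.rpow_one]

private theorem normal_spl (P : ℤ[X]) : Normal ℚ (Spl P) := by
  have h : ∃ i₀ : Algebra ℚ (Spl P),
      @IsSplittingField ℚ (Spl P) _ _ i₀ (P.map (Int.castRingHom ℚ)) :=
    ⟨_, IsSplittingField.splittingField (P.map (Int.castRingHom ℚ))⟩
  obtain ⟨i₀, hi⟩ := h
  have e : i₀ = DivisionRing.toRatAlgebra := Subsingleton.elim _ _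
  subst e
  exact Normal.of_isSplittingField (P.map (Int.castRingHom ℚ))

/-- automorphisms over `ℚ_p` restrict to the splitting field -/
private theorem exists_restrict {P : ℤ[X]} {p : ℕ} [Fact p.Prime]
    (τ : PadicAlgCl p ≃ₐ[ℚ_[p]] PadicAlgCl p) :
    ∃ d : Gr P, ∀ x : Spl P, emb P p (d x) = τ (emb P p x) := by
  let : Algebra (Spl P) (PadicAlgCl p) := (emb P p).toAlgebra
  have : IsScalarTower ℚ (Spl P) (PadicAlgCl p) := by
    refine IsScalarTower.of_algebraMap_eq fun x => ?_
    simp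
  let τ' : PadicAlgCl p ≃ₐ[ℚ] PadicAlgCl p :=
    AlgEquiv.ofRingEquiv (f := τ.toRingEquiv) fun r => by simp
  have := normal_spl P
  refine ⟨τ'.restrictNormal (Spl P), fun x => ?_⟩
  exact τ'.restrictNormal_commutes (Spl P) x

private theorem rootMult_eq {P : ℤ[X]} {p : ℕ} [Fact p.Prime] (hP : P ≠ 0) (y : PadicAlgCl p) :
    (P.map (Int.castRingHom (PadicAlgCl p))).rootMultiplicity y =
      multiplicity (minpoly ℚ_[p] y) (P.map (Int.castRingHom ℚ_[p])) := by
  have hint : IsIntegral ℚ_[p] y := Algebra.IsIntegral.isIntegral y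
  have hirr := minpoly.irreducible hint
  set f := minpoly ℚ_[p] y with hf
  set Q := P.map (Int.castRingHom ℚ_[p]) with hQ
  have hQ0 : Q ≠ 0 := by
    rw [hQ, Ne, Polynomial.map_eq_zero_iff (Int.castRingHom ℚ_[p]).injective_int]
    exact hP
  have hfin : FiniteMultiplicity f Q :=
    FiniteMultiplicity.of_not_isUnit hirr.not_isUnit hQ0
  obtain ⟨R, hR, hfR⟩ := hfin.exists_eq_pow_mul_and_not_dvd
  have hR0 : R ≠ 0 := by
    rintro rfl
    exact hfR (dvd_zero _)
  have hmap : P.map (Int.castRingHom (PadicAlgCl p)) = Q.map (algebraMap ℚ_[p] (PadicAlgCl p)) := by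
    rw [hQ, Polynomial.map_map]
    congr 1
  have hinj := (algebraMap ℚ_[p] (PadicAlgCl p)).injective
  have hf0 : f.map (algebraMap ℚ_[p] (PadicAlgCl p)) ≠ 0 := by
    rw [Ne, Polynomial.map_eq_zero_iff hinj]
    exact hirr.ne_zero
  have hR0' : R.map (algebraMap ℚ_[p] (PadicAlgCl p)) ≠ 0 := by
    rw [Ne, Polynomial.map_eq_zero_iff hinj]
    exact hR0
  have h1 : (f.map (algebraMap ℚ_[p] (PadicAlgCl p))).rootMultiplicity y = 1 := by
    apply le_antisymm
    · exact rootMultiplicity_le_one_of_separable hirr.separable.map y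
    · rw [Nat.succ_le_iff, rootMultiplicity_pos hf0, IsRoot.def, eval_map, ← aeval_def]
      exact minpoly.aeval _ _
  have h2 : (R.map (algebraMap ℚ_[p] (PadicAlgCl p))).rootMultiplicity y = 0 := by
    apply rootMultiplicity_eq_zero
    rw [IsRoot.def, eval_map, ← aeval_def]
    intro h3
    exact hfR (minpoly.dvd _ _ h3)
  have h3 : ∀ n : ℕ, ((f.map (algebraMap ℚ_[p] (PadicAlgCl p))) ^ n).rootMultiplicity y = n := by
    intro n
    induction n with
    | zero =>
      rw [pow_zero]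
      apply rootMultiplicity_eq_zero
      simp
    | succ n ih =>
      rw [pow_succ, rootMultiplicity_mul (mul_ne_zero (pow_ne_zero _ hf0) hf0), ih, h1]
  rw [hmap]
  conv_lhs => rw [hR]
  rw [Polynomial.map_mul, Polynomial.map_pow,
    rootMultiplicity_mul (mul_ne_zero (pow_ne_zero _ hf0) hR0'), h2, add_zero, h3]

theorem slopes_int {P : ℤ[X]} {p a : ℕ} [Fact p.Prime] (hP : IsFrobPoly P p a)
    (D : Subgroup (Gr P))
    (hD : ∀ g : Gr P, g ∈ D ↔ ∃ τ : PadicAlgCl p ≃ₐ[ℚ_[p]] PadicAlgCl p, ∀ x : Spl P,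
      emb P p (g x) = τ (emb P p x)) (z : Ev P) :
    ∃ k : ℕ, ‖emb P p z.val‖ ^ ((P.map (Int.castRingHom (Spl P))).rootMultiplicity z.val *
      (MulAction.orbit D z).ncard) = ‖((p ^ a : ℕ) : ℚ_[p])‖ ^ k := by
  classical
  set φ := emb P p with hφ
  set y := φ z.val with hy
  have hint : IsIntegral ℚ_[p] y := Algebra.IsIntegral.isIntegral y
  obtain ⟨k, hk⟩ := hP.slopes (minpoly ℚ_[p] y) (minpoly.monic hint) (minpoly.irreducible hint)
  refine ⟨k, ?_⟩
  rw [← hk, norm_coeff_zero]
  have h1 : (P.map (Int.castRingHom (Spl P))).rootMultiplicity z.val =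
      multiplicity (minpoly ℚ_[p] y) (P.map (Int.castRingHom ℚ_[p])) := by
    rw [eq_rootMultiplicity_map φ.injective z.val, Polynomial.map_map, ← rootMult_eq hP.monic.ne_zero]
    congr 2
    exact RingHom.ext_int _ _
  have h2 : (MulAction.orbit D z).ncard = (minpoly ℚ_[p] y).natDegree := by
    have h3 : (fun w : Ev P => φ w.val) '' (MulAction.orbit D z) =
        (minpoly ℚ_[p] y).rootSet (PadicAlgCl p) := by
      ext u
      rw [← isConjRoot_iff_mem_minpoly_rootSet hint]
      constructor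
      · rintro ⟨_, ⟨⟨d, hd⟩, rfl⟩, rfl⟩
        obtain ⟨τ, hτ⟩ := (hD d).1 hd
        have h4 : φ ((⟨d, hd⟩ : D) • z).val = τ y := hτ z.val
        change IsConjRoot ℚ_[p] y (φ ((⟨d, hd⟩ : D) • z).val)
        rw [h4]
        exact (isConjRoot_of_algEquiv y τ)
      · intro hu
        obtain ⟨τ, hτ⟩ := (isConjRoot_iff_exists_algEquiv (K := ℚ_[p])).1 hu.symm
        obtain ⟨d, hd⟩ := exists_restrict (P := P) τ
        refine ⟨(⟨d, (hD d).2 ⟨τ, hd⟩⟩ : D) • z, MulAction.mem_orbit _ _, ?_⟩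
        exact (hd z.val).trans hτ
    rw [← Set.ncard_image_of_injective (MulAction.orbit D z) (f := fun w : Ev P => φ w.val)
      (fun w w' hww => Ev.ext (φ.injective hww)), h3, ← Nat.card_coe_set_eq, Nat.card_eq_fintype_card]
    exact card_rootSet_eq_natDegree (minpoly.irreducible hint).separable
      (IsAlgClosed.splits _)
  rw [h1, h2, ← pow_mul, mul_comm]

end Pool.Agent.Exo5
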