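import Pool.Agent.Exo5.Conj
import Pool.Agent.Exo5.Kron
import Pool.Agent.Exo5.Loc

/-!
# The slope data of a Frobenius polynomial
-/

set_option autoImplicit false

namespace Pool.Agent.Exo5

open Polynomial Classical

theorem norm_le_one_of_isIntegral {F : Type*} [NormedField F] [IsUltrametricDist F] {x : F}
    (h : IsIntegral ℤ x) : ‖x‖ ≤ 1 := by
  have h1 : IsIntegral (NormedField.valuation (K := F)).integer x := h.tower_top
  have h2 := (Valuation.integer.integers (NormedField.valuation (K := F))).mem_of_integral h1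
  exact_mod_cast h2

variable {P : ℤ[X]} {p a : ℕ} [Fact p.Prime]

theorem Ev.isRoot (z : Ev P) : aeval z.val P = 0 := by
  have h := (mem_roots'.1 z.mem).2
  rw [IsRoot.def, eval_map] at h
  have e : algebraMap ℤ (Spl P) = Int.castRingHom (Spl P) := RingHom.ext_int _ _
  rw [aeval_def, e]
  exact h

theorem Ev.isIntegral (hP : P.Monic) (z : Ev P) : IsIntegral ℤ z.val :=
  ⟨P, hP, by rw [← aeval_def]; exact z.isRoot⟩

theorem norm_q (ha : 0 < a) : 0 < ‖((p ^ a : ℕ) : ℚ_[p])‖ ∧ ‖((p ^ a : ℕ) : ℚ_[p])‖ < 1 := by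
  have hp := (Fact.out : p.Prime)
  constructor
  · rw [norm_pos_iff]
    exact_mod_cast (pow_pos hp.pos a).ne'
  · push_cast
    rw [norm_pow]
    exact pow_lt_one₀ (norm_nonneg _) Padic.norm_p_lt_one ha.ne'

theorem norm_emb_nat (x : ℕ) : ‖emb P p (x : Spl P)‖ = ‖(x : ℚ_[p])‖ := by
  rw [map_natCast, ← PadicAlgCl.norm_extends]
  congr 1

theorem log_q (ha : 0 < a) : Real.log ‖((p ^ a : ℕ) : ℚ_[p])‖ < 0 :=
  Real.log_neg (norm_q ha).1 (norm_q ha).2

theorem sum_ev_aux (P : ℤ[X]) (f : Spl P → ℕ) :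
    ∑ z : Ev P, f z.val = ∑ z ∈ (P.map (Int.castRingHom (Spl P))).roots.toFinset.attach,
      f z := by
  classical
  refine Finset.sum_bij (fun z _ => ⟨z.val, Multiset.mem_toFinset.2 z.mem⟩)
    (fun _ _ => Finset.mem_attach _ _) ?_ ?_ (fun _ _ => rfl)
  · intro z _ w _ h
    exact Ev.ext (congrArg Subtype.val h)
  · intro w _
    exact ⟨Ev.mk w.1 (Multiset.mem_toFinset.1 w.2), Finset.mem_univ _, rfl⟩

/-- the decomposition group -/
noncomputable def dec (P : ℤ[X]) (p : ℕ) [Fact p.Prime] : Subgroup (Gr P) where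
  carrier := {g | ∃ τ : PadicAlgCl p ≃ₐ[ℚ_[p]] PadicAlgCl p, ∀ x : Spl P,
    emb P p (g x) = τ (emb P p x)}
  one_mem' := ⟨AlgEquiv.refl, fun x => rfl⟩
  mul_mem' := by
    rintro g h ⟨τ, hτ⟩ ⟨σ, hσ⟩
    exact ⟨σ.trans τ, fun x => by
      rw [AlgEquiv.mul_apply, hτ, hσ]; rfl⟩
  inv_mem' := by
    rintro g ⟨τ, hτ⟩
    exact ⟨τ.symm, fun x => by
      rw [AlgEquiv.eq_symm_apply, ← hτ]
      congr 1
      exact g.apply_symm_apply x⟩

theorem exists_data (hP : IsFrobPoly P p a) (ha : 0 < a) (hdeg : P.natDegree ≤ 10)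
    (hneat : Neat P) : ∃ S : SlopeData (Gr P) (Ev P), IsData P p a S := by
  classical
  obtain ⟨c, -, -, hc⟩ := exists_conj hP
  have hp := (Fact.out : p.Prime)
  have hq0 : ((p ^ a : ℕ) : Spl P) ≠ 0 := by exact_mod_cast (pow_pos hp.pos a).ne'
  have hz0 : ∀ z : Ev P, z.val ≠ 0 := by
    intro z h
    apply hq0
    rw [← hc z, h, mul_zero]
  have hgq : ∀ g : Gr P, g ((p ^ a : ℕ) : Spl P) = ((p ^ a : ℕ) : Spl P) := fun g =>
    map_natCast g _
  have hcc : ∀ z : Ev P, c • c • z = z := by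
    intro z
    apply Ev.ext
    have h1 := hc (c • z)
    rw [Ev.val_smul, ← hc z, mul_comm (c z.val) z.val] at h1
    exact mul_right_cancel₀ (hz0 (c • z)) h1
  have hgc : ∀ (g : Gr P) (z : Ev P), g • c • z = c • g • z := by
    intro g z
    apply Ev.ext
    have h1 := congrArg g (hc z)
    rw [map_mul, hgq] at h1
    have h2 := hc (g • z)
    rw [← h2] at h1
    exact mul_right_cancel₀ (hz0 (g • z)) h1
  have hlq := log_q (p := p) ha
  have hpos : ∀ z : Ev P, 0 < ‖emb P p z.val‖ := fun z => by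
    rw [norm_pos_iff, Ne, map_eq_zero]
    exact hz0 z
  have hnc : ∀ z : Ev P, Real.log ‖emb P p (c • z).val‖ + Real.log ‖emb P p z.val‖ =
      Real.log ‖((p ^ a : ℕ) : ℚ_[p])‖ := by
    intro z
    rw [← Real.log_mul (hpos _).ne' (hpos _).ne', ← norm_mul, ← map_mul, Ev.val_smul, hc z,
      norm_emb_nat]
  have hle : ∀ z : Ev P, Real.log ‖emb P p z.val‖ ≤ 0 := fun z =>
    Real.log_nonpos (norm_nonneg _)
      (norm_le_one_of_isIntegral ((z.isIntegral hP.monic).map (emb P p).toIntAlgHom))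
  have hvinv : ∀ z : Ev P, Real.log ‖emb P p (c • z).val‖ / Real.log ‖((p ^ a : ℕ) : ℚ_[p])‖ =
      1 - Real.log ‖emb P p z.val‖ / Real.log ‖((p ^ a : ℕ) : ℚ_[p])‖ := by
    intro z
    rw [eq_sub_iff_add_eq, ← add_div, hnc z, div_self hlq.ne]
  have hv0 : ∀ z : Ev P, 0 ≤ Real.log ‖emb P p z.val‖ / Real.log ‖((p ^ a : ℕ) : ℚ_[p])‖ :=
    fun z => div_nonneg_of_nonpos (hle z) hlq.le
  have hroots : ∀ z : Ev P, (P.map (Int.castRingHom (Spl P))).rootMultiplicity z.val =
      (P.map (Int.castRingHom (Spl P))).roots.count z.val := fun z => (count_roots _).symm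
  refine ⟨{
    inv := fun z => c • z
    inv_inv := hcc
    c := c
    c_smul := fun _ => rfl
    smul_inv := hgc
    sl := fun z => Real.log ‖emb P p z.val‖ / Real.log ‖((p ^ a : ℕ) : ℚ_[p])‖ - 1 / 2
    sl_inv := fun z => by rw [hvinv z]; ring
    sl_le := fun z => by
      have h1 := hv0 z
      have h2 := hv0 (c • z)
      rw [hvinv z] at h2
      rw [abs_le]
      constructor <;> linarith
    ext := fun z w h => by
      refine eq_of_norm hP ha hneat fun g => ?_
      have h1 := h g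
      rw [sub_left_inj, div_left_inj' hlq.ne] at h1
      exact Real.log_injOn_pos (hpos (g • z)) (hpos (g • w)) h1
    mult := fun z => (P.map (Int.castRingHom (Spl P))).rootMultiplicity z.val
    mult_pos := fun z => by
      rw [hroots, Multiset.count_pos]
      exact z.mem
    mult_smul := fun g z => by
      have h1 := eq_rootMultiplicity_map (p := P.map (Int.castRingHom (Spl P)))
        (f := (g : Spl P →+* Spl P)) (RingHom.injective _) z.val
      rw [h1, Polynomial.map_map]
      congr 2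
      exact RingHom.ext_int _ _
    total := by
      have h1 : ∑ z : Ev P, (P.map (Int.castRingHom (Spl P))).rootMultiplicity z.val =
          (P.map (Int.castRingHom (Spl P))).roots.card := by
        rw [Finset.sum_congr rfl fun z _ => hroots z,
          sum_ev_aux P fun z => (P.map (Int.castRingHom (Spl P))).roots.count z]
        rw [Finset.sum_attach _ fun z => (P.map (Int.castRingHom (Spl P))).roots.count z]
        exact Multiset.toFinset_sum_count_eq _
      rw [h1]
      exact (card_roots' _).trans ((natDegree_map_le).trans hdeg)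
    D := dec P p
    sl_D := by
      rintro d ⟨τ, hτ⟩ z
      rw [Ev.val_smul, hτ, norm_algEquiv]
    int := fun z => by
      obtain ⟨k, hk⟩ := slopes_int hP (dec P p) (fun g => Iff.rfl) z
      refine ⟨k, ?_⟩
      have h1 := congrArg Real.log hk
      rw [Real.log_pow, Real.log_pow, Nat.cast_mul] at h1
      rw [sub_add_cancel, mul_div_assoc', h1, mul_div_cancel_right₀ _ hlq.ne,
        Int.cast_natCast] }, ?_⟩
  constructor
  · intro z
    rw [eq_div_iff (hz0 z)]
    exact hc z
  · intro z; rfl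
  · intro z; rfl
  · intro g; exact Iff.rfl

end Pool.Agent.Exo5
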