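import Mathlib

/-!
# Tate classes on abelian varieties of dimension at most five over finite fields: definitions
-/

set_option autoImplicit false

namespace Pool.Agent.Exo5

open Polynomial Module

/-- `P` has the properties of the characteristic polynomial of the Frobenius of an abelian variety
over the field with `p ^ a` elements: it is a monic polynomial with integral coefficients, all
complex roots have the absolute value `√(p ^ a)` (Weil), and for every irreducible factor `f` of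
`P` over `ℚ_p`, with multiplicity `e`, the valuation of `f(0) ^ e` is a multiple of the valuation
of `p ^ a` (Honda, Tate). -/
structure IsFrobPoly (P : ℤ[X]) (p a : ℕ) [Fact p.Prime] : Prop where
  monic : P.Monic
  weil : ∀ z : ℂ, aeval z P = 0 → ‖z‖ ^ 2 = ((p ^ a : ℕ) : ℝ)
  slopes : ∀ f : ℚ_[p][X], f.Monic → Irreducible f → ∃ k : ℕ,
    ‖f.coeff 0‖ ^ multiplicity f (P.map (Int.castRingHom ℚ_[p])) = ‖((p ^ a : ℕ) : ℚ_[p])‖ ^ k

/-- No quotient of two different roots is a root of unity. -/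
def Neat (P : ℤ[X]) : Prop :=
  ∀ z w : ℂ, aeval z P = 0 → aeval w P = 0 → ∀ n : ℕ, 0 < n → z ^ n = w ^ n → z = w

variable {K : Type} [Field K] [CharZero K]

/-- The monic polynomial with the roots `M`. -/
noncomputable def pol (M : Multiset K) : K[X] := (M.map fun μ => X - C μ).prod

open Classical in
/-- `M` consists of four eigenvalues such that `(product of M) ^ m = (q ^ 2) ^ m`, `q = p ^ a`, no
two of them having the product `q`; the polynomial `Q` with the roots `M` has its coefficients in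
an imaginary quadratic field `E = ℚ(√d)`, and `Q Q̄` divides `P`; if one of the roots is `± √q`,
then `p` does not split in `E`. (So `Q Q̄` belongs to an abelian variety of dimension four with an
embedding of `E` in its endomorphism algebra, and `Q` is the characteristic polynomial of the
Frobenius on one half of `H^1`.) -/
def IsWeilType (P : ℤ[X]) (p a m : ℕ) [Fact p.Prime] (M : Multiset K) : Prop :=
  ∃ (d : ℚ) (δ : K), d < 0 ∧ δ ^ 2 = (d : K) ∧
    (∀ n, (pol M).coeff n ∈ IntermediateField.adjoin ℚ {δ}) ∧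
    M.card = 4 ∧ M.prod ^ m = ((p ^ a : ℕ) : K) ^ (2 * m) ∧
    (∀ μ ∈ M, ∀ ν ∈ M.erase μ, μ * ν ≠ ((p ^ a : ℕ) : K)) ∧
    pol M * pol (M.map fun μ => ((p ^ a : ℕ) : K) / μ) ∣ P.map (Int.castRingHom K) ∧
    ((∃ μ ∈ M, μ ^ 2 = ((p ^ a : ℕ) : K)) → ∀ y : ℚ_[p], y ^ 2 ≠ (d : ℚ_[p]))

/-- `P = P₁ P₂ (X - c) ^ 2` with `c = ± √q`, `q = p ^ a`, where `P₁` and `P₂` are irreducible of
degree four, `P₂` is ordinary, `P₁` has the slopes `0, 1/2, 1/2, 1`, and `M = {c, μ₁, μ₂, ν}` with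
two roots `μ₁`, `μ₂` of `P₁`, which do not generate the same field, a root `ν` of `P₂`, and with
`(c μ₁ μ₂ ν) ^ m = (q ^ 2) ^ m`. -/
def IsDFourType (P : ℤ[X]) (p a m : ℕ) [Fact p.Prime] (M : Multiset K) : Prop :=
  ∃ (P₁ P₂ : ℚ[X]) (c : ℚ) (μ₁ μ₂ ν : K), P₁.Monic ∧ Irreducible P₁ ∧ P₁.natDegree = 4 ∧
    P₂.Monic ∧ Irreducible P₂ ∧ P₂.natDegree = 4 ∧ c ^ 2 = (p ^ a : ℕ) ∧
    P.map (Int.castRingHom ℚ) = P₁ * P₂ * (X - C c) ^ 2 ∧
    ‖(P₁.coeff 3 : ℚ_[p])‖ = 1 ∧ ‖(P₁.coeff 2 : ℚ_[p])‖ < 1 ∧ ‖(P₂.coeff 2 : ℚ_[p])‖ = 1 ∧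
    aeval μ₁ P₁ = 0 ∧ aeval μ₂ P₁ = 0 ∧ aeval ν P₂ = 0 ∧
    μ₂ ∉ IntermediateField.adjoin ℚ {μ₁} ∧ M = {(c : K), μ₁, μ₂, ν} ∧
    M.prod ^ m = ((p ^ a : ℕ) : K) ^ (2 * m)

/-- `y` is a product of eigenvectors of `F` whose eigenvalues satisfy the condition `T`. -/
def IsClassOf {W : Type} [AddCommGroup W] [Module K W] (F : Module.End K W)
    (T : Multiset K → Prop) (y : ExteriorAlgebra K W) : Prop :=
  ∃ l : List (K × W), (∀ b ∈ l, F b.2 = b.1 • b.2) ∧ T (l.map Prod.fst : List K) ∧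
    y = (l.map fun b => ExteriorAlgebra.ι K b.2).prod

end Pool.Agent.Exo5
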