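import Pool.Agent.Exo5.Defs

/-!
# The types of quadruples and embeddings of fields
-/

set_option autoImplicit false

namespace Pool.Agent.Exo5

open Polynomial

variable {L K : Type} [Field L] [CharZero L] [Field K] [CharZero K]

omit [CharZero L] [CharZero K] in
theorem pol_map (ψ : L →+* K) (M : Multiset L) : pol (M.map ψ) = (pol M).map ψ := by
  rw [pol, pol, Polynomial.map_multiset_prod, Multiset.map_map, Multiset.map_map]
  congr 1
  refine Multiset.map_congr rfl fun x _ => ?_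
  simp

theorem mem_adjoin_iff (ψ : L →+* K) (x δ : L) :
    ψ x ∈ IntermediateField.adjoin ℚ {ψ δ} ↔ x ∈ IntermediateField.adjoin ℚ {δ} := by
  have h1 := IntermediateField.adjoin_map ℚ {δ} ψ.toRatAlgHom
  rw [Set.image_singleton] at h1
  change ψ.toRatAlgHom x ∈ IntermediateField.adjoin ℚ {ψ.toRatAlgHom δ} ↔ _
  rw [← h1]
  constructor
  · intro h
    obtain ⟨y, hy, h2⟩ := (IntermediateField.mem_map _).1 h
    have h3 : y = x := ψ.injective h2
    rwa [h3] at hy
  · intro h
    exact (IntermediateField.mem_map _).2 ⟨x, h, rfl⟩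

omit [CharZero L] [CharZero K] in
theorem prod_map_pow (ψ : L →+* K) {M : Multiset L} {m k : ℕ} {q : ℕ}
    (h : M.prod ^ m = (q : L) ^ k) : (M.map ψ).prod ^ m = (q : K) ^ k := by
  have h1 := congrArg ψ h
  rwa [map_pow, map_pow, map_natCast, map_multiset_prod] at h1

variable {P : ℤ[X]} {p a m : ℕ} [Fact p.Prime]

theorem IsWeilType.map (ψ : L →+* K) {M : Multiset L} (h : IsWeilType P p a m M) :
    IsWeilType P p a m (M.map ψ) := by
  classical
  obtain ⟨d, δ, hd, hδ, h1, h2, h3, h4, h5, h6⟩ := h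
  refine ⟨d, ψ δ, hd, ?_, ?_, ?_, prod_map_pow ψ h3, ?_, ?_, ?_⟩
  · rw [← map_pow, hδ, map_ratCast]
  · intro n
    rw [pol_map, coeff_map, mem_adjoin_iff]
    exact h1 n
  · rw [Multiset.card_map, h2]
  · intro μ hμ ν hν
    obtain ⟨μ', hμ', rfl⟩ := Multiset.mem_map.1 hμ
    rw [← Multiset.map_erase ψ ψ.injective] at hν
    obtain ⟨ν', hν', rfl⟩ := Multiset.mem_map.1 hν
    intro h
    rw [← map_mul, ← map_natCast ψ] at h
    refine h4 μ' hμ' ν' ?_ (ψ.injective h)
    convert hν'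
  · have e1 : (M.map ψ).map (fun μ => ((p ^ a : ℕ) : K) / μ) =
        (M.map fun μ => ((p ^ a : ℕ) : L) / μ).map ψ := by
      rw [Multiset.map_map, Multiset.map_map]
      refine Multiset.map_congr rfl fun x _ => ?_
      simp only [Function.comp_apply, map_div₀, map_natCast]
    have e2 : P.map (Int.castRingHom K) = (P.map (Int.castRingHom L)).map ψ := by
      rw [Polynomial.map_map]
      congr 1
      exact RingHom.ext_int _ _
    rw [e1, pol_map, pol_map, ← Polynomial.map_mul, e2]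
    exact Polynomial.map_dvd ψ h5
  · rintro ⟨μ, hμ, hμ2⟩
    obtain ⟨μ', hμ', rfl⟩ := Multiset.mem_map.1 hμ
    refine h6 ⟨μ', hμ', ?_⟩
    rw [← map_pow, ← map_natCast ψ] at hμ2
    exact ψ.injective hμ2

theorem IsDFourType.map (ψ : L →+* K) {M : Multiset L} (h : IsDFourType P p a m M) :
    IsDFourType P p a m (M.map ψ) := by
  obtain ⟨P₁, P₂, c, μ₁, μ₂, ν, h1, h2, h3, h4, h5, h6, h7, h8, h9, h10, h11, h12, h13, h14,
    h15, h16, h17⟩ := h
  have e : ∀ (Q : ℚ[X]) (x : L), aeval x Q = 0 → aeval (ψ x) Q = 0 := by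
    intro Q x hx
    have := aeval_algHom_apply ψ.toRatAlgHom x Q
    rw [hx, map_zero] at this
    exact this
  refine ⟨P₁, P₂, c, ψ μ₁, ψ μ₂, ψ ν, h1, h2, h3, h4, h5, h6, h7, h8, h9, h10, h11, e _ _ h12,
    e _ _ h13, e _ _ h14, ?_, ?_, prod_map_pow ψ h17⟩
  · rwa [mem_adjoin_iff]
  · rw [h16]
    simp [Multiset.insert_eq_cons]

end Pool.Agent.Exo5
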