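import Pool.Agent.Exo5.Conj

/-!
# Quadruples of eigenvalues of Weil type

PACKAGE Exo5-WeilPoly (statement frozen). Proof (`q = p ^ a`, `φ = emb P p`, `L = Spl P`,
`N := M.map Ev.val`, `N' := (M.map S.inv).map Ev.val = N.map (q / ·)`):
(1) `M ≠ M.map S.inv`: otherwise `z ∈ M` has `S.inv z ∈ M`, which by `hnp` is only possible if
`S.inv z = z` for all `z ∈ M` (erase removes one copy), but then all four elements are equal
(`S.real_unique`) and `S.inv z = z ∈ M.erase z`, contradiction. So `pol N ≠ pol N'`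
(`Multiset.map` of an injective function; `Polynomial.roots` of `pol`), and some coefficient `κ` of
`pol N` differs from the coefficient `κ'` of `pol N'` of the same degree.
(2) `g` in `Gr P` maps the coefficients of `pol N` to those of `pol (M.map (g • ·) ...)`, so by
`hW.1` either `g` fixes all coefficients of `pol N` and of `pol N'`, or `g` exchanges them. Let
`δ = κ - κ'` and `d` the rational number with `δ ^ 2 = d` (fixed by all `g`; `IsGalois ℚ (Spl P)`).
(3) with `(c, ι)` from `exists_conj`: `c` maps `N` to `N'`, so `c δ = -δ`, `ι δ` is purely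
imaginary and not zero: `d < 0`.
(4) each coefficient of `pol N` is `(s + t) / 2`, `s` its sum and `t` its difference with the
coefficient of `pol N'`; `s` and `t / δ` are fixed by all `g`, so rational.
(5) `pol N * pol N'` divides `P`: the polynomial splits in `L` and the multiset `N + N'` is
`≤` the multiset of the roots: for `z : Ev P` the count of `z.val` is
`M.count z + M.count (S.inv z)`, and at most `mult z`: if `S.inv z ≠ z` at most one of the two is
not zero (`hnp`), use `hcount` and `S.mult_inv`; if `S.inv z = z` then `M.count z ≤ 1` by `hnp`,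
and `S.two_le_real`.
(6) if some `z ∈ M` has `z ^ 2 = q`, then `S.inv z = z`, so by `hW.2` some `d₀ ∈ S.D` maps `M` to
`M.map S.inv`, so `d₀ δ = -δ` and `τ (φ δ) = - φ δ`; if `y ^ 2 = d` in `ℚ_[p]` then `φ δ = ± y` is
fixed by `τ`: contradiction.
-/

set_option autoImplicit false

namespace Pool.Agent.Exo5

open Polynomial

private theorem mem_adj {K : Type} [Field K] [CharZero K] (δ κ : K) (r₁ r₂ : ℚ)
    (h : κ = (r₁ : K) + (r₂ : K) * δ) : κ ∈ IntermediateField.adjoin ℚ {δ} := by
  rw [h]
  refine add_mem (SubfieldClass.ratCast_mem _ _) (mul_mem (SubfieldClass.ratCast_mem _ _) ?_)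
  exact IntermediateField.mem_adjoin_simple_self ℚ δ

private theorem pol_roots {K : Type} [Field K] [CharZero K] (N : Multiset K) :
    (pol N).roots = N := by
  unfold pol
  exact Polynomial.roots_multiset_prod_X_sub_C N

private theorem pol_add {K : Type} [Field K] [CharZero K] (N N' : Multiset K) :
    pol (N + N') = pol N * pol N' := by
  unfold pol
  rw [Multiset.map_add, Multiset.prod_add]

private theorem pol_map {K : Type} [Field K] [CharZero K] (f : K →+* K) (N : Multiset K) :
    (pol N).map f = pol (N.map f) := by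
  unfold pol
  rw [Polynomial.map_multiset_prod, Multiset.map_map, Multiset.map_map]
  congr 1
  refine Multiset.map_congr rfl fun x _ => ?_
  simp

private theorem val_inj (P : ℤ[X]) : Function.Injective (Ev.val : Ev P → Spl P) :=
  fun _ _ h => Ev.ext h

/-- the action on the coefficients -/
private theorem coeff_smul {P : ℤ[X]} (g : Gr P) (X : Multiset (Ev P)) (n : ℕ) :
    g ((pol (X.map Ev.val)).coeff n) = (pol ((X.map (g • ·)).map Ev.val)).coeff n := by
  have h := pol_map (g : Spl P →+* Spl P) (X.map Ev.val)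
  have h2 : (X.map Ev.val).map (g : Spl P →+* Spl P) = (X.map (g • ·)).map Ev.val := by
    rw [Multiset.map_map, Multiset.map_map]
    rfl
  rw [h2] at h
  rw [← h, coeff_map]
  rfl

private theorem spl_galois (P : ℤ[X]) : IsGalois ℚ (Spl P) := by
  have h0 := Polynomial.IsSplittingField.splittingField (P.map (Int.castRingHom ℚ))
  have h := @Normal.of_isSplittingField ℚ _ _ _ _ (P.map (Int.castRingHom ℚ)) h0
  have h2 : Normal ℚ (Spl P) := by
    convert h
    exact Subsingleton.elim _ _
  exact ⟨⟩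

theorem isWeilType_of_isW {P : ℤ[X]} {p a : ℕ} [Fact p.Prime] (hP : IsFrobPoly P p a)
    {S : SlopeData (Gr P) (Ev P)} (hS : IsData P p a S) {M : Multiset (Ev P)} (hW : S.IsW M)
    (hcard : M.card = 4) (hcount : ∀ z, M.count z ≤ S.mult z)
    (hnp : ∀ z ∈ M, S.inv z ∉ M.erase z) {m : ℕ}
    (hprod : (M.map Ev.val).prod ^ m = ((p ^ a : ℕ) : Spl P) ^ (2 * m)) :
    IsWeilType P p a m (M.map Ev.val) := by
  classical
  have hq : ((p ^ a : ℕ) : Spl P) ≠ 0 :=
    Nat.cast_ne_zero.2 (pow_ne_zero _ (Fact.out : p.Prime).ne_zero)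
  obtain ⟨c, ι, hι, hc⟩ := exists_conj hP
  have hv0 : ∀ z : Ev P, z.val ≠ 0 := fun z h => by
    have := hc z
    rw [h, mul_zero] at this
    exact hq this.symm
  have hN' : (M.map Ev.val).map (fun μ => ((p ^ a : ℕ) : Spl P) / μ) =
      (M.map S.inv).map Ev.val := by
    rw [Multiset.map_map, Multiset.map_map]
    exact Multiset.map_congr rfl fun z _ => (hS.inv z).symm
  set κ : ℕ → Spl P := fun n => (pol (M.map Ev.val)).coeff n with hκ
  set κ' : ℕ → Spl P := fun n => (pol ((M.map S.inv).map Ev.val)).coeff n with hκ'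
  -- (1)
  have hMne : M ≠ M.map S.inv := by
    intro h
    have hr : ∀ z ∈ M, S.inv z = z := by
      intro z hz
      by_contra hne
      have h1 : S.inv z ∈ M := by
        rw [h]
        exact Multiset.mem_map_of_mem _ hz
      exact hnp z hz ((Multiset.mem_erase_of_ne hne).2 h1)
    obtain ⟨z₀, hz₀⟩ := Multiset.card_pos_iff_exists_mem.1 (by omega : 0 < M.card)
    have h2 : (M.erase z₀).card = 3 := by
      rw [Multiset.card_erase_of_mem hz₀, hcard]
      rfl
    obtain ⟨z₁, hz₁⟩ := Multiset.card_pos_iff_exists_mem.1 (by omega : 0 < (M.erase z₀).card)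
    have h3 : z₁ = z₀ := S.real_unique (hr z₁ (Multiset.mem_of_mem_erase hz₁)) (hr z₀ hz₀)
    apply hnp z₀ hz₀
    rw [hr z₀ hz₀, ← h3]
    rw [h3] at hz₁ ⊢
    exact hz₁
  have hne : pol (M.map Ev.val) ≠ pol ((M.map S.inv).map Ev.val) := by
    intro h
    have h1 := congrArg Polynomial.roots h
    rw [pol_roots, pol_roots] at h1
    exact hMne (Multiset.map_injective (val_inj P) h1)
  obtain ⟨n₀, hn₀⟩ : ∃ n, κ n ≠ κ' n := by
    by_contra h
    push Not at h
    exact hne (Polynomial.ext h)
  -- (2)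
  have hmm : (M.map S.inv).map S.inv = M := by
    rw [Multiset.map_map]
    conv_rhs => rw [← Multiset.map_id M]
    exact Multiset.map_congr rfl fun z _ => S.inv_inv z
  have hcomm : ∀ g : Gr P, (M.map S.inv).map (g • ·) = (M.map (g • ·)).map S.inv := by
    intro g
    rw [Multiset.map_map, Multiset.map_map]
    exact Multiset.map_congr rfl fun z _ => S.smul_inv g z
  have hA : ∀ g : Gr P, M.map (g • ·) = M → ∀ n, g (κ n) = κ n ∧ g (κ' n) = κ' n := by
    intro g hg n
    refine ⟨?_, ?_⟩
    · rw [hκ]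
      simp only
      rw [coeff_smul, hg]
    · rw [hκ']
      simp only
      rw [coeff_smul, hcomm, hg]
  have hB : ∀ g : Gr P, M.map (g • ·) = M.map S.inv → ∀ n, g (κ n) = κ' n ∧ g (κ' n) = κ n := by
    intro g hg n
    refine ⟨?_, ?_⟩
    · rw [hκ, hκ']
      simp only
      rw [coeff_smul, hg]
    · rw [hκ, hκ']
      simp only
      rw [coeff_smul, hcomm, hg, hmm]
  set δ : Spl P := κ n₀ - κ' n₀ with hδ
  have hδ0 : δ ≠ 0 := sub_ne_zero.2 hn₀
  have fixed : ∀ x : Spl P, (∀ g : Gr P, g x = x) → ∃ r : ℚ, (r : Spl P) = x := by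
    intro x hx
    have : IsGalois ℚ (Spl P) := spl_galois P
    have h1 := (IsGalois.mem_range_algebraMap_iff_fixed (F := ℚ) (E := Spl P) x).2 hx
    obtain ⟨r, hr⟩ := h1
    exact ⟨r, by rw [← hr, eq_ratCast]⟩
  obtain ⟨d, hd⟩ := fixed (δ ^ 2) (fun g => by
    rcases hW.1 g with h | h
    · rw [map_pow, hδ, map_sub, (hA g h n₀).1, (hA g h n₀).2]
    · rw [map_pow, hδ, map_sub, (hB g h n₀).1, (hB g h n₀).2]
      ring)
  -- (3)
  have hcM : M.map (c • ·) = M.map S.inv := by
    refine Multiset.map_congr rfl fun z _ => Ev.ext ?_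
    rw [Ev.val_smul, hS.inv z, eq_div_iff (hv0 z)]
    exact hc z
  have hcδ : c δ = -δ := by
    rw [hδ, map_sub, (hB c hcM n₀).1, (hB c hcM n₀).2]
    ring
  have hd0 : d < 0 := by
    have h1 : (starRingEnd ℂ) (ι δ) = -(ι δ) := by rw [← hι, hcδ, map_neg]
    have hre : (ι δ).re = 0 := by
      have := congrArg Complex.re h1
      rw [Complex.conj_re, Complex.neg_re] at this
      linarith
    have him : (ι δ).im ≠ 0 := by
      intro h
      have : ι δ = 0 := Complex.ext hre h
      rw [map_eq_zero] at this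
      exact hδ0 this
    have h2 : ((d : ℚ) : ℂ) = (ι δ) ^ 2 := by
      rw [← map_pow, ← hd, map_ratCast]
    have h3 := congrArg Complex.re h2
    rw [Complex.ratCast_re, pow_two, Complex.mul_re, hre] at h3
    have h4 : 0 < (ι δ).im * (ι δ).im := mul_self_pos.2 him
    have h5 : (d : ℝ) < 0 := by rw [h3]; linarith
    exact_mod_cast h5
  refine ⟨d, δ, hd0, hd.symm, fun n => ?_, by rw [Multiset.card_map, hcard], hprod, ?_, ?_, ?_⟩
  · -- (4)
    obtain ⟨r₁, hr₁⟩ := fixed (κ n + κ' n) (fun g => by
      rcases hW.1 g with h | h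
      · rw [map_add, (hA g h n).1, (hA g h n).2]
      · rw [map_add, (hB g h n).1, (hB g h n).2, add_comm])
    obtain ⟨r₂, hr₂⟩ := fixed ((κ n - κ' n) / δ) (fun g => by
      rcases hW.1 g with h | h
      · rw [map_div₀, map_sub, (hA g h n).1, (hA g h n).2, hδ, map_sub, (hA g h n₀).1,
          (hA g h n₀).2]
      · rw [map_div₀, map_sub, (hB g h n).1, (hB g h n).2, hδ, map_sub, (hB g h n₀).1,
          (hB g h n₀).2, ← neg_sub (κ n), ← neg_sub (κ n₀), neg_div_neg_eq])
    apply mem_adj δ _ (r₁ / 2) (r₂ / 2)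
    push_cast
    rw [hr₁, hr₂]
    field_simp
    ring
  · -- no two with product `q`
    intro μ hμ ν hν h
    obtain ⟨z, hz, rfl⟩ := Multiset.mem_map.1 hμ
    rw [← Multiset.map_erase _ (val_inj P)] at hν
    obtain ⟨w, hw, rfl⟩ := Multiset.mem_map.1 hν
    have h1 : w = S.inv z := Ev.ext (by
      rw [hS.inv z, eq_div_iff (hv0 z), mul_comm]
      exact h)
    rw [h1] at hw
    exact hnp z hz hw
  · -- (5)
    rw [hN', ← pol_add]
    have hP0 : P.map (Int.castRingHom (Spl P)) ≠ 0 :=
      (hP.monic.map (Int.castRingHom (Spl P))).ne_zero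
    unfold pol
    rw [Multiset.prod_X_sub_C_dvd_iff_le_roots hP0, Multiset.le_iff_count]
    intro x
    by_cases hx : x ∈ M.map Ev.val + (M.map S.inv).map Ev.val
    swap
    · rw [Multiset.count_eq_zero_of_notMem hx]
      exact Nat.zero_le _
    obtain ⟨z, rfl⟩ : ∃ z : Ev P, z.val = x := by
      rcases Multiset.mem_add.1 hx with h | h
      · obtain ⟨z, _, hz⟩ := Multiset.mem_map.1 h
        exact ⟨z, hz⟩
      · obtain ⟨z, _, hz⟩ := Multiset.mem_map.1 h
        exact ⟨z, hz⟩
    rw [Multiset.count_add, Multiset.count_map_eq_count' _ _ (val_inj P),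
      Multiset.count_map_eq_count' _ _ (val_inj P), Polynomial.count_roots, ← hS.mult z]
    have hinv : (M.map S.inv).count z = M.count (S.inv z) := by
      conv_lhs => rw [← S.inv_inv z]
      exact Multiset.count_map_eq_count' _ _ (fun _ _ h => S.inv_inj h) _
    rw [hinv]
    by_cases hz : S.inv z = z
    · have h1 : M.count z ≤ 1 := by
        by_contra h2
        push Not at h2
        have h3 : z ∈ M := Multiset.count_pos.1 (by omega)
        apply hnp z h3
        rw [hz, ← Multiset.count_pos, Multiset.count_erase_self]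
        omega
      rw [hz]
      have := S.two_le_real hz
      omega
    · by_cases h1 : z ∈ M
      · have h2 : M.count (S.inv z) = 0 := by
          rw [Multiset.count_eq_zero]
          intro h3
          exact hnp z h1 ((Multiset.mem_erase_of_ne hz).2 h3)
        rw [h2, add_zero]
        exact hcount z
      · rw [Multiset.count_eq_zero_of_notMem h1, zero_add, ← S.mult_inv]
        exact hcount _
  · -- (6)
    rintro ⟨μ, hμ, hμ2⟩ y hy
    obtain ⟨z, hz, rfl⟩ := Multiset.mem_map.1 hμ
    have h1 : S.inv z = z := Ev.ext (by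
      rw [hS.inv z, div_eq_iff (hv0 z), ← pow_two]
      exact hμ2.symm)
    obtain ⟨d₀, hd₀, hd₀'⟩ := hW.2 ⟨z, hz, h1⟩
    obtain ⟨τ, hτ⟩ := (hS.D d₀).1 hd₀
    have h2 : d₀ δ = -δ := by
      rw [hδ, map_sub, (hB d₀ hd₀' n₀).1, (hB d₀ hd₀' n₀).2]
      ring
    have h3 := hτ δ
    rw [h2, map_neg] at h3
    have h4 : (emb P p δ) ^ 2 = (algebraMap ℚ_[p] (PadicAlgCl p) y) ^ 2 := by
      rw [← map_pow, ← hd, ← map_pow, hy, map_ratCast, map_ratCast]
    have h5 : τ (emb P p δ) = emb P p δ := by
      rcases sq_eq_sq_iff_eq_or_eq_neg.1 h4 with h | h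
      · rw [h, AlgEquiv.commutes]
      · rw [h, map_neg, AlgEquiv.commutes]
    rw [h5] at h3
    have h6 : emb P p δ = 0 := self_eq_neg.1 h3.symm
    rw [map_eq_zero] at h6
    exact hδ0 h6

end Pool.Agent.Exo5
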