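import Pool.Agent.Exo5.Card
import Pool.Agent.Exo5.Data
import Pool.Agent.Exo5.Transfer
import Pool.Agent.Exo5.WeilPoly
import Pool.Agent.Exo5.DPoly

/-!
# The key property of the multisets of Frobenius eigenvalues
-/

set_option autoImplicit false

namespace Pool.Agent.Exo5

open Polynomial

variable {P : ℤ[X]} {p a : ℕ} [Fact p.Prime]

theorem sum_log_eq (M : Multiset (Ev P)) (hz0 : ∀ z ∈ M, z.val ≠ 0) (g : Gr P) :
    (M.map fun z => Real.log ‖emb P p (g • z).val‖).sum =
      Real.log ‖emb P p (g (M.map Ev.val).prod)‖ := by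
  induction M using Multiset.induction_on with
  | empty => simp
  | cons z M ih =>
    have h1 : (M.map Ev.val).prod ≠ 0 := by
      intro h
      obtain ⟨w, hw, hw0⟩ := Multiset.mem_map.1 (Multiset.prod_eq_zero_iff.1 h)
      exact hz0 w (Multiset.mem_cons_of_mem hw) hw0
    have h2 := hz0 z (Multiset.mem_cons_self _ _)
    rw [Multiset.map_cons, Multiset.sum_cons, Multiset.map_cons, Multiset.prod_cons, map_mul,
      map_mul, norm_mul, Real.log_mul, ih fun w hw => hz0 w (Multiset.mem_cons_of_mem hw)]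
    · rfl
    · rw [norm_ne_zero_iff, Ne, map_eq_zero, map_eq_zero]
      exact h2
    · rw [norm_ne_zero_iff, Ne, map_eq_zero, map_eq_zero]
      exact h1

theorem rel_of_prod (ha : 0 < a) {S : SlopeData (Gr P) (Ev P)} (hS : IsData P p a S)
    {M : Multiset (Ev P)} (hz0 : ∀ z ∈ M, z.val ≠ 0) {i m : ℕ} (hm : 0 < m)
    (hc : M.card = 2 * i)
    (hprod : (M.map Ev.val).prod ^ m = ((p ^ a : ℕ) : Spl P) ^ (i * m)) (g : Gr P) :
    (M.map fun z => S.sl (g • z)).sum = 0 := by
  have hlq := log_q (p := p) ha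
  have h1 := sum_log_eq (p := p) M hz0 g
  have h2 : (m : ℝ) * Real.log ‖emb P p (g (M.map Ev.val).prod)‖ =
      (i * m : ℕ) * Real.log ‖((p ^ a : ℕ) : ℚ_[p])‖ := by
    rw [← Real.log_pow, ← Real.log_pow, ← norm_pow, ← norm_pow, ← map_pow, ← map_pow, hprod,
      map_pow, map_natCast, map_pow, norm_pow, norm_pow]
    congr 2
    exact norm_emb_nat _
  have hm' : (m : ℝ) ≠ 0 := by exact_mod_cast hm.ne'
  have h3 : (M.map fun z => Real.log ‖emb P p (g • z).val‖).sum =
      i * Real.log ‖((p ^ a : ℕ) : ℚ_[p])‖ := by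
    rw [h1]
    apply mul_left_cancel₀ hm'
    rw [h2]
    push_cast
    ring
  have h4 : ∀ N : Multiset (Ev P), (N.map fun z => S.sl (g • z)).sum =
      (N.map fun z => Real.log ‖emb P p (g • z).val‖).sum /
        Real.log ‖((p ^ a : ℕ) : ℚ_[p])‖ - N.card / 2 := by
    intro N
    induction N using Multiset.induction_on with
    | empty => simp
    | cons z N ih =>
      rw [Multiset.map_cons, Multiset.sum_cons, Multiset.map_cons, Multiset.sum_cons, ih,
        Multiset.card_cons, hS.sl]
      push_cast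
      ring
  rw [h4, h3, hc, mul_div_cancel_right₀ _ hlq.ne]
  push_cast
  ring

theorem key (hP : IsFrobPoly P p a) (ha : 0 < a) (hdeg : P.natDegree ≤ 10) (hneat : Neat P)
    {K : Type} [Field K] [CharZero K] [IsAlgClosed K] [DecidableEq K] {m : ℕ} (hm : 0 < m)
    (i : ℕ) (M : Multiset K) (hM : M ≤ (P.map (Int.castRingHom K)).roots)
    (hcard : M.card = 2 * i) (hprod : M.prod ^ m = ((p ^ a : ℕ) : K) ^ (i * m)) :
    M = 0 ∨ (∃ μ ∈ M, ∃ ν ∈ M.erase μ, μ * ν = ((p ^ a : ℕ) : K)) ∨
      (IsWeilType P p a m M ∨ IsDFourType P p a m M) := by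
  letI : DecidableEq (Spl P) := Classical.decEq _
  obtain ⟨S, hS⟩ := exists_data hP ha hdeg hneat
  obtain ⟨ψ⟩ : Nonempty (Spl P →+* K) :=
    ⟨(IsAlgClosed.lift : Spl P →ₐ[ℚ] K).toRingHom⟩
  have hp := (Fact.out : p.Prime)
  have hq0 : ((p ^ a : ℕ) : Spl P) ≠ 0 := by exact_mod_cast (pow_pos hp.pos a).ne'
  obtain ⟨c, -, -, hc⟩ := exists_conj hP
  have hz0 : ∀ z : Ev P, z.val ≠ 0 := by
    intro z h
    apply hq0
    rw [← hc z, h, mul_zero]
  have e2 : P.map (Int.castRingHom K) = (P.map (Int.castRingHom (Spl P))).map ψ := by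
    rw [Polynomial.map_map]
    congr 1
    exact RingHom.ext_int _ _
  have hsplit : (P.map (Int.castRingHom (Spl P))).Splits := by
    have h1 := SplittingField.splits (P.map (Int.castRingHom ℚ))
    rw [Polynomial.map_map] at h1
    convert h1 using 2
    exact (RingHom.ext_int _ _)
  have hroots : (P.map (Int.castRingHom K)).roots =
      (P.map (Int.castRingHom (Spl P))).roots.map ψ := by
    rw [e2]
    exact hsplit.roots_map ψ
  have hinj : Function.Injective fun z : Ev P => ψ z.val := fun z w h =>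
    Ev.ext (ψ.injective h)
  obtain ⟨M', rfl⟩ : ∃ M' : Multiset (Ev P), M'.map (fun z => ψ z.val) = M := by
    have h1 : ∀ x ∈ M, ∃ z : Ev P, ψ z.val = x := by
      intro x hx
      have h2 := Multiset.mem_of_le hM hx
      rw [hroots] at h2
      obtain ⟨y, hy, rfl⟩ := Multiset.mem_map.1 h2
      exact ⟨Ev.mk y hy, rfl⟩
    clear hprod hcard hM
    induction M using Multiset.induction_on with
    | empty => exact ⟨0, rfl⟩
    | cons x M ih =>
      obtain ⟨M', hM'⟩ := ih fun y hy => h1 y (Multiset.mem_cons_of_mem hy)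
      obtain ⟨z, hz⟩ := h1 x (Multiset.mem_cons_self _ _)
      exact ⟨z ::ₘ M', by rw [Multiset.map_cons, hM', hz]⟩
  rw [Multiset.card_map] at hcard
  have hmm : M'.map (fun z => ψ z.val) = (M'.map Ev.val).map ψ := by
    rw [Multiset.map_map]
    rfl
  have hprod' : (M'.map Ev.val).prod ^ m = ((p ^ a : ℕ) : Spl P) ^ (i * m) := by
    apply ψ.injective
    rw [map_pow, map_pow, map_natCast, map_multiset_prod, ← hmm, hprod]
  have hle : ∀ z, M'.count z ≤ S.mult z := by
    intro z
    rw [hS.mult, ← count_roots]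
    have h1 := Multiset.count_le_of_le (ψ z.val) hM
    have h2 := Multiset.count_map_eq_count' (fun z : Ev P => ψ z.val) M' hinj z
    have h3 := Multiset.count_map_eq_count' ψ (P.map (Int.castRingHom (Spl P))).roots
      ψ.injective z.val
    rw [hroots] at h1
    rw [← h2, ← h3]
    exact h1
  rcases S.classify M' hcard hle
    (fun g => rel_of_prod ha hS (fun z _ => hz0 z) hm hcard hprod' g) with h | h | h
  · left
    rw [h, Multiset.map_zero]
  · right; left
    obtain ⟨z, hz, hz'⟩ := h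
    refine ⟨ψ z.val, Multiset.mem_map_of_mem _ hz, ψ (S.inv z).val, ?_, ?_⟩
    · have h1 := Multiset.map_erase (fun z : Ev P => ψ z.val) hinj z M'
      rw [← h1]
      exact Multiset.mem_map_of_mem _ hz'
    · rw [← map_mul, hS.inv, mul_div_cancel₀ _ (hz0 z), map_natCast]
  · right; right
    obtain ⟨h4, hnp, h5⟩ := h
    have hi : i = 2 := by omega
    subst hi
    rw [hmm]
    rcases h5 with h5 | h5
    · exact Or.inl (IsWeilType.map ψ (isWeilType_of_isW hP hS h5 h4 hle hnp hprod'))
    · exact Or.inr (IsDFourType.map ψ (isDFourType_of_isD hP ha hS h5 hprod'))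

end Pool.Agent.Exo5
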