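import Pool.Agent.Exo5.Basic

/-!
# Relation functions
-/

set_option autoImplicit false

namespace Pool.Agent.Exo5.SlopeData

variable {G Z : Type} [Group G] [Fintype G] [Fintype Z] [DecidableEq Z] [MulAction G Z]
  (S : SlopeData G Z)

/-- an odd integral function `s` such that the sum of the `s z` times the slopes of `z` vanishes
at all places -/
def IsRel (s : Z → ℤ) : Prop :=
  (∀ z, s (S.inv z) = -s z) ∧ ∀ g : G, ∑ z, (s z : ℝ) * S.sl (g • z) = 0

variable {S}

theorem IsRel.smul {s : Z → ℤ} (h : S.IsRel s) (g : G) : S.IsRel fun z => s (g⁻¹ • z) := by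
  refine ⟨fun z => ?_, fun k => ?_⟩
  · change s (g⁻¹ • S.inv z) = -s (g⁻¹ • z)
    rw [S.smul_inv, h.1]
  rw [← h.2 (k * g)]
  refine Fintype.sum_equiv (MulAction.toPerm g⁻¹) _ _ fun z => ?_
  simp only [MulAction.toPerm_apply]
  rw [mul_smul, smul_inv_smul]

theorem IsRel.real {s : Z → ℤ} (h : S.IsRel s) {z : Z} (hz : S.inv z = z) : s z = 0 := by
  have h1 := h.1 z
  rw [hz] at h1
  omega

/-- a relation function gives a relation between the vectors of a system of representatives -/
theorem IsRel.sum_finset {s : Z → ℤ} (h : S.IsRel s) (T : Finset Z)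
    (hr : ∀ z ∈ T, S.inv z ≠ z) (ha : ∀ z ∈ T, ∀ w ∈ T, z ≠ w → S.Ap z w)
    (hcov : ∀ z, z ∈ T ∨ S.inv z ∈ T ∨ s z = 0) : ∑ z ∈ T, (s z : ℝ) • S.vec z = 0 := by
  have hd : Disjoint T (T.image S.inv) := by
    rw [Finset.disjoint_left]
    intro z hz hz'
    obtain ⟨w, hw, rfl⟩ := Finset.mem_image.1 hz'
    by_cases e : S.inv w = w
    · exact hr w hw e
    · exact (ha _ hz _ hw e).2 rfl
  funext g
  rw [Finset.sum_apply, Pi.zero_apply]
  have h1 := h.2 g
  rw [← Finset.sum_subset (Finset.subset_univ (T ∪ T.image S.inv)), Finset.sum_union hd,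
    Finset.sum_image fun z _ w _ h => S.inv_inj h] at h1
  · have h2 : ∀ z ∈ T, (s (S.inv z) : ℝ) * S.sl (g • S.inv z) = (s z : ℝ) * S.sl (g • z) := by
      intro z _
      rw [h.1, S.smul_inv, S.sl_inv]
      push_cast
      ring
    rw [Finset.sum_congr rfl h2] at h1
    have h3 : ∑ z ∈ T, (s z : ℝ) * S.sl (g • z) = 0 := by linarith
    exact h3
  · intro z _ hz
    rw [Finset.mem_union, Finset.mem_image, not_or] at hz
    rcases hcov z with h2 | h2 | h2
    · exact absurd h2 hz.1
    · exact absurd ⟨_, h2, S.inv_inv z⟩ hz.2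
    · rw [h2]
      push_cast
      ring

open Classical in
/-- the relation function of a relation -/
theorem isRel_of_multiset (M : Multiset Z)
    (h : ∀ g : G, (M.map fun z => S.sl (g • z)).sum = 0) :
    S.IsRel fun z => (M.count z : ℤ) - M.count (S.inv z) := by
  refine ⟨fun z => by simp only [S.inv_inv]; ring, fun g => ?_⟩
  have h1 : ∑ z, (M.count z : ℝ) * S.sl (g • z) = 0 := by
    rw [← h g, Finset.sum_multiset_map_count, ← Finset.sum_subset (Finset.subset_univ M.toFinset)]
    · exact Finset.sum_congr rfl fun z _ => by rw [nsmul_eq_mul]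
    · intro z _ hz
      rw [Multiset.mem_toFinset] at hz
      rw [Multiset.count_eq_zero_of_notMem hz]
      push_cast
      ring
  have h2 : ∑ z, (M.count (S.inv z) : ℝ) * S.sl (g • z) = 0 := by
    have e : ∑ z, (M.count (S.inv z) : ℝ) * S.sl (g • z) =
        ∑ z, -((M.count z : ℝ) * S.sl (g • z)) := by
      refine Fintype.sum_equiv ⟨S.inv, S.inv, S.inv_inv, S.inv_inv⟩ _ _ fun z => ?_
      rw [Equiv.coe_fn_mk, S.smul_inv, S.sl_inv]
      ring
    rw [e, Finset.sum_neg_distrib, h1, neg_zero]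
  rw [← sub_eq_zero.2 (h1.trans h2.symm), ← Finset.sum_sub_distrib]
  refine Finset.sum_congr rfl fun z _ => ?_
  push_cast
  ring

end Pool.Agent.Exo5.SlopeData
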