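import Mathlib

/-!
# Slope data: definitions

`Z` is the set of the Frobenius eigenvalues, `G` the Galois group, `inv z = q / z`, `c` the complex
conjugation, `sl z` the slope of `z` minus `1/2` (for a fixed place over `p`), `mult` the
multiplicity, `D` the decomposition group.
-/

set_option autoImplicit false

namespace Pool.Agent.Exo5

/-- slope data of an abelian variety over a finite field (of dimension at most five) -/
structure SlopeData (G Z : Type) [Group G] [Fintype G] [Fintype Z] [DecidableEq Z]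
    [MulAction G Z] where
  inv : Z → Z
  inv_inv : ∀ z, inv (inv z) = z
  c : G
  c_smul : ∀ z, c • z = inv z
  smul_inv : ∀ (g : G) z, g • inv z = inv (g • z)
  sl : Z → ℝ
  sl_inv : ∀ z, sl (inv z) = -sl z
  sl_le : ∀ z, |sl z| ≤ 1 / 2
  ext : ∀ z w, (∀ g : G, sl (g • z) = sl (g • w)) → z = w
  mult : Z → ℕ
  mult_pos : ∀ z, 0 < mult z
  mult_smul : ∀ (g : G) z, mult (g • z) = mult z
  total : ∑ z, mult z ≤ 10
  D : Subgroup G
  sl_D : ∀ d ∈ D, ∀ z, sl (d • z) = sl z
  int : ∀ z, ∃ k : ℤ, (mult z : ℝ) * (MulAction.orbit D z).ncard * (sl z + 1 / 2) = k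

variable {G Z : Type} [Group G] [Fintype G] [Fintype Z] [DecidableEq Z] [MulAction G Z]

namespace SlopeData

/-- the vector of the slopes at all places -/
def vec (S : SlopeData G Z) (z : Z) (g : G) : ℝ := S.sl (g • z)

/-- the inner product -/
def ip (u v : G → ℝ) : ℝ := ∑ g, u g * v g

/-- `z` is not equal to `w` or `inv w` -/
def Ap (S : SlopeData G Z) (z w : Z) : Prop := z ≠ w ∧ z ≠ S.inv w

/-- the second alternative of the classification -/
def IsW (S : SlopeData G Z) (M : Multiset Z) : Prop :=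
  (∀ g : G, M.map (g • ·) = M ∨ M.map (g • ·) = M.map S.inv) ∧
    ((∃ z ∈ M, S.inv z = z) → ∃ d ∈ S.D, M.map (d • ·) = M.map S.inv)

/-- the third alternative of the classification: `a`, `b` are the eigenvalues of the almost
ordinary surface, `u`, `v` those of the ordinary surface -/
structure DFour (S : SlopeData G Z) (z₀ a b u v : Z) : Prop where
  real : S.inv z₀ = z₀
  nra : S.inv a ≠ a
  nrb : S.inv b ≠ b
  nru : S.inv u ≠ u
  nrv : S.inv v ≠ v
  ab : S.Ap a b
  au : S.Ap a u
  av : S.Ap a v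
  bu : S.Ap b u
  bv : S.Ap b v
  uv : S.Ap u v
  cover : ∀ z, z = z₀ ∨ z = a ∨ z = S.inv a ∨ z = b ∨ z = S.inv b ∨ z = u ∨ z = S.inv u ∨
    z = v ∨ z = S.inv v
  m₀ : S.mult z₀ = 2
  ma : S.mult a = 1
  mb : S.mult b = 1
  mu : S.mult u = 1
  mv : S.mult v = 1
  conj_ab : ∃ g : G, g • a = b
  conj_uv : ∃ g : G, g • u = v
  fix : ∃ g : G, g • a = a ∧ g • b = S.inv b
  slab : (|S.sl a| = 1 / 2 ∧ S.sl b = 0) ∨ (S.sl a = 0 ∧ |S.sl b| = 1 / 2)
  slu : |S.sl u| = 1 / 2
  slv : |S.sl v| = 1 / 2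
  rel : ∀ g, S.vec a g + S.vec b g + S.vec u g = 0

/-- the third alternative of the classification -/
def IsD (S : SlopeData G Z) (M : Multiset Z) : Prop :=
  ∃ z₀ a b u v, S.DFour z₀ a b u v ∧ M = {z₀, a, b, u}

end SlopeData

end Pool.Agent.Exo5
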