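import Pool.Agent.Exo5.Basic
import Pool.Agent.Exo5.Defs

/-!
# The slope data of a Frobenius polynomial: set-up
-/

set_option autoImplicit false

namespace Pool.Agent.Exo5

open Polynomial

/-- the splitting field of `P` -/
abbrev Spl (P : ℤ[X]) : Type := (P.map (Int.castRingHom ℚ)).SplittingField

/-- the Galois group of `P` -/
abbrev Gr (P : ℤ[X]) : Type := Spl P ≃ₐ[ℚ] Spl P

open Classical in
/-- the roots of `P` in the splitting field -/
def Ev (P : ℤ[X]) : Type :=
  {z : Spl P // z ∈ (P.map (Int.castRingHom (Spl P))).roots.toFinset}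

namespace Ev

variable {P : ℤ[X]}

/-- the root as an element of the splitting field -/
def val (z : Ev P) : Spl P := z.1

theorem ext {z w : Ev P} (h : z.val = w.val) : z = w := Subtype.ext h

theorem mem (z : Ev P) : z.val ∈ (P.map (Int.castRingHom (Spl P))).roots := by
  classical
  exact Multiset.mem_toFinset.1 z.2

/-- a root -/
def mk (z : Spl P) (h : z ∈ (P.map (Int.castRingHom (Spl P))).roots) : Ev P :=
  ⟨z, by classical exact Multiset.mem_toFinset.2 h⟩

@[simp] theorem val_mk (z : Spl P) (h : z ∈ (P.map (Int.castRingHom (Spl P))).roots) :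
    (mk z h).val = z := rfl

noncomputable instance : Fintype (Ev P) := by
  classical
  exact inferInstanceAs
    (Fintype {z : Spl P // z ∈ (P.map (Int.castRingHom (Spl P))).roots.toFinset})

noncomputable instance : DecidableEq (Ev P) := Classical.decEq _

theorem smul_mem (g : Gr P) {z : Spl P} (h : z ∈ (P.map (Int.castRingHom (Spl P))).roots) :
    g z ∈ (P.map (Int.castRingHom (Spl P))).roots := by
  have h0 := (mem_roots'.1 h).1
  rw [mem_roots', IsRoot.def] at h ⊢
  refine ⟨h0, ?_⟩
  have h1 : (P.map (Int.castRingHom (Spl P))) =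
      (P.map (Int.castRingHom (Spl P))).map (g : Spl P →+* Spl P) := by
    rw [Polynomial.map_map]
    congr 1
    exact RingHom.ext_int _ _
  rw [h1]
  have h2 : eval ((g : Spl P →+* Spl P) z)
      ((P.map (Int.castRingHom (Spl P))).map (g : Spl P →+* Spl P)) =
      (g : Spl P →+* Spl P) (eval z (P.map (Int.castRingHom (Spl P)))) := by
    rw [eval_map, Polynomial.eval₂_at_apply]
  change eval ((g : Spl P →+* Spl P) z) _ = 0
  rw [h2, h.2, map_zero]

noncomputable instance : MulAction (Gr P) (Ev P) where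
  smul g z := mk (g z.val) (smul_mem g z.mem)
  one_smul _ := ext rfl
  mul_smul _ _ _ := ext rfl

@[simp] theorem val_smul (g : Gr P) (z : Ev P) : (g • z).val = g z.val := rfl

end Ev

variable (P : ℤ[X]) (p a : ℕ) [Fact p.Prime]

/-- an embedding of the splitting field in the algebraic closure of `ℚ_p` -/
noncomputable def emb : Spl P →+* PadicAlgCl p :=
  (IsAlgClosed.lift : Spl P →ₐ[ℚ] PadicAlgCl p).toRingHom

/-- `S` is the slope data of the polynomial `P` -/
structure IsData (S : SlopeData (Gr P) (Ev P)) : Prop where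
  inv : ∀ z : Ev P, (S.inv z).val = ((p ^ a : ℕ) : Spl P) / z.val
  sl : ∀ z : Ev P, S.sl z =
    Real.log ‖emb P p z.val‖ / Real.log ‖((p ^ a : ℕ) : ℚ_[p])‖ - 1 / 2
  mult : ∀ z : Ev P, S.mult z = (P.map (Int.castRingHom (Spl P))).rootMultiplicity z.val
  D : ∀ g : Gr P, g ∈ S.D ↔ ∃ τ : PadicAlgCl p ≃ₐ[ℚ_[p]] PadicAlgCl p, ∀ x : Spl P,
    emb P p (g x) = τ (emb P p x)

end Pool.Agent.Exo5
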