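import Pool.Agent.Exo5.Rel

/-!
# Relations between four different eigenvalues which are not real

PACKAGE Exo5-TOne (statement frozen). Write `x_z = S.vec z`, `±z` for `z` or `S.inv z`; a pair is
`{z, S.inv z}`. By `S.total_pairs` there are at most five pairs of nonreal elements (and with the
existence of a real one at most four, `S.total_pairs_real`, `S.two_le_real`).
(A) If every `g` maps `{a, b, c, d}` to `±{a, b, c, d}`: for given `g` the relation
`x_{ga} + ... = 0` is `Σ s_z x_z = 0` with signs `s_z`, `z ∈ {a, b, c, d}` (use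
`isRel_of_multiset`, `IsRel.smul`, `IsRel.sum_finset` below); adding and subtracting `hrel` gives:
the sum of the `x_z` with `s_z = 1` is zero and the sum of those with `s_z = -1` too. If both sets
are not empty, one of them has at most two elements: `x_z = 0` (nonreal) or `x_z = - x_w`
(`Ap.vec_ne_neg`): contradiction. So all signs are equal: `gM = M` or `gM = inv M`.
(B) Otherwise there is a fifth pair `e`, all multiplicities are 1, there is no real element, and
some `g` has `g e ≠ ±e` (else `g` permutes the other four pairs). Let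
`s z = count z M - count (inv z) M`, `M = {a, b, c, d}`, a relation function
(`isRel_of_multiset`): `s = ±1` on the four pairs, `s e = 0`; `s (g⁻¹ • ·)` is a relation function
(`IsRel.smul`), which is zero exactly on the pair of `g e`. All `g e` have the same length
(`ip_smul_self`).
(B1) there are `k₁, k₂, k₃` in the orbit of `e`, pairwise apart (all `Ap`), with relation functions
`s₁, s₂, s₃`, zero exactly on the pair of `kᵢ`; let `l₁, l₂` be the other two pairs. Two of the three
signs `sᵢ(l₁) sᵢ(l₂)` are equal, say for `i = 1, 2`; replacing `s₂` by `-s₂` we have `s₁ = s₂` on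
`l₁, l₂`, and `s₁ - s₂` gives `s₁(k₂) x_{k₂} - s₂(k₁) x_{k₁} + (s₁(k₃) - s₂(k₃)) x_{k₃} = 0`. The
last coefficient is 0 (then `x_{k₂} = ± x_{k₁}`, contradiction) or ±2 (contradiction by
`eq_of_two_smul` and `Ap`).
(B2) otherwise the orbit of the pair of `e` consists of two pairs, `e` and (after changing `g` by
`S.c` and the order of `a, b, c, d`) `d = g e`. The relation function `s (g⁻¹ • ·)` is
`s' a x_a + s' b x_b + s' c x_c + s' e x_e = 0`, signs. If `s' a = s' b = s' c` then
`x_d = ± x_e`, contradiction. So, after a permutation of `a, b, c` and a choice of the sign,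
`A + B + C + U = 0` and `A + B - C + V = 0` where `U = d`, `V = ± e`. So `2 C = V - U` and
`2 (A + B) = - (U + V)` (as vectors). Every `h` maps the set `{±U, ±V}` to itself and
`{±A, ±B, ±C}` to itself. If always `(hU, hV)` is one of `(U, V), (-U, -V), (V, U), (-V, -U)`,
then `S.not_compatible` gives `False`. Otherwise for some `h` it is one of
`(U, -V), (-U, V), (V, -U), (-V, U)`, and then `h (2 C) = ± (U + V) = ∓ 2 (A + B)`, so
`h C = ± (A + B)` is one of `±A, ±B, ±C`. `± A`: `B = 0` or `B = -2 A`; `± B`: `A = 0` or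
`A = -2 B`; `± C`: `A + B = -C` gives `U = 0`, `A + B = C` gives `2 C = - U`, `V = 0`. Remains
`B = -2 A` (the case `A = -2 B` is the same): then `C` and `A` have the same length,
`2 A = U + V`, `2 C = V - U`, so `U ⊥ V`, `|A|² = |C|² = r² / 2`, `r = |U| = |V|`,
`|B|² = 2 r²`; `h B = ∓ (U - V)` (as `B = - (U + V)`) has the length of `B`, so `h B = ± B`
(it is in `{±A, ±B, ±C}`), so `U - V = ± (U + V)`: `U = 0` or `V = 0`. Contradiction.
-/

set_option autoImplicit false

namespace Pool.Agent.Exo5.SlopeData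

variable {G Z : Type} [Group G] [Fintype G] [Fintype Z] [DecidableEq Z] [MulAction G Z]
  (S : SlopeData G Z)

variable {S} in
/-- elements which are apart, each of them up to sign in a list of four elements -/
private theorem exists_perm {q p : Fin 4 → Z} (hq : ∀ i j, i ≠ j → S.Ap (q i) (q j))
    (h : ∀ i, ∃ j, q i = p j ∨ q i = S.inv (p j)) :
    ∃ σ : Equiv.Perm (Fin 4), ∀ j, q (σ j) = p j ∨ q (σ j) = S.inv (p j) := by
  choose τ hτ using h
  have hinj : Function.Injective τ := by
    intro i j hij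
    by_contra hne
    have h1 := hq i j hne
    have h2 := hτ i
    have h3 := hτ j
    rw [← hij] at h3
    rcases h2 with h2 | h2 <;> rcases h3 with h3 | h3
    · exact h1.1 (h2.trans h3.symm)
    · exact h1.2 (by rw [h3, S.inv_inv]; exact h2)
    · exact h1.2 (by rw [h3]; exact h2)
    · exact h1.1 (h2.trans h3.symm)
  have hbij : Function.Bijective τ := Finite.injective_iff_bijective.1 hinj
  refine ⟨(Equiv.ofBijective τ hbij).symm, fun j => ?_⟩
  have h4 := hτ ((Equiv.ofBijective τ hbij).symm j)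
  have h5 : τ ((Equiv.ofBijective τ hbij).symm j) = j := (Equiv.ofBijective τ hbij).apply_symm_apply j
  rwa [h5] at h4

variable {S} in
private theorem exists_four {q0 q1 q2 q3 p0 p1 p2 p3 : Z} (h01 : S.Ap q0 q1) (h02 : S.Ap q0 q2)
    (h03 : S.Ap q0 q3) (h12 : S.Ap q1 q2) (h13 : S.Ap q1 q3) (h23 : S.Ap q2 q3)
    (h : ∀ z, z = q0 ∨ z = q1 ∨ z = q2 ∨ z = q3 → (z = p0 ∨ z = S.inv p0) ∨
      (z = p1 ∨ z = S.inv p1) ∨ (z = p2 ∨ z = S.inv p2) ∨ (z = p3 ∨ z = S.inv p3)) :
    ∃ r0 r1 r2 r3 : Z, ({q0, q1, q2, q3} : Multiset Z) = {r0, r1, r2, r3} ∧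
      S.vec q0 + S.vec q1 + S.vec q2 + S.vec q3 = S.vec r0 + S.vec r1 + S.vec r2 + S.vec r3 ∧
      (r0 = p0 ∨ r0 = S.inv p0) ∧ (r1 = p1 ∨ r1 = S.inv p1) ∧ (r2 = p2 ∨ r2 = S.inv p2) ∧
      (r3 = p3 ∨ r3 = S.inv p3) := by
  have hq : ∀ i j, i ≠ j → S.Ap (![q0, q1, q2, q3] i) (![q0, q1, q2, q3] j) := by
    intro i j hij
    fin_cases i <;> fin_cases j <;> first
      | exact absurd rfl hij
      | exact h01
      | exact h02
      | exact h03
      | exact h12
      | exact h13
      | exact h23
      | exact h01.symm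
      | exact h02.symm
      | exact h03.symm
      | exact h12.symm
      | exact h13.symm
      | exact h23.symm
  have hp : ∀ i, ∃ j, ![q0, q1, q2, q3] i = ![p0, p1, p2, p3] j ∨
      ![q0, q1, q2, q3] i = S.inv (![p0, p1, p2, p3] j) := by
    intro i
    have h1 : ![q0, q1, q2, q3] i = q0 ∨ ![q0, q1, q2, q3] i = q1 ∨ ![q0, q1, q2, q3] i = q2 ∨
        ![q0, q1, q2, q3] i = q3 := by
      fin_cases i
      · exact Or.inl rfl
      · exact Or.inr (Or.inl rfl)
      · exact Or.inr (Or.inr (Or.inl rfl))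
      · exact Or.inr (Or.inr (Or.inr rfl))
    rcases h _ h1 with h2 | h2 | h2 | h2
    · exact ⟨0, h2⟩
    · exact ⟨1, h2⟩
    · exact ⟨2, h2⟩
    · exact ⟨3, h2⟩
  obtain ⟨σ, hσ⟩ := exists_perm hq hp
  refine ⟨![q0, q1, q2, q3] (σ 0), ![q0, q1, q2, q3] (σ 1), ![q0, q1, q2, q3] (σ 2),
    ![q0, q1, q2, q3] (σ 3), ?_, ?_, hσ 0, hσ 1, hσ 2, hσ 3⟩
  · have h1 : (Finset.univ : Finset (Fin 4)).val.map (fun i => ![q0, q1, q2, q3] (σ i)) =
        (Finset.univ : Finset (Fin 4)).val.map ![q0, q1, q2, q3] := by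
      have h0 : (fun i => ![q0, q1, q2, q3] (σ i)) = ![q0, q1, q2, q3] ∘ σ := rfl
      rw [h0, ← Multiset.map_map]
      congr 1
      exact Multiset.map_univ_val_equiv σ
    have h2 : ∀ f : Fin 4 → Z, (Finset.univ : Finset (Fin 4)).val.map f =
        {f 0, f 1, f 2, f 3} := fun f => rfl
    rw [h2, h2] at h1
    exact h1.symm
  · have h1 : ∑ i, S.vec (![q0, q1, q2, q3] (σ i)) = ∑ i, S.vec (![q0, q1, q2, q3] i) :=
      Equiv.sum_comp σ fun i => S.vec (![q0, q1, q2, q3] i)
    rw [Fin.sum_univ_four, Fin.sum_univ_four] at h1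
    exact h1.symm

/-- relations are preserved by the group -/
private theorem rel_smul {a b c d : Z} (hrel : S.vec a + S.vec b + S.vec c + S.vec d = 0) (g : G) :
    S.vec (g • a) + S.vec (g • b) + S.vec (g • c) + S.vec (g • d) = 0 := by
  funext k
  have := congrFun hrel (k * g)
  simpa only [Pi.add_apply, Pi.zero_apply, vec_smul] using this

private theorem case_signs {a b c d a' b' c' d' : Z} (ha : S.inv a ≠ a) (hb : S.inv b ≠ b)
    (hc : S.inv c ≠ c) (hd : S.inv d ≠ d) (hab : S.Ap a b) (hac : S.Ap a c) (had : S.Ap a d)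
    (hbc : S.Ap b c) (hbd : S.Ap b d) (hcd : S.Ap c d)
    (hrel : S.vec a + S.vec b + S.vec c + S.vec d = 0)
    (hs : S.vec a' + S.vec b' + S.vec c' + S.vec d' = 0) (ea : a' = a ∨ a' = S.inv a)
    (eb : b' = b ∨ b' = S.inv b) (ec : c' = c ∨ c' = S.inv c) (ed : d' = d ∨ d' = S.inv d) :
    (a' = a ∧ b' = b ∧ c' = c ∧ d' = d) ∨
      (a' = S.inv a ∧ b' = S.inv b ∧ c' = S.inv c ∧ d' = S.inv d) := by
  rcases ea with rfl | rfl <;> rcases eb with rfl | rfl <;> rcases ec with rfl | rfl <;>
    rcases ed with rfl | rfl <;> first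
    | exact Or.inl ⟨rfl, rfl, rfl, rfl⟩
    | exact Or.inr ⟨rfl, rfl, rfl, rfl⟩
    | (exfalso
       simp only [vec_inv] at hs
       first
       | exact S.vec_ne_zero ha (by
          linear_combination (norm := module) (1 / 2 : ℝ) • hrel - (1 / 2 : ℝ) • hs)
       | exact S.vec_ne_zero hb (by
          linear_combination (norm := module) (1 / 2 : ℝ) • hrel - (1 / 2 : ℝ) • hs)
       | exact S.vec_ne_zero hc (by
          linear_combination (norm := module) (1 / 2 : ℝ) • hrel - (1 / 2 : ℝ) • hs)
       | exact S.vec_ne_zero hd (by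
          linear_combination (norm := module) (1 / 2 : ℝ) • hrel - (1 / 2 : ℝ) • hs)
       | exact S.vec_ne_zero ha (by
          linear_combination (norm := module) (1 / 2 : ℝ) • hrel + (1 / 2 : ℝ) • hs)
       | exact S.vec_ne_zero hb (by
          linear_combination (norm := module) (1 / 2 : ℝ) • hrel + (1 / 2 : ℝ) • hs)
       | exact S.vec_ne_zero hc (by
          linear_combination (norm := module) (1 / 2 : ℝ) • hrel + (1 / 2 : ℝ) • hs)
       | exact S.vec_ne_zero hd (by
          linear_combination (norm := module) (1 / 2 : ℝ) • hrel + (1 / 2 : ℝ) • hs)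
       | exact hab.vec_ne_neg (by
          linear_combination (norm := module) (1 / 2 : ℝ) • hrel + (1 / 2 : ℝ) • hs)
       | exact hac.vec_ne_neg (by
          linear_combination (norm := module) (1 / 2 : ℝ) • hrel + (1 / 2 : ℝ) • hs)
       | exact had.vec_ne_neg (by
          linear_combination (norm := module) (1 / 2 : ℝ) • hrel + (1 / 2 : ℝ) • hs)
       | exact hbc.vec_ne_neg (by
          linear_combination (norm := module) (1 / 2 : ℝ) • hrel + (1 / 2 : ℝ) • hs)
       | exact hbd.vec_ne_neg (by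
          linear_combination (norm := module) (1 / 2 : ℝ) • hrel + (1 / 2 : ℝ) • hs)
       | exact hcd.vec_ne_neg (by
          linear_combination (norm := module) (1 / 2 : ℝ) • hrel + (1 / 2 : ℝ) • hs))

/-- strict convexity -/
private theorem no_two {p q r : Z} (hqr : S.Ap q r)
    (h1 : ip (S.vec q) (S.vec q) = ip (S.vec p) (S.vec p))
    (h2 : ip (S.vec r) (S.vec r) = ip (S.vec p) (S.vec p))
    (h : (2 : ℝ) • S.vec p = S.vec q + S.vec r) : False :=
  hqr.vec_ne (eq_of_two_smul h h1 h2)

/-- three pairs in the same orbit -/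
private theorem three_orbit {a b c d e a1 c1 e1 c2 d2 e2 : Z} (had : S.Ap a d) (hae : S.Ap a e)
    (hde : S.Ap d e) (lda : ip (S.vec d) (S.vec d) = ip (S.vec a) (S.vec a))
    (lea : ip (S.vec e) (S.vec e) = ip (S.vec a) (S.vec a))
    (h0 : S.vec a + S.vec b + S.vec c + S.vec d = 0)
    (h1 : S.vec a1 + S.vec b + S.vec c1 + S.vec e1 = 0)
    (h2 : S.vec b + S.vec c2 + S.vec d2 + S.vec e2 = 0)
    (ea1 : a1 = a ∨ a1 = S.inv a) (ec1 : c1 = c ∨ c1 = S.inv c) (ee1 : e1 = e ∨ e1 = S.inv e)
    (ec2 : c2 = c ∨ c2 = S.inv c) (ed2 : d2 = d ∨ d2 = S.inv d) (ee2 : e2 = e ∨ e2 = S.inv e) :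
    False := by
  have hdi : ip (S.vec (S.inv d)) (S.vec (S.inv d)) = ip (S.vec a) (S.vec a) := by
    rw [ip_inv_self, lda]
  have hai : ip (S.vec (S.inv a)) (S.vec (S.inv a)) = ip (S.vec a) (S.vec a) := by
    rw [ip_inv_self]
  have le : ∀ z, z = e ∨ z = S.inv e → ip (S.vec z) (S.vec z) = ip (S.vec a) (S.vec a) := by
    rintro z (rfl | rfl)
    · exact lea
    · rw [ip_inv_self, lea]
  have apd : ∀ z, z = e ∨ z = S.inv e → S.Ap d z := by
    rintro z (rfl | rfl)
    · exact hde
    · exact hde.inv_right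
  have apa : ∀ z, z = e ∨ z = S.inv e → S.Ap a z := by
    rintro z (rfl | rfl)
    · exact hae
    · exact hae.inv_right
  rcases ec1 with rfl | rfl
  · -- the signs at `c` agree in the first two relations
    rcases ea1 with rfl | rfl
    · exact (apd _ ee1).vec_ne (by linear_combination (norm := module) h0 - h1)
    · rw [vec_inv] at h1
      refine S.no_two (p := a) (q := e1) (r := S.inv d) (apd _ ee1).symm.inv_right (le _ ee1) hdi ?_
      rw [vec_inv]
      linear_combination (norm := module) h0 - h1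
  rcases ec2 with rfl | rfl
  · rcases ed2 with rfl | rfl
    · exact (apa _ ee2).vec_ne (by linear_combination (norm := module) h0 - h2)
    · rw [vec_inv] at h2
      refine S.no_two (p := d) (q := e2) (r := S.inv a) (apa _ ee2).symm.inv_right
        ((le _ ee2).trans lda.symm) (hai.trans lda.symm) ?_
      rw [vec_inv]
      linear_combination (norm := module) h0 - h2
  · -- the signs at `c` agree in the last two relations
    have had1 : S.Ap a1 d2 := by
      rcases ea1 with rfl | rfl <;> rcases ed2 with rfl | rfl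
      · exact had
      · exact had.inv_right
      · exact had.inv_left
      · exact had.inv_left.inv_right
    have la1 : ip (S.vec a1) (S.vec a1) = ip (S.vec a) (S.vec a) := by
      rcases ea1 with rfl | rfl
      · rfl
      · exact hai
    have ld2 : ip (S.vec d2) (S.vec d2) = ip (S.vec a) (S.vec a) := by
      rcases ed2 with rfl | rfl
      · exact lda
      · exact hdi
    by_cases he : e1 = e2
    · subst he
      exact had1.vec_ne (by linear_combination (norm := module) h1 - h2)
    · have he' : e2 = S.inv e1 := by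
        rcases ee1 with rfl | rfl <;> rcases ee2 with rfl | rfl
        · exact absurd rfl he
        · rfl
        · rw [S.inv_inv]
        · exact absurd rfl he
      subst he'
      simp only [vec_inv] at h1 h2
      refine S.no_two (p := e1) (q := d2) (r := S.inv a1) had1.symm.inv_right
        (ld2.trans (le _ ee1).symm) ?_ ?_
      · rw [ip_inv_self]
        exact la1.trans (le _ ee1).symm
      · rw [vec_inv]
        linear_combination (norm := module) h1 - h2

/-- the last case of (B2) -/
private theorem last_case {a b c u v : Z} (ha : S.inv a ≠ a)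
    (hu : S.inv u ≠ u) (hv : S.inv v ≠ v) (h : G)
    (hba : S.vec b = (-2 : ℝ) • S.vec a)
    (lca : ip (S.vec c) (S.vec c) = ip (S.vec a) (S.vec a))
    (hb' : (h • b = a ∨ h • b = S.inv a) ∨ (h • b = b ∨ h • b = S.inv b) ∨
      (h • b = c ∨ h • b = S.inv c))
    (hsum : (2 : ℝ) • S.vec a = S.vec u + S.vec v)
    (huv : (h • u = u ∧ h • v = S.inv v) ∨ (h • u = S.inv u ∧ h • v = v) ∨
      (h • u = v ∧ h • v = S.inv u) ∨ (h • u = S.inv v ∧ h • v = u)) : False := by
  have lb : ip (S.vec b) (S.vec b) = 4 * ip (S.vec a) (S.vec a) := by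
    rw [hba, ip_smul_left, ip_smul_right]
    ring
  have hapos : ip (S.vec a) (S.vec a) ≠ 0 := fun h0 => S.vec_ne_zero ha (eq_zero_of_ip_self h0)
  have lhb := S.ip_smul_self h b
  have hvb : S.vec b = -(S.vec u + S.vec v) := by
    rw [← hsum, hba]
    module
  have hvhb : S.vec (h • b) = -(S.vec (h • u) + S.vec (h • v)) := by
    funext k
    have := congrFun hvb (k * h)
    simpa only [Pi.add_apply, Pi.neg_apply, vec_smul] using this
  have hne : ∀ z, ip (S.vec z) (S.vec z) = ip (S.vec a) (S.vec a) → h • b ≠ z := by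
    intro z hz e
    rw [e, hz, lb] at lhb
    apply hapos
    linarith
  have key : S.vec (h • b) = S.vec b ∨ S.vec (h • b) = -S.vec b := by
    rcases hb' with (e | e) | (e | e) | (e | e)
    · exact absurd e (hne _ rfl)
    · exact absurd e (hne _ (S.ip_inv_self a))
    · exact Or.inl (by rw [e])
    · exact Or.inr (by rw [e, vec_inv])
    · exact absurd e (hne _ lca)
    · exact absurd e (hne _ ((S.ip_inv_self c).trans lca))
  rcases key with key | key <;> rw [hvhb, hvb] at key <;>
    rcases huv with ⟨e1, e2⟩ | ⟨e1, e2⟩ | ⟨e1, e2⟩ | ⟨e1, e2⟩ <;> rw [e1, e2] at key <;>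
    simp only [vec_inv] at key <;> first
    | exact S.vec_ne_zero hu (by linear_combination (norm := module) (1 / 2 : ℝ) • key)
    | exact S.vec_ne_zero hv (by linear_combination (norm := module) (1 / 2 : ℝ) • key)
    | exact S.vec_ne_zero hu (by linear_combination (norm := module) (-1 / 2 : ℝ) • key)
    | exact S.vec_ne_zero hv (by linear_combination (norm := module) (-1 / 2 : ℝ) • key)

/-- the case (B2) -/
private theorem two_orbit {a b c u v : Z} (ha : S.inv a ≠ a) (hb : S.inv b ≠ b)
    (hu : S.inv u ≠ u) (hv : S.inv v ≠ v) (huv : S.Ap u v)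
    (hcu : S.Ap c u) (hcv : S.Ap c v) (hau : S.Ap a u) (hav : S.Ap a v) (hbu : S.Ap b u)
    (hbv : S.Ap b v) (mu : S.mult u = 1) (mv : S.mult v = 1)
    (hcov : ∀ z : Z, (z = a ∨ z = S.inv a) ∨ (z = b ∨ z = S.inv b) ∨ (z = c ∨ z = S.inv c) ∨
      (z = u ∨ z = S.inv u) ∨ (z = v ∨ z = S.inv v))
    (h1 : S.vec a + S.vec b + S.vec c + S.vec u = 0)
    (h2 : S.vec a + S.vec b - S.vec c + S.vec v = 0)
    (hou : ∀ g : G, (g • u = u ∨ g • u = S.inv u) ∨ (g • u = v ∨ g • u = S.inv v))
    (hov : ∀ g : G, (g • v = u ∨ g • v = S.inv u) ∨ (g • v = v ∨ g • v = S.inv v)) : False := by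
  by_cases hall : ∀ g : G, (g • u = u ∧ g • v = v) ∨ (g • u = S.inv u ∧ g • v = S.inv v) ∨
      (g • u = v ∧ g • v = u) ∨ (g • u = S.inv v ∧ g • v = S.inv u)
  · exact S.not_compatible huv mu mv hall
  rw [not_forall] at hall
  obtain ⟨h, hh⟩ := hall
  have hap := huv.smul h
  -- the possibilities for `h`
  have hpos : (h • u = u ∧ h • v = S.inv v) ∨ (h • u = S.inv u ∧ h • v = v) ∨
      (h • u = v ∧ h • v = S.inv u) ∨ (h • u = S.inv v ∧ h • v = u) := by
    rcases hou h with (e1 | e1) | (e1 | e1) <;> rcases hov h with (e2 | e2) | (e2 | e2)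
    · exact absurd (e1.trans e2.symm) hap.1
    · exact absurd (by rw [e1, e2, S.inv_inv]) hap.2
    · exact absurd (Or.inl ⟨e1, e2⟩) hh
    · exact Or.inl ⟨e1, e2⟩
    · exact absurd (by rw [e1, e2]) hap.2
    · exact absurd (e1.trans e2.symm) hap.1
    · exact Or.inr (Or.inl ⟨e1, e2⟩)
    · exact absurd (Or.inr (Or.inl ⟨e1, e2⟩)) hh
    · exact absurd (Or.inr (Or.inr (Or.inl ⟨e1, e2⟩))) hh
    · exact Or.inr (Or.inr (Or.inl ⟨e1, e2⟩))
    · exact absurd (e1.trans e2.symm) hap.1
    · exact absurd (by rw [e1, e2, S.inv_inv]) hap.2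
    · exact Or.inr (Or.inr (Or.inr ⟨e1, e2⟩))
    · exact absurd (Or.inr (Or.inr (Or.inr ⟨e1, e2⟩))) hh
    · exact absurd (by rw [e1, e2]) hap.2
    · exact absurd (e1.trans e2.symm) hap.1
  -- the other pairs are permuted
  have hperm : ∀ z, S.Ap z u → S.Ap z v → (h • z = a ∨ h • z = S.inv a) ∨
      (h • z = b ∨ h • z = S.inv b) ∨ (h • z = c ∨ h • z = S.inv c) := by
    intro z hzu hzv
    have k1 := hzu.smul h
    have k2 := hzv.smul h
    have hn : ¬ (h • z = u ∨ h • z = S.inv u) ∧ ¬ (h • z = v ∨ h • z = S.inv v) := by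
      have k1' := k1.inv_right
      have k2' := k2.inv_right
      constructor
      · rintro (e | e) <;> rcases hpos with ⟨e1, e2⟩ | ⟨e1, e2⟩ | ⟨e1, e2⟩ | ⟨e1, e2⟩ <;>
          rw [e, e1] at k1 k1' <;> rw [e, e2] at k2 k2' <;> first
          | exact k1.1 rfl
          | exact k1'.1 rfl
          | exact k2.1 rfl
          | exact k2'.1 rfl
          | exact k1.2 rfl
          | exact k2.2 rfl
          | exact k1.2 (S.inv_inv _).symm
          | exact k2.2 (S.inv_inv _).symm
      · rintro (e | e) <;> rcases hpos with ⟨e1, e2⟩ | ⟨e1, e2⟩ | ⟨e1, e2⟩ | ⟨e1, e2⟩ <;>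
          rw [e, e1] at k1 k1' <;> rw [e, e2] at k2 k2' <;> first
          | exact k1.1 rfl
          | exact k1'.1 rfl
          | exact k2.1 rfl
          | exact k2'.1 rfl
          | exact k1.2 rfl
          | exact k2.2 rfl
          | exact k1.2 (S.inv_inv _).symm
          | exact k2.2 (S.inv_inv _).symm
    rcases hcov (h • z) with e | e | e | e | e
    · exact Or.inl e
    · exact Or.inr (Or.inl e)
    · exact Or.inr (Or.inr e)
    · exact absurd e hn.1
    · exact absurd e hn.2
  have h3 : (2 : ℝ) • S.vec c = S.vec v - S.vec u := by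
    linear_combination (norm := module) h1 - h2
  have h4 : (2 : ℝ) • (S.vec a + S.vec b) = -(S.vec u + S.vec v) := by
    linear_combination (norm := module) h1 + h2
  have h5 : (2 : ℝ) • S.vec (h • c) = S.vec (h • v) - S.vec (h • u) := by
    funext k
    have := congrFun h3 (k * h)
    simpa only [Pi.sub_apply, Pi.smul_apply, vec_smul] using this
  have h6 : S.vec (h • c) = S.vec a + S.vec b ∨ S.vec (h • c) = -(S.vec a + S.vec b) := by
    rcases hpos with ⟨e1, e2⟩ | ⟨e1, e2⟩ | ⟨e1, e2⟩ | ⟨e1, e2⟩ <;> rw [e1, e2] at h5 <;>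
      simp only [vec_inv] at h5
    · left
      linear_combination (norm := module) (1 / 2 : ℝ) • h5 - (1 / 2 : ℝ) • h4
    · right
      linear_combination (norm := module) (1 / 2 : ℝ) • h5 + (1 / 2 : ℝ) • h4
    · left
      linear_combination (norm := module) (1 / 2 : ℝ) • h5 - (1 / 2 : ℝ) • h4
    · right
      linear_combination (norm := module) (1 / 2 : ℝ) • h5 + (1 / 2 : ℝ) • h4
  have lhc := S.ip_smul_self h c
  -- the two main cases
  have hA : S.vec b = (-2 : ℝ) • S.vec a →
      ip (S.vec c) (S.vec c) = ip (S.vec a) (S.vec a) → False := by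
    intro e1 e2
    refine S.last_case ha hu hv h e1 e2 (hperm b hbu hbv) ?_ hpos
    rw [e1] at h4
    linear_combination (norm := module) -h4
  have hB : S.vec a = (-2 : ℝ) • S.vec b →
      ip (S.vec c) (S.vec c) = ip (S.vec b) (S.vec b) → False := by
    intro e1 e2
    have k := hperm a hau hav
    refine S.last_case hb hu hv h e1 e2 ?_ ?_ hpos
    · rcases k with k | k | k
      · exact Or.inr (Or.inl k)
      · exact Or.inl k
      · exact Or.inr (Or.inr k)
    · rw [e1] at h4
      linear_combination (norm := module) -h4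
  rcases hperm c hcu hcv with (e | e) | (e | e) | (e | e)
  · rw [e] at h6 lhc
    rcases h6 with h6 | h6
    · exact S.vec_ne_zero hb (by linear_combination (norm := module) -h6)
    · exact hA (by linear_combination (norm := module) h6) lhc.symm
  · rw [e] at h6 lhc
    rw [ip_inv_self] at lhc
    rw [vec_inv] at h6
    rcases h6 with h6 | h6
    · exact hA (by linear_combination (norm := module) -h6) lhc.symm
    · exact S.vec_ne_zero hb (by linear_combination (norm := module) h6)
  · rw [e] at h6 lhc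
    rcases h6 with h6 | h6
    · exact S.vec_ne_zero ha (by linear_combination (norm := module) -h6)
    · exact hB (by linear_combination (norm := module) h6) lhc.symm
  · rw [e] at h6 lhc
    rw [ip_inv_self] at lhc
    rw [vec_inv] at h6
    rcases h6 with h6 | h6
    · exact hB (by linear_combination (norm := module) -h6) lhc.symm
    · exact S.vec_ne_zero ha (by linear_combination (norm := module) h6)
  · rw [e] at h6
    rcases h6 with h6 | h6
    · exact S.vec_ne_zero hv (by linear_combination (norm := module) h2 + h6)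
    · exact S.vec_ne_zero hu (by linear_combination (norm := module) h1 - h6)
  · rw [e, vec_inv] at h6
    rcases h6 with h6 | h6
    · exact S.vec_ne_zero hu (by linear_combination (norm := module) h1 + h6)
    · exact S.vec_ne_zero hv (by linear_combination (norm := module) h2 - h6)

omit [Group G] [Fintype G] [Fintype Z] [DecidableEq Z] [MulAction G Z] in
private theorem or_rot {A B C D : Prop} (h : A ∨ B ∨ C ∨ D) : B ∨ C ∨ A ∨ D := by
  rcases h with h | h | h | h
  · exact Or.inr (Or.inr (Or.inl h))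
  · exact Or.inl h
  · exact Or.inr (Or.inl h)
  · exact Or.inr (Or.inr (Or.inr h))

omit [Group G] [Fintype G] [Fintype Z] [DecidableEq Z] [MulAction G Z] in
private theorem or_swap {A B C D : Prop} (h : A ∨ B ∨ C ∨ D) : A ∨ C ∨ B ∨ D := by
  rcases h with h | h | h | h
  · exact Or.inl h
  · exact Or.inr (Or.inr (Or.inl h))
  · exact Or.inr (Or.inl h)
  · exact Or.inr (Or.inr (Or.inr h))

/-- there is no fifth pair in the orbit of `d` -/
private theorem no_fifth {a b c d e : Z} (ha : S.inv a ≠ a) (hb : S.inv b ≠ b)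
    (hc : S.inv c ≠ c) (hd : S.inv d ≠ d) (he : S.inv e ≠ e) (hab : S.Ap a b) (hac : S.Ap a c)
    (had : S.Ap a d) (hae : S.Ap a e) (hbc : S.Ap b c) (hbd : S.Ap b d) (hbe : S.Ap b e)
    (hcd : S.Ap c d) (hce : S.Ap c e) (hde : S.Ap d e) (md : S.mult d = 1) (me : S.mult e = 1)
    (hcov : ∀ z : Z, (z = a ∨ z = S.inv a) ∨ (z = b ∨ z = S.inv b) ∨ (z = c ∨ z = S.inv c) ∨
      (z = d ∨ z = S.inv d) ∨ (z = e ∨ z = S.inv e))
    (hrel : S.vec a + S.vec b + S.vec c + S.vec d = 0) (g₀ : G) (hg₀ : g₀ • d = e) : False := by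
  -- the relation without `d`
  have hg₁ : g₀⁻¹ • e = d := by rw [← hg₀, inv_smul_smul]
  have hnot : ∀ {z w : Z}, S.Ap z w → ¬ (z = w ∨ z = S.inv w) := by
    rintro z w h (h1 | h1)
    · exact h.1 h1
    · exact h.2 h1
  obtain ⟨a1, b1, c1, e1, -, hs1, ea1, eb1, ec1, ee1⟩ := exists_four (S := S)
    (q0 := g₀⁻¹ • a) (q1 := g₀⁻¹ • b) (q2 := g₀⁻¹ • c) (q3 := g₀⁻¹ • d)
    (p0 := a) (p1 := b) (p2 := c) (p3 := e)
    (hab.smul _) (hac.smul _) (had.smul _) (hbc.smul _) (hbd.smul _) (hcd.smul _) (by
      intro z hz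
      have h1 : S.Ap z d := by
        rcases hz with rfl | rfl | rfl | rfl
        · have := hae.smul g₀⁻¹; rwa [hg₁] at this
        · have := hbe.smul g₀⁻¹; rwa [hg₁] at this
        · have := hce.smul g₀⁻¹; rwa [hg₁] at this
        · have := hde.smul g₀⁻¹; rwa [hg₁] at this
      have h2 := hnot h1
      rcases hcov z with h | h | h | h | h
      · exact Or.inl h
      · exact Or.inr (Or.inl h)
      · exact Or.inr (Or.inr (Or.inl h))
      · exact absurd h h2
      · exact Or.inr (Or.inr (Or.inr h)))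
  rw [S.rel_smul hrel] at hs1
  have hs1 := hs1.symm
  have lde : ip (S.vec d) (S.vec d) = ip (S.vec e) (S.vec e) := by
    rw [← hg₀, ip_smul_self]
  -- the orbit contains no third pair
  have hthree : ∀ {x y z x1 y1 z1 : Z}, S.inv y ≠ y → S.inv x ≠ x → S.inv z ≠ z →
      S.Ap x y → S.Ap x z → S.Ap y z → S.Ap x d → S.Ap x e → S.Ap y d → S.Ap y e →
      S.Ap z d → S.Ap z e →
      (∀ w : Z, (w = x ∨ w = S.inv x) ∨ (w = y ∨ w = S.inv y) ∨ (w = z ∨ w = S.inv z) ∨
        (w = d ∨ w = S.inv d) ∨ (w = e ∨ w = S.inv e)) →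
      S.vec x + S.vec y + S.vec z + S.vec d = 0 → S.vec x1 + S.vec y1 + S.vec z1 + S.vec e1 = 0 →
      (x1 = x ∨ x1 = S.inv x) → (y1 = y ∨ y1 = S.inv y) → (z1 = z ∨ z1 = S.inv z) →
      ∀ h : G, ¬ (h • e = x ∨ h • e = S.inv x) := by
    intro x y z x1 y1 z1 hy hx hz hxy hxz hyz hxd hxe hyd hye hzd hze hcv hr hr1 ex ey ez h hh
    have lex : ip (S.vec e) (S.vec e) = ip (S.vec x) (S.vec x) := by
      rcases hh with hh | hh
      · rw [← hh, ip_smul_self]
      · rw [← S.ip_smul_self h e, hh, ip_inv_self]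
    obtain ⟨y2, z2, d2, e2, -, hs2, ey2, ez2, ed2, ee2⟩ := exists_four (S := S)
      (q0 := h • x) (q1 := h • y) (q2 := h • z) (q3 := h • d)
      (p0 := y) (p1 := z) (p2 := d) (p3 := e)
      (hxy.smul _) (hxz.smul _) (hxd.smul _) (hyz.smul _) (hyd.smul _) (hzd.smul _) (by
        intro w hw
        have h1 : S.Ap w (h • e) := by
          rcases hw with rfl | rfl | rfl | rfl
          · exact hxe.smul h
          · exact hye.smul h
          · exact hze.smul h
          · exact hde.smul h
        have h1' : S.Ap w x := by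
          rcases hh with hh | hh
          · rwa [hh] at h1
          · rw [hh] at h1
            have := h1.inv_right
            rwa [S.inv_inv] at this
        have h2 := hnot h1'
        rcases hcv w with h3 | h3 | h3 | h3 | h3
        · exact absurd h3 h2
        · exact Or.inl h3
        · exact Or.inr (Or.inl h3)
        · exact Or.inr (Or.inr (Or.inl h3))
        · exact Or.inr (Or.inr (Or.inr h3)))
    rw [S.rel_smul hr] at hs2
    have hs2 := hs2.symm
    -- normalise the sign at `y`
    obtain ⟨x1', z1', e1', ex', ez', ee', hr1'⟩ : ∃ x1' z1' e1', (x1' = x ∨ x1' = S.inv x) ∧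
        (z1' = z ∨ z1' = S.inv z) ∧ (e1' = e ∨ e1' = S.inv e) ∧
        S.vec x1' + S.vec y + S.vec z1' + S.vec e1' = 0 := by
      rcases ey with rfl | rfl
      · exact ⟨x1, z1, e1, ex, ez, ee1, hr1⟩
      · refine ⟨S.inv x1, S.inv z1, S.inv e1, ?_, ?_, ?_, ?_⟩
        · rcases ex with rfl | rfl
          · exact Or.inr rfl
          · exact Or.inl (S.inv_inv x)
        · rcases ez with rfl | rfl
          · exact Or.inr rfl
          · exact Or.inl (S.inv_inv z)
        · rcases ee1 with rfl | rfl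
          · exact Or.inr rfl
          · exact Or.inl (S.inv_inv e)
        · simp only [vec_inv] at hr1 ⊢
          linear_combination (norm := module) -hr1
    obtain ⟨z2', d2', e2', ez2', ed2', ee2', hs2'⟩ : ∃ z2' d2' e2', (z2' = z ∨ z2' = S.inv z) ∧
        (d2' = d ∨ d2' = S.inv d) ∧ (e2' = e ∨ e2' = S.inv e) ∧
        S.vec y + S.vec z2' + S.vec d2' + S.vec e2' = 0 := by
      rcases ey2 with rfl | rfl
      · exact ⟨z2, d2, e2, ez2, ed2, ee2, hs2⟩
      · refine ⟨S.inv z2, S.inv d2, S.inv e2, ?_, ?_, ?_, ?_⟩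
        · rcases ez2 with rfl | rfl
          · exact Or.inr rfl
          · exact Or.inl (S.inv_inv z)
        · rcases ed2 with rfl | rfl
          · exact Or.inr rfl
          · exact Or.inl (S.inv_inv d)
        · rcases ee2 with rfl | rfl
          · exact Or.inr rfl
          · exact Or.inl (S.inv_inv e)
        · simp only [vec_inv] at hs2 ⊢
          linear_combination (norm := module) -hs2
    exact S.three_orbit hxd hxe hde (lde.trans lex) lex hr hr1' hs2' ex' ez' ee' ez2' ed2' ee2'
  have hoa := hthree hb ha hc hab hac hbc had hae hbd hbe hcd hce hcov hrel hs1 ea1 eb1 ec1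
  have hob := hthree hc hb ha hbc hab.symm hac.symm hbd hbe hcd hce had hae
    (fun w => or_rot (hcov w)) (by rw [← hrel]; abel) (by rw [← hs1]; abel) eb1 ec1 ea1
  have hoc := hthree ha hc hb hac.symm hbc.symm hab hcd hce had hae hbd hbe
    (fun w => or_rot (or_rot (hcov w))) (by rw [← hrel]; abel) (by rw [← hs1]; abel) ec1 ea1 eb1
  have hoe : ∀ h : G, (h • e = d ∨ h • e = S.inv d) ∨ (h • e = e ∨ h • e = S.inv e) := by
    intro h
    rcases hcov (h • e) with h1 | h1 | h1 | h1 | h1
    · exact absurd h1 (hoa h)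
    · exact absurd h1 (hob h)
    · exact absurd h1 (hoc h)
    · exact Or.inl h1
    · exact Or.inr h1
  have hod : ∀ h : G, (h • d = d ∨ h • d = S.inv d) ∨ (h • d = e ∨ h • d = S.inv e) := by
    intro h
    have h1 := hoe (h * g₀⁻¹)
    rwa [mul_smul, hg₁] at h1
  have core : ∀ {x y z v : Z}, S.inv x ≠ x → S.inv y ≠ y → S.Ap x d → S.Ap x e → S.Ap y d →
      S.Ap y e → S.Ap z d → S.Ap z e →
      (∀ w : Z, (w = x ∨ w = S.inv x) ∨ (w = y ∨ w = S.inv y) ∨ (w = z ∨ w = S.inv z) ∨
        (w = d ∨ w = S.inv d) ∨ (w = e ∨ w = S.inv e)) →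
      (v = e ∨ v = S.inv e) → S.vec x + S.vec y + S.vec z + S.vec d = 0 →
      S.vec x + S.vec y - S.vec z + S.vec v = 0 → False := by
    intro x y z v hx hy hxd hxe hyd hye hzd hze hcv hv k1 k2
    rcases hv with rfl | rfl
    · exact S.two_orbit hx hy hd he hde hzd hze hxd hxe hyd hye md me hcv k1 k2 hod hoe
    · refine S.two_orbit hx hy hd (S.nonreal_inv he) hde.inv_right hzd hze.inv_right hxd
        hxe.inv_right hyd hye.inv_right md (by rw [mult_inv]; exact me) ?_ k1 k2 ?_ ?_
      · intro w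
        rw [S.inv_inv]
        rcases hcv w with h1 | h1 | h1 | h1 | h1
        · exact Or.inl h1
        · exact Or.inr (Or.inl h1)
        · exact Or.inr (Or.inr (Or.inl h1))
        · exact Or.inr (Or.inr (Or.inr (Or.inl h1)))
        · exact Or.inr (Or.inr (Or.inr (Or.inr h1.symm)))
      · intro g
        rw [S.inv_inv]
        rcases hod g with h1 | h1
        · exact Or.inl h1
        · exact Or.inr h1.symm
      · intro g
        rw [S.inv_inv, S.smul_inv]
        rcases hoe g with (h1 | h1) | (h1 | h1)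
        · rw [h1]; exact Or.inl (Or.inr rfl)
        · rw [h1, S.inv_inv]; exact Or.inl (Or.inl rfl)
        · rw [h1]; exact Or.inr (Or.inl rfl)
        · rw [h1, S.inv_inv]; exact Or.inr (Or.inr rfl)
  have hcov1 : ∀ w : Z, (w = a ∨ w = S.inv a) ∨ (w = c ∨ w = S.inv c) ∨ (w = b ∨ w = S.inv b) ∨
      (w = d ∨ w = S.inv d) ∨ (w = e ∨ w = S.inv e) := fun w => or_swap (hcov w)
  have hcov2 : ∀ w : Z, (w = b ∨ w = S.inv b) ∨ (w = c ∨ w = S.inv c) ∨ (w = a ∨ w = S.inv a) ∨
      (w = d ∨ w = S.inv d) ∨ (w = e ∨ w = S.inv e) := fun w => or_rot (hcov w)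
  have hrel1 : S.vec a + S.vec c + S.vec b + S.vec d = 0 := by rw [← hrel]; abel
  have hrel2 : S.vec b + S.vec c + S.vec a + S.vec d = 0 := by rw [← hrel]; abel
  have ee1' : S.inv e1 = e ∨ S.inv e1 = S.inv e := by
    rcases ee1 with rfl | rfl
    · exact Or.inr rfl
    · exact Or.inl (S.inv_inv e)
  have hde1 : S.Ap d e1 := by
    rcases ee1 with rfl | rfl
    · exact hde
    · exact hde.inv_right
  rcases ea1 with rfl | rfl <;> rcases eb1 with rfl | rfl <;> rcases ec1 with rfl | rfl
  · exact hde1.vec_ne (by linear_combination (norm := module) hrel - hs1)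
  · exact core ha hb had hae hbd hbe hcd hce hcov ee1 hrel (by
      rw [vec_inv] at hs1
      linear_combination (norm := module) hs1)
  · exact core ha hc had hae hcd hce hbd hbe hcov1 ee1 hrel1 (by
      rw [vec_inv] at hs1
      linear_combination (norm := module) hs1)
  · exact core hb hc hbd hbe hcd hce had hae hcov2 ee1' hrel2 (by
      simp only [vec_inv] at hs1 ⊢
      linear_combination (norm := module) -hs1)
  · exact core hb hc hbd hbe hcd hce had hae hcov2 ee1 hrel2 (by
      rw [vec_inv] at hs1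
      linear_combination (norm := module) hs1)
  · exact core ha hc had hae hcd hce hbd hbe hcov1 ee1' hrel1 (by
      simp only [vec_inv] at hs1 ⊢
      linear_combination (norm := module) -hs1)
  · exact core ha hb had hae hbd hbe hcd hce hcov ee1' hrel (by
      simp only [vec_inv] at hs1 ⊢
      linear_combination (norm := module) -hs1)
  · exact hde1.vec_ne_neg (by
      simp only [vec_inv] at hs1
      linear_combination (norm := module) hrel + hs1)

/-- the images stay in the four pairs -/
private theorem stay {a b c d : Z} (ha : S.inv a ≠ a) (hb : S.inv b ≠ b)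
    (hc : S.inv c ≠ c) (hd : S.inv d ≠ d) (hab : S.Ap a b) (hac : S.Ap a c)
    (had : S.Ap a d) (hbc : S.Ap b c) (hbd : S.Ap b d) (hcd : S.Ap c d)
    (hrel : S.vec a + S.vec b + S.vec c + S.vec d = 0) (g : G) :
    (g • d = a ∨ g • d = S.inv a) ∨ (g • d = b ∨ g • d = S.inv b) ∨
      (g • d = c ∨ g • d = S.inv c) ∨ (g • d = d ∨ g • d = S.inv d) := by
  by_contra hcon
  simp only [not_or] at hcon
  obtain ⟨⟨n1, n2⟩, ⟨n3, n4⟩, ⟨n5, n6⟩, ⟨n7, n8⟩⟩ := hcon
  set e := g • d with he
  have her : S.inv e ≠ e := S.nonreal_smul g hd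
  have hae : S.Ap a e := Ap.symm ⟨n1, n2⟩
  have hbe : S.Ap b e := Ap.symm ⟨n3, n4⟩
  have hce : S.Ap c e := Ap.symm ⟨n5, n6⟩
  have hde : S.Ap d e := Ap.symm ⟨n7, n8⟩
  have hr : ∀ z ∈ ({a, b, c, d, e} : Finset Z), S.inv z ≠ z := by
    intro z hz
    simp only [Finset.mem_insert, Finset.mem_singleton] at hz
    rcases hz with rfl | rfl | rfl | rfl | rfl <;> assumption
  have hp : ∀ z ∈ ({a, b, c, d, e} : Finset Z), ∀ w ∈ ({a, b, c, d, e} : Finset Z), z ≠ w →
      S.Ap z w := by
    intro z hz w hw hzw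
    simp only [Finset.mem_insert, Finset.mem_singleton] at hz hw
    rcases hz with h1 | h1 | h1 | h1 | h1 <;> rcases hw with h2 | h2 | h2 | h2 | h2 <;>
      first
      | exact absurd (h1.trans h2.symm) hzw
      | (rw [h1, h2]; assumption)
      | (rw [h1, h2]; apply Ap.symm; assumption)
  have hsum : ∀ f : Z → ℕ, ∑ z ∈ ({a, b, c, d, e} : Finset Z), f z =
      f a + (f b + (f c + (f d + f e))) := by
    intro f
    rw [Finset.sum_insert, Finset.sum_insert, Finset.sum_insert, Finset.sum_insert,
      Finset.sum_singleton]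
    · simpa using hde.1
    · simpa using ⟨hcd.1, hce.1⟩
    · simpa using ⟨hbc.1, hbd.1, hbe.1⟩
    · simpa using ⟨hab.1, hac.1, had.1, hae.1⟩
  have htot := S.total_pairs {a, b, c, d, e} hr hp
  rw [hsum] at htot
  have p1 := S.mult_pos a
  have p2 := S.mult_pos b
  have p3 := S.mult_pos c
  have p4 := S.mult_pos d
  have p5 := S.mult_pos e
  have hcov : ∀ z : Z, (z = a ∨ z = S.inv a) ∨ (z = b ∨ z = S.inv b) ∨ (z = c ∨ z = S.inv c) ∨
      (z = d ∨ z = S.inv d) ∨ (z = e ∨ z = S.inv e) := by
    intro z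
    by_cases hz : S.inv z = z
    · have h1 := S.total_pairs_real hz {a, b, c, d, e} hr hp
      rw [hsum] at h1
      have h2 := S.mult_pos z
      omega
    · by_contra hcon
      simp only [not_or] at hcon
      obtain ⟨⟨m1, m2⟩, ⟨m3, m4⟩, ⟨m5, m6⟩, ⟨m7, m8⟩, ⟨m9, m10⟩⟩ := hcon
      have hza : S.Ap z a := ⟨m1, m2⟩
      have hzb : S.Ap z b := ⟨m3, m4⟩
      have hzc : S.Ap z c := ⟨m5, m6⟩
      have hzd : S.Ap z d := ⟨m7, m8⟩
      have hze : S.Ap z e := ⟨m9, m10⟩
      have hzp : ∀ w ∈ ({a, b, c, d, e} : Finset Z), S.Ap z w := by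
        intro w hw
        simp only [Finset.mem_insert, Finset.mem_singleton] at hw
        rcases hw with h1 | h1 | h1 | h1 | h1 <;> rw [h1] <;> assumption
      have hzn : z ∉ ({a, b, c, d, e} : Finset Z) := fun h => (hzp z h).1 rfl
      have h1 := S.total_pairs (insert z {a, b, c, d, e}) (by
        intro w hw
        rcases Finset.mem_insert.1 hw with rfl | hw
        · exact hz
        · exact hr w hw) (by
        intro w hw w' hw' hne
        rcases Finset.mem_insert.1 hw with rfl | hw
        · rcases Finset.mem_insert.1 hw' with rfl | hw'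
          · exact absurd rfl hne
          · exact hzp w' hw'
        · rcases Finset.mem_insert.1 hw' with h3 | h3
          · rw [h3]
            exact (hzp w hw).symm
          · exact hp w hw w' h3 hne)
      rw [Finset.sum_insert hzn, hsum] at h1
      have h2 := S.mult_pos z
      omega
  exact S.no_fifth ha hb hc hd her hab hac had hae hbc hbd hbe hcd hce hde (by omega) (by omega)
    hcov hrel g he.symm

theorem t_one {a b c d : Z} (ha : S.inv a ≠ a) (hb : S.inv b ≠ b) (hc : S.inv c ≠ c)
    (hd : S.inv d ≠ d) (hab : S.Ap a b) (hac : S.Ap a c) (had : S.Ap a d) (hbc : S.Ap b c)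
    (hbd : S.Ap b d) (hcd : S.Ap c d)
    (hrel : S.vec a + S.vec b + S.vec c + S.vec d = 0) (g : G) :
    ({a, b, c, d} : Multiset Z).map (g • ·) = {a, b, c, d} ∨
      ({a, b, c, d} : Multiset Z).map (g • ·) = ({a, b, c, d} : Multiset Z).map S.inv := by
  have kd := S.stay ha hb hc hd hab hac had hbc hbd hcd hrel g
  have kc := S.stay ha hb hd hc hab had hac hbd hbc hcd.symm (by rw [← hrel]; abel) g
  have kb := S.stay ha hc hd hb hac had hab hcd hbc.symm hbd.symm (by rw [← hrel]; abel) g
  have ka := S.stay hb hc hd ha hbc hbd hab.symm hcd hac.symm had.symm (by rw [← hrel]; abel) g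
  obtain ⟨a', b', c', d', hM, hs, ea, eb, ec, ed⟩ := exists_four (S := S)
    (q0 := g • a) (q1 := g • b) (q2 := g • c) (q3 := g • d) (p0 := a) (p1 := b) (p2 := c)
    (p3 := d) (hab.smul g) (hac.smul g) (had.smul g) (hbc.smul g) (hbd.smul g) (hcd.smul g) (by
      rintro z (rfl | rfl | rfl | rfl)
      · rcases ka with h | h | h | h
        · exact Or.inr (Or.inl h)
        · exact Or.inr (Or.inr (Or.inl h))
        · exact Or.inr (Or.inr (Or.inr h))
        · exact Or.inl h
      · rcases kb with h | h | h | h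
        · exact Or.inl h
        · exact Or.inr (Or.inr (Or.inl h))
        · exact Or.inr (Or.inr (Or.inr h))
        · exact Or.inr (Or.inl h)
      · rcases kc with h | h | h | h
        · exact Or.inl h
        · exact Or.inr (Or.inl h)
        · exact Or.inr (Or.inr (Or.inr h))
        · exact Or.inr (Or.inr (Or.inl h))
      · exact kd)
  rw [S.rel_smul hrel] at hs
  have hmap : ({a, b, c, d} : Multiset Z).map (g • ·) = {g • a, g • b, g • c, g • d} := rfl
  rw [hmap, hM]
  rcases S.case_signs ha hb hc hd hab hac had hbc hbd hcd hrel hs.symm ea eb ec ed with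
    ⟨h1, h2, h3, h4⟩ | ⟨h1, h2, h3, h4⟩
  · left
    rw [h1, h2, h3, h4]
  · right
    rw [h1, h2, h3, h4]
    rfl

end Pool.Agent.Exo5.SlopeData
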